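import Mathlib

set_option autoImplicit false

/-!
# Ratios of basic hypergeometric series `2φ1`: denominators of the coefficients

Generic part: the q-Pochhammer symbol, the series `2φ1`, q-difference equations of Riccati type for
two ratios, and the denominators forced by such an equation.
-/

namespace Pool.Agent.R504.Heine

open Finset PowerSeries

section defs

variable {K : Type*} [Field K]

/-- the q-Pochhammer symbol `(x; q)_n = ∏_{j < n} (1 - x q ^ j)` -/
def poch (x q : K) (n : ℕ) : K := ∏ j ∈ range n, (1 - x * q ^ j)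

/-- the basic hypergeometric series
`2φ1(a, b; c; q, z) = ∑_n (a; q)_n (b; q)_n / ((q; q)_n (c; q)_n) z ^ n`,
a formal power series in `z` -/
noncomputable def phi (a b c q : K) : PowerSeries K :=
  PowerSeries.mk fun n => poch a q n * poch b q n / (poch q q n * poch c q n)

lemma poch_succ (x q : K) (n : ℕ) : poch x q (n + 1) = poch x q n * (1 - x * q ^ n) := by
  unfold poch; rw [prod_range_succ]

lemma poch_shift (x q : K) (n : ℕ) :
    (1 - x) * poch (x * q) q n = poch x q n * (1 - x * q ^ n) := by
  rw [← poch_succ]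
  unfold poch
  rw [prod_range_succ']
  rw [pow_zero, mul_one, mul_comm]
  congr 1
  apply prod_congr rfl
  intro j _
  rw [pow_succ]; ring

lemma phi_const (a b c q : K) : PowerSeries.constantCoeff (phi a b c q) = 1 := by
  rw [← PowerSeries.coeff_zero_eq_constantCoeff_apply]
  unfold phi
  rw [PowerSeries.coeff_mk]
  unfold poch
  simp

lemma phi_ne (a b c q : K) : phi a b c q ≠ 0 := by
  intro h
  have := phi_const a b c q
  rw [h] at this
  simp at this

end defs

section denominators

variable {K : Type*} [Field K]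

lemma prod_mem_aux (S : Subring K) (v : ℕ → K) (hv : ∀ k, v k ∈ S) (e : ℕ → ℕ) (N : ℕ) :
    ∏ k ∈ range N, v k ^ e k ∈ S :=
  Subring.prod_mem S fun k _ => Subring.pow_mem S (hv k) _

lemma prod_extend (v : ℕ → K) (n N : ℕ) (h : n + 1 ≤ N) :
    ∏ k ∈ range N, v k ^ ((n + 1) / (k + 1)) = ∏ k ∈ range (n + 1), v k ^ ((n + 1) / (k + 1)) := by
  symm
  apply Finset.prod_subset
  · intro x hx
    rw [mem_range] at *
    omega
  · intro x _ hx
    rw [mem_range, not_lt] at hx
    rw [Nat.div_eq_of_lt (by omega), pow_zero]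

/-- The denominators produced by a recursion of Riccati type. -/
lemma denom (S : Subring K) (v : ℕ → K) (hv : ∀ k, v k ∈ S)
    (g : ℕ → K) (q : K) (hq : q ∈ S) (α : ℕ → K) (hα : ∀ n, α n ∈ S) (β γ : K)
    (hβ : β ∈ S) (hγ : γ ∈ S) (h0 : v 0 * g 0 = 1)
    (hrec : ∀ n, v (n + 1) * g (n + 1) = α n * g n +
      β * ∑ p ∈ Finset.HasAntidiagonal.antidiagonal n, g p.1 * (q ^ p.2 * g p.2) +
      γ * (if n = 0 then 0 else
        ∑ p ∈ Finset.HasAntidiagonal.antidiagonal (n - 1), g p.1 * (q ^ p.2 * g p.2))) (n : ℕ) :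
    g n * ∏ k ∈ range (n + 1), v k ^ ((n + 1) / (k + 1)) ∈ S := by
  induction n using Nat.strong_induction_on with
  | _ n ih =>
    rcases Nat.eq_zero_or_pos n with rfl | hn
    · simp only [zero_add, Finset.prod_range_one, Nat.div_self one_pos, pow_one]
      rw [mul_comm, h0]
      exact Subring.one_mem S
    · obtain ⟨m, rfl⟩ : ∃ m, n = m + 1 := ⟨n - 1, by omega⟩
      -- `E` is the product without the last factor
      set E := ∏ k ∈ range (m + 1), v k ^ ((m + 1 + 1) / (k + 1)) with hE
      have hprod : ∏ k ∈ range (m + 1 + 1), v k ^ ((m + 1 + 1) / (k + 1)) = E * v (m + 1) := by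
        rw [prod_range_succ, Nat.div_self (by omega), pow_one]
      have hpair : ∀ i j : ℕ, i ≤ m → j ≤ m → i + j + 2 ≤ m + 2 → g i * g j * E ∈ S := by
        intro i j hi hj hij
        have e1 : E = (∏ k ∈ range (i + 1), v k ^ ((i + 1) / (k + 1))) *
            (∏ k ∈ range (j + 1), v k ^ ((j + 1) / (k + 1))) *
            ∏ k ∈ range (m + 1), v k ^
              ((m + 1 + 1) / (k + 1) - ((i + 1) / (k + 1) + (j + 1) / (k + 1))) := by
          rw [← prod_extend v i (m + 1) (by omega), ← prod_extend v j (m + 1) (by omega),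
            ← prod_mul_distrib, ← prod_mul_distrib, hE]
          apply prod_congr rfl
          intro k _
          rw [← pow_add, ← pow_add]
          congr 1
          have : (i + 1) / (k + 1) + (j + 1) / (k + 1) ≤ (m + 1 + 1) / (k + 1) :=
            Nat.div_add_div_le_add_div.trans (Nat.div_le_div_right (by omega))
          omega
        rw [e1]
        have h1 := ih i (by omega)
        have h2 := ih j (by omega)
        have h3 := prod_mem_aux S v hv
          (fun k => (m + 1 + 1) / (k + 1) - ((i + 1) / (k + 1) + (j + 1) / (k + 1))) (m + 1)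
        have := S.mul_mem (S.mul_mem h1 h2) h3
        convert this using 1
        ring
      have hone : g m * E ∈ S := by
        have e1 : E = (∏ k ∈ range (m + 1), v k ^ ((m + 1) / (k + 1))) *
            ∏ k ∈ range (m + 1), v k ^ ((m + 1 + 1) / (k + 1) - (m + 1) / (k + 1)) := by
          rw [← prod_mul_distrib, hE]
          apply prod_congr rfl
          intro k _
          rw [← pow_add]
          congr 1
          have : (m + 1) / (k + 1) ≤ (m + 1 + 1) / (k + 1) := Nat.div_le_div_right (by omega)
          omega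
        rw [e1, ← mul_assoc]
        exact S.mul_mem (ih m (by omega)) (prod_mem_aux S v hv
          (fun k => (m + 1 + 1) / (k + 1) - (m + 1) / (k + 1)) (m + 1))
      have hsum : ∀ l : ℕ, l ≤ m →
          (∑ p ∈ Finset.HasAntidiagonal.antidiagonal l, g p.1 * (q ^ p.2 * g p.2)) * E ∈ S := by
        intro l hl
        rw [Finset.sum_mul]
        apply Subring.sum_mem
        intro p hp
        have hp' := Finset.HasAntidiagonal.mem_antidiagonal.1 hp
        have h1 := hpair p.1 p.2 (by omega) (by omega) (by omega)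
        have := S.mul_mem (S.pow_mem hq p.2) h1
        convert this using 1
        ring
      rw [hprod]
      have e2 : g (m + 1) * (E * v (m + 1)) = α m * (g m * E) +
          β * ((∑ p ∈ Finset.HasAntidiagonal.antidiagonal m, g p.1 * (q ^ p.2 * g p.2)) * E) +
          γ * ((if m = 0 then 0 else ∑ p ∈ Finset.HasAntidiagonal.antidiagonal (m - 1),
            g p.1 * (q ^ p.2 * g p.2)) * E) := by
        have := hrec m
        linear_combination E * this
      rw [e2]
      apply S.add_mem (S.add_mem (S.mul_mem (hα m) hone) (S.mul_mem hβ (hsum m le_rfl)))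
      apply S.mul_mem hγ
      split_ifs with hm
      · rw [zero_mul]; exact S.zero_mem
      · exact hsum (m - 1) (by omega)

end denominators

section ratios

variable {K : Type*} [Field K]

/-- The coefficients of `G - c T G` for a solution of the Riccati equation. -/
lemma coeff_riccati (G : PowerSeries K) (c q A B β γ : K)
    (h : G - C c * rescale q G = 1 + C A * (X * G) - C B * (X * rescale q G)
      + C β * (X * (G * rescale q G)) + C γ * (X * (X * (G * rescale q G)))) :
    (1 - c * q ^ 0) * coeff 0 G = 1 ∧ ∀ n, (1 - c * q ^ (n + 1)) * coeff (n + 1) G =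
      (A - B * q ^ n) * coeff n G +
      β * ∑ p ∈ Finset.HasAntidiagonal.antidiagonal n, coeff p.1 G * (q ^ p.2 * coeff p.2 G) +
      γ * (if n = 0 then 0 else ∑ p ∈ Finset.HasAntidiagonal.antidiagonal (n - 1),
        coeff p.1 G * (q ^ p.2 * coeff p.2 G)) := by
  constructor
  · have := congrArg (coeff 0) h
    simp only [map_add, map_sub, coeff_C_mul, coeff_rescale, coeff_zero_X_mul, coeff_zero_one,
      mul_zero, add_zero, sub_zero, pow_zero, one_mul] at this
    rw [pow_zero, mul_one, sub_mul, one_mul]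
    exact this
  · intro n
    have h1 := congrArg (coeff (n + 1)) h
    simp only [map_add, map_sub, coeff_C_mul, coeff_rescale, coeff_succ_X_mul] at h1
    have h2 : coeff (n + 1) (1 : PowerSeries K) = 0 := by
      rw [coeff_one, if_neg (by omega)]
    rw [h2] at h1
    have h3 : coeff n (G * rescale q G) = ∑ p ∈ Finset.HasAntidiagonal.antidiagonal n,
        coeff p.1 G * (q ^ p.2 * coeff p.2 G) := by
      rw [coeff_mul]
      apply sum_congr rfl
      intro p _
      rw [coeff_rescale]
    have h4 : coeff n (X * (G * rescale q G)) = (if n = 0 then 0 else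
        ∑ p ∈ Finset.HasAntidiagonal.antidiagonal (n - 1),
        coeff p.1 G * (q ^ p.2 * coeff p.2 G)) := by
      split_ifs with hn
      · subst hn; rw [coeff_zero_X_mul]
      · obtain ⟨m, rfl⟩ : ∃ m, n = m + 1 := ⟨n - 1, by omega⟩
        rw [coeff_succ_X_mul, coeff_mul, Nat.add_sub_cancel]
        apply sum_congr rfl
        intro p _
        rw [coeff_rescale]
    rw [h3, h4] at h1
    linear_combination h1

/-- hypotheses on the parameters -/
structure Generic (a b c q : K) : Prop where
  ha : 1 - a ≠ 0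
  hb : 1 - b ≠ 0
  hc : ∀ k : ℕ, 1 - c * q ^ k ≠ 0
  hq : ∀ k : ℕ, 1 - q * q ^ k ≠ 0

lemma poch_ne {x q : K} (h : ∀ k : ℕ, 1 - x * q ^ k ≠ 0) (n : ℕ) : poch x q n ≠ 0 :=
  Finset.prod_ne_zero_iff.2 fun k _ => h k

lemma Generic.hc' {a b c q : K} (h : Generic a b c q) (k : ℕ) : 1 - c * q * q ^ k ≠ 0 := by
  have := h.hc (k + 1)
  rw [pow_succ] at this
  intro h2
  apply this
  linear_combination h2

lemma Generic.hc0 {a b c q : K} (h : Generic a b c q) : 1 - c ≠ 0 := by
  have := h.hc 0
  rwa [pow_zero, mul_one] at this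

/-- the coefficients of `2φ1(aq, bq; cq; q, z)` in terms of those of `2φ1(a, b; c; q, z)` -/
lemma coeff_shift_abc {a b c q : K} (h : Generic a b c q) (n : ℕ) :
    (1 - a) * (1 - b) * ((1 - c)⁻¹ * coeff n (phi (a * q) (b * q) (c * q) q)) * (1 - c * q ^ n) =
      coeff n (phi a b c q) * ((1 - a * q ^ n) * (1 - b * q ^ n)) := by
  unfold phi
  rw [coeff_mk, coeff_mk]
  have h1 := poch_shift a q n
  have h2 := poch_shift b q n
  have h3 := poch_shift c q n
  have h4 : poch q q n ≠ 0 := poch_ne h.hq n
  have h5 : poch c q n ≠ 0 := poch_ne h.hc n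
  have h6 : poch (c * q) q n ≠ 0 := poch_ne h.hc' n
  have h7 := h.hc0
  have h8 := h.hc n
  have e : (1 - c)⁻¹ * (poch (a * q) q n * poch (b * q) q n / (poch q q n * poch (c * q) q n)) =
      poch (a * q) q n * poch (b * q) q n / (poch q q n * ((1 - c) * poch (c * q) q n)) := by
    field_simp
  rw [e, h3, ← mul_div_assoc, div_mul_eq_mul_div, div_mul_eq_mul_div, div_eq_div_iff
    (mul_ne_zero h4 (mul_ne_zero h5 h8)) (mul_ne_zero h4 h5)]
  linear_combination (1 - c * q ^ n) * poch q q n * poch c q n * (1 - b) * poch (b * q) q n * h1 +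
    (1 - c * q ^ n) * poch q q n * poch c q n * poch a q n * (1 - a * q ^ n) * h2

/-- the coefficients of `2φ1(aq, b; cq; q, z)` in terms of those of `2φ1(a, b; c; q, z)` -/
lemma coeff_shift_ac {a b c q : K} (h : Generic a b c q) (n : ℕ) :
    (1 - a) * ((1 - c)⁻¹ * coeff n (phi (a * q) b (c * q) q)) * (1 - c * q ^ n) =
      coeff n (phi a b c q) * (1 - a * q ^ n) := by
  unfold phi
  rw [coeff_mk, coeff_mk]
  have h1 := poch_shift a q n
  have h3 := poch_shift c q n
  have h4 : poch q q n ≠ 0 := poch_ne h.hq n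
  have h5 : poch c q n ≠ 0 := poch_ne h.hc n
  have h6 : poch (c * q) q n ≠ 0 := poch_ne h.hc' n
  have h7 := h.hc0
  have h8 := h.hc n
  have e : (1 - c)⁻¹ * (poch (a * q) q n * poch b q n / (poch q q n * poch (c * q) q n)) =
      poch (a * q) q n * poch b q n / (poch q q n * ((1 - c) * poch (c * q) q n)) := by
    field_simp
  rw [e, h3, ← mul_div_assoc, div_mul_eq_mul_div, div_mul_eq_mul_div, div_eq_div_iff
    (mul_ne_zero h4 (mul_ne_zero h5 h8)) (mul_ne_zero h4 h5)]
  linear_combination (1 - c * q ^ n) * poch q q n * poch c q n * poch b q n * h1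

/-- the recursion for the coefficients of `2φ1(a, b; c; q, z)` -/
lemma coeff_succ {a b c q : K} (h : Generic a b c q) (n : ℕ) :
    coeff (n + 1) (phi a b c q) * ((1 - q ^ (n + 1)) * (1 - c * q ^ n)) =
      coeff n (phi a b c q) * ((1 - a * q ^ n) * (1 - b * q ^ n)) := by
  unfold phi
  rw [coeff_mk, coeff_mk, poch_succ, poch_succ, poch_succ, poch_succ]
  have h4 : poch q q n ≠ 0 := poch_ne h.hq n
  have h5 : poch c q n ≠ 0 := poch_ne h.hc n
  have h8 := h.hc n
  have h9 := h.hq n
  have e : (1 - q ^ (n + 1)) = 1 - q * q ^ n := by rw [pow_succ]; ring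
  rw [e, div_mul_eq_mul_div, div_mul_eq_mul_div, div_eq_div_iff
    (mul_ne_zero (mul_ne_zero h4 h9) (mul_ne_zero h5 h8)) (mul_ne_zero h4 h5)]
  ring

/-- **First ratio.** The Riccati equation for `G = 2φ1(aq, bq; cq) / ((1 - c) 2φ1(a, b; c))`. -/
lemma riccati_abc {a b c q : K} (h : Generic a b c q) (G : PowerSeries K)
    (hG : G * phi a b c q = C (1 - c)⁻¹ * phi (a * q) (b * q) (c * q) q) :
    G - C c * rescale q G = 1 + C (a + b - a * b) * (X * G) - C (a * b * q) * (X * rescale q G)
      + C (-(c * ((1 - a) * (1 - b)))) * (X * (G * rescale q G))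
      + C (a * b * ((1 - a) * (1 - b)) * q) * (X * (X * (G * rescale q G))) := by
  obtain ⟨f, hf⟩ : ∃ f, f = phi a b c q := ⟨_, rfl⟩
  obtain ⟨P, hP⟩ : ∃ P, P = C (1 - c)⁻¹ * phi (a * q) (b * q) (c * q) q := ⟨_, rfl⟩
  rw [← hf, ← hP] at hG
  have hκ : (1 - a) * (1 - b) ≠ 0 := mul_ne_zero h.ha h.hb
  have hPc : ∀ n, coeff n P = (1 - c)⁻¹ * coeff n (phi (a * q) (b * q) (c * q) q) := by
    intro n; rw [hP, coeff_C_mul]
  -- first relation
  have R2 : rescale q f = f - C ((1 - a) * (1 - b)) * (X * P) := by
    ext n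
    rw [map_sub, coeff_rescale, coeff_C_mul]
    rcases Nat.eq_zero_or_pos n with rfl | hn
    · simp
    · obtain ⟨m, rfl⟩ : ∃ m, n = m + 1 := ⟨n - 1, by omega⟩
      rw [coeff_succ_X_mul, hPc]
      have h1 := coeff_succ h m
      have h2 := coeff_shift_abc h m
      rw [← h2, ← hf] at h1
      have h3 : coeff (m + 1) f * (1 - q ^ (m + 1)) =
          (1 - a) * (1 - b) * ((1 - c)⁻¹ * coeff m (phi (a * q) (b * q) (c * q) q)) := by
        apply mul_right_cancel₀ (h.hc m)
        linear_combination h1
      linear_combination -h3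
  -- second relation
  have R1 : P - C c * rescale q P = f + C (a + b - a * b) * (X * P)
      - C (a * b * q) * (X * rescale q P) := by
    ext n
    rw [LinearMap.map_sub, LinearMap.map_sub, LinearMap.map_add, coeff_C_mul, coeff_C_mul,
      coeff_C_mul, coeff_rescale]
    apply mul_left_cancel₀ hκ
    have h2 := coeff_shift_abc h n
    rw [← hPc, ← hf] at h2
    rcases Nat.eq_zero_or_pos n with rfl | hn
    · simp only [coeff_zero_X_mul, mul_zero, add_zero, sub_zero]
      simp only [pow_zero, mul_one] at h2 ⊢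
      linear_combination h2
    · obtain ⟨m, rfl⟩ : ∃ m, n = m + 1 := ⟨n - 1, by omega⟩
      rw [coeff_succ_X_mul, coeff_succ_X_mul, coeff_rescale]
      have h1 := coeff_succ h m
      have h3 := coeff_shift_abc h m
      rw [← h3, ← hPc, ← hf] at h1
      have h4 : coeff (m + 1) f * (1 - q ^ (m + 1)) = (1 - a) * (1 - b) * coeff m P := by
        apply mul_right_cancel₀ (h.hc m)
        linear_combination h1
      have e : (q : K) ^ (m + 1) = q * q ^ m := by rw [pow_succ]; ring
      rw [e] at h2 h4 ⊢
      linear_combination h2 + ((a + b - a * b) - a * b * q * q ^ m) * h4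
  have hTP : rescale q P = rescale q G * rescale q f := by rw [← map_mul, hG]
  have hf0 : f ≠ 0 := by rw [hf]; exact phi_ne a b c q
  apply mul_right_cancel₀ hf0
  rw [hTP, ← hG] at R1
  rw [← hG] at R2
  rw [R2] at R1
  simp only [map_sub, map_add, map_mul, map_neg, map_one] at R1 ⊢
  linear_combination R1

/-- **Second ratio.** The Riccati equation for `G = 2φ1(aq, b; cq) / ((1 - c) 2φ1(a, b; c))`. -/
lemma riccati_ac {a b c q : K} (h : Generic a b c q) (G : PowerSeries K)
    (hG : G * phi a b c q = C (1 - c)⁻¹ * phi (a * q) b (c * q) q) :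
    G - C c * rescale q G = 1 + C a * (X * G) - C b * (X * rescale q G)
      + C ((1 - a) * (b - c)) * (X * (G * rescale q G))
      + C 0 * (X * (X * (G * rescale q G))) := by
  obtain ⟨f, hf⟩ : ∃ f, f = phi a b c q := ⟨_, rfl⟩
  obtain ⟨P, hP⟩ : ∃ P, P = C (1 - c)⁻¹ * phi (a * q) b (c * q) q := ⟨_, rfl⟩
  rw [← hf, ← hP] at hG
  have hκ : (1 - a) ≠ 0 := h.ha
  have hPc : ∀ n, coeff n P = (1 - c)⁻¹ * coeff n (phi (a * q) b (c * q) q) := by
    intro n; rw [hP, coeff_C_mul]
  -- first relation
  have R2 : rescale q f = f - C (1 - a) * (X * (P - C b * rescale q P)) := by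
    ext n
    rw [map_sub, coeff_rescale, coeff_C_mul]
    rcases Nat.eq_zero_or_pos n with rfl | hn
    · simp
    · obtain ⟨m, rfl⟩ : ∃ m, n = m + 1 := ⟨n - 1, by omega⟩
      rw [coeff_succ_X_mul, LinearMap.map_sub, coeff_C_mul, coeff_rescale, hPc]
      have h1 := coeff_succ h m
      have h2 := coeff_shift_ac h m
      rw [← hf] at h1 h2
      have h3 : coeff (m + 1) f * (1 - q ^ (m + 1)) =
          (1 - a) * ((1 - c)⁻¹ * coeff m (phi (a * q) b (c * q) q)) * (1 - b * q ^ m) := by
        apply mul_right_cancel₀ (h.hc m)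
        linear_combination h1 - (1 - b * q ^ m) * h2
      linear_combination -h3
  -- second relation
  have R1 : P - C c * rescale q P = f + C a * (X * (P - C b * rescale q P)) := by
    have h0 : C (1 - a) * (P - C c * rescale q P) = f - C a * rescale q f := by
      ext n
      rw [coeff_C_mul, LinearMap.map_sub, LinearMap.map_sub, coeff_C_mul, coeff_C_mul,
        coeff_rescale, coeff_rescale]
      have h2 := coeff_shift_ac h n
      rw [← hPc] at h2
      rw [← hf] at h2
      linear_combination h2
    rw [R2] at h0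
    have hCa : (C (1 - a) : PowerSeries K) ≠ 0 := by
      intro h3
      apply hκ
      have := congrArg (coeff 0) h3
      simpa using this
    apply mul_left_cancel₀ hCa
    rw [h0]
    simp only [map_sub, map_one]
    ring
  have hTP : rescale q P = rescale q G * rescale q f := by rw [← map_mul, hG]
  have hf0 : f ≠ 0 := by rw [hf]; exact phi_ne a b c q
  apply mul_right_cancel₀ hf0
  rw [hTP, ← hG] at R1 R2
  simp only [map_sub, map_add, map_mul, map_neg, map_one, map_zero] at R1 R2 ⊢
  linear_combination (1 - X * (1 - C a) * C b * rescale q G) * R1 +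
    rescale q G * (C c - C a * C b * X) * R2

end ratios

section poly

/-- `ℤ[a, b, c, q]` -/
abbrev A := MvPolynomial (Fin 4) ℤ

/-- a polynomial with constant term `1` is not zero in the field of fractions -/
lemma ne_zero_of_eval (P : A) (h : MvPolynomial.eval (fun _ => (0 : ℤ)) P = 1) :
    algebraMap A (FractionRing A) P ≠ 0 := by
  intro h0
  have : P = 0 := (IsFractionRing.injective A (FractionRing A)) (by rw [h0, map_zero])
  rw [this, map_zero] at h
  exact absurd h (by norm_num)

lemma generic : Generic (algebraMap A (FractionRing A) (MvPolynomial.X 0))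
    (algebraMap A (FractionRing A) (MvPolynomial.X 1))
    (algebraMap A (FractionRing A) (MvPolynomial.X 2))
    (algebraMap A (FractionRing A) (MvPolynomial.X 3)) where
  ha := by
    have := ne_zero_of_eval (1 - MvPolynomial.X 0) (by simp)
    rwa [map_sub, map_one] at this
  hb := by
    have := ne_zero_of_eval (1 - MvPolynomial.X 1) (by simp)
    rwa [map_sub, map_one] at this
  hc := fun k => by
    have := ne_zero_of_eval (1 - MvPolynomial.X 2 * MvPolynomial.X 3 ^ k) (by simp)
    rwa [map_sub, map_one, map_mul, map_pow] at this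
  hq := fun k => by
    have := ne_zero_of_eval (1 - MvPolynomial.X 3 * MvPolynomial.X 3 ^ k) (by simp)
    rwa [map_sub, map_one, map_mul, map_pow] at this

end poly

end Pool.Agent.R504.Heine
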