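import Mathlib

set_option autoImplicit false

/-!
# The series `∏ ((1 + x^(2^j)) / (1 - x^(2^j)))^m`
-/

namespace Pool.Agent.R504.Mahler

open PowerSeries

/-- the coefficient of `x^n` in `(1 - x)^(-m) ∏_j (1 - x^(2^j))^(-m)`; the factors with `j > n` do not
influence this coefficient and are omitted -/
noncomputable def c (m n : ℕ) : ℤ :=
  coeff n (invOfUnit ((1 - X) ^ m * ∏ i ∈ Finset.range (n + 1), (1 - X ^ 2 ^ i) ^ m : ℤ⟦X⟧) 1)

/-- truncated denominator -/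
noncomputable def Dn (m N : ℕ) : ℤ⟦X⟧ :=
  (1 - X) ^ m * ∏ i ∈ Finset.range (N + 1), (1 - X ^ 2 ^ i) ^ m

noncomputable def Fn (m N : ℕ) : ℤ⟦X⟧ := invOfUnit (Dn m N) 1

lemma Dn_const (m N : ℕ) : constantCoeff (Dn m N) = 1 := by
  unfold Dn
  have h2 : ∀ i : ℕ, (0 : ℤ) ^ 2 ^ i = 0 := fun i => zero_pow (by positivity)
  simp only [map_mul, map_pow, map_sub, map_one, map_prod, constantCoeff_X, h2, sub_zero, one_pow,
    Finset.prod_const_one, mul_one]

lemma Dn_mul_Fn (m N : ℕ) : Dn m N * Fn m N = 1 :=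
  mul_invOfUnit _ _ (by simpa using Dn_const m N)

lemma Fn_succ (m N : ℕ) : Fn m N = (1 - X ^ 2 ^ (N + 1)) ^ m * Fn m (N + 1) := by
  have h1 := Dn_mul_Fn m N
  have h2 := Dn_mul_Fn m (N + 1)
  have h3 : Dn m (N + 1) = Dn m N * (1 - X ^ 2 ^ (N + 1)) ^ m := by
    unfold Dn
    rw [Finset.prod_range_succ _ (N + 1)]
    ring
  rw [h3] at h2
  calc Fn m N = Fn m N * (Dn m N * (1 - X ^ 2 ^ (N + 1)) ^ m * Fn m (N + 1)) := by rw [h2, mul_one]
    _ = (Dn m N * Fn m N) * ((1 - X ^ 2 ^ (N + 1)) ^ m * Fn m (N + 1)) := by ring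
    _ = _ := by rw [h1, one_mul]

lemma one_sub_pow_form (y : ℤ⟦X⟧) (m : ℕ) : ∃ z, (1 - y) ^ m = 1 + y * z := by
  induction m with
  | zero => exact ⟨0, by simp⟩
  | succ m ih =>
    obtain ⟨z, hz⟩ := ih
    exact ⟨z * (1 - y) - 1, by rw [pow_succ, hz]; ring⟩

lemma coeff_Fn_succ (m N n : ℕ) (hn : n < 2 ^ (N + 1)) :
    coeff n (Fn m N) = coeff n (Fn m (N + 1)) := by
  obtain ⟨z, hz⟩ := one_sub_pow_form (X ^ 2 ^ (N + 1)) m
  rw [Fn_succ, hz, add_mul, one_mul, map_add, mul_assoc, coeff_X_pow_mul', if_neg (by omega),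
    add_zero]

lemma coeff_Fn (m N n : ℕ) (hn : n ≤ N) : coeff n (Fn m N) = c m n := by
  induction N, hn using Nat.le_induction with
  | base => rfl
  | succ N hN ih =>
    rw [← coeff_Fn_succ m N n (by
      have : N + 1 < 2 ^ (N + 1) := Nat.lt_pow_self (by norm_num)
      omega), ih]

/-- the generating function -/
noncomputable def F (m : ℕ) : ℤ⟦X⟧ := PowerSeries.mk (c m)

lemma coeff_mul_F (m N n : ℕ) (hn : n ≤ N) (A : ℤ⟦X⟧) :
    coeff n (A * F m) = coeff n (A * Fn m N) := by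
  rw [coeff_mul, coeff_mul]
  apply Finset.sum_congr rfl
  intro p hp
  rw [Finset.HasAntidiagonal.mem_antidiagonal] at hp
  rw [F, coeff_mk, coeff_Fn m N p.2 (by omega)]

lemma coeff_mul_expand_F (m N n : ℕ) (hn : n ≤ N) (A : ℤ⟦X⟧) :
    coeff n (A * expand 2 two_ne_zero (F m)) = coeff n (A * expand 2 two_ne_zero (Fn m N)) := by
  rw [coeff_mul, coeff_mul]
  apply Finset.sum_congr rfl
  intro p hp
  rw [Finset.HasAntidiagonal.mem_antidiagonal] at hp
  rw [coeff_expand, coeff_expand, F, coeff_mk]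
  split_ifs with h
  · rw [coeff_Fn m N (p.2 / 2) (by omega)]
  · rfl

lemma Fn_eq (m N : ℕ) :
    (1 - X) ^ m * Fn m (N + 1) = (1 + X) ^ m * expand 2 two_ne_zero (Fn m N) := by
  have h1 := Dn_mul_Fn m (N + 1)
  have h2 := congrArg (expand 2 two_ne_zero) (Dn_mul_Fn m N)
  rw [map_mul, map_one] at h2
  have h3 : expand 2 two_ne_zero (Dn m N) = (1 - X ^ 2) ^ m *
      ∏ i ∈ Finset.range (N + 1), (1 - X ^ 2 ^ (i + 1)) ^ m := by
    unfold Dn
    simp only [map_mul, map_sub, map_one, expand_X, map_prod, map_pow, ← pow_mul, ← pow_succ']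
  have h4 : Dn m (N + 1) * (1 + X) ^ m = (1 - X) ^ m * expand 2 two_ne_zero (Dn m N) := by
    rw [h3]
    unfold Dn
    rw [Finset.prod_range_succ' _ (N + 1)]
    have h5 : (1 - X ^ 2 : ℤ⟦X⟧) ^ m = (1 - X) ^ m * (1 + X) ^ m := by
      rw [← mul_pow]; congr 1; ring
    rw [h5]
    simp only [pow_zero, pow_one]
    ring
  calc (1 - X) ^ m * Fn m (N + 1)
      = (1 - X) ^ m * Fn m (N + 1) * (expand 2 two_ne_zero (Dn m N) *
        expand 2 two_ne_zero (Fn m N)) := by rw [h2, mul_one]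
    _ = ((1 - X) ^ m * expand 2 two_ne_zero (Dn m N)) * (Fn m (N + 1) *
        expand 2 two_ne_zero (Fn m N)) := by ring
    _ = (Dn m (N + 1) * Fn m (N + 1)) * ((1 + X) ^ m * expand 2 two_ne_zero (Fn m N)) := by
        rw [← h4]; ring
    _ = _ := by rw [h1, one_mul]

/-- the functional equation -/
lemma F_eq (m : ℕ) : (1 - X) ^ m * F m = (1 + X) ^ m * expand 2 two_ne_zero (F m) := by
  ext n
  rw [coeff_mul_F m (n + 1) n (by omega), Fn_eq, coeff_mul_expand_F m n n le_rfl]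

lemma c_zero (m : ℕ) : c m 0 = 1 := by
  unfold c
  rw [coeff_zero_eq_constantCoeff_apply, constantCoeff_invOfUnit]
  rfl

section
variable (Λ : Type*) [CommRing Λ]

/-- the generating function over a ring `Λ` -/
noncomputable def FΛ (m : ℕ) : Λ⟦X⟧ := (F m).map (Int.castRingHom Λ)

lemma coeff_FΛ (m n : ℕ) : coeff n (FΛ Λ m) = (c m n : Λ) := by
  unfold FΛ F
  rw [coeff_map, coeff_mk]
  rfl

lemma FΛ_eq (m : ℕ) : (1 - X) ^ m * FΛ Λ m = (1 + X) ^ m * expand 2 two_ne_zero (FΛ Λ m) := by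
  have h := congrArg (PowerSeries.map (Int.castRingHom Λ)) (F_eq m)
  simp only [map_mul, map_pow, map_sub, map_add, map_one, PowerSeries.map_X] at h
  rw [map_expand] at h
  exact h

variable {Λ}

lemma isUnit_one_sub_X : IsUnit (1 - X : Λ⟦X⟧) :=
  IsUnit.of_mul_eq_one (mk 1) (by rw [mul_comm]; exact mk_one_mul_one_sub_eq_one Λ)

/-- the pair `(H0, H1)` of sections of `H ((1 + x) / (1 - x))^m` -/
def IsStep (m : ℕ) (H H0 H1 : Λ⟦X⟧) : Prop :=
  (1 + X) ^ m * H = (1 - X) ^ m * (expand 2 two_ne_zero H0 + X * expand 2 two_ne_zero H1)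

lemma step_mul {m : ℕ} {H H0 H1 : Λ⟦X⟧} (h : IsStep m H H0 H1) :
    H * FΛ Λ m = expand 2 two_ne_zero (H0 * FΛ Λ m) + X * expand 2 two_ne_zero (H1 * FΛ Λ m) := by
  have hu : IsUnit ((1 - X : Λ⟦X⟧) ^ m) := isUnit_one_sub_X.pow m
  apply hu.mul_left_cancel
  rw [map_mul, map_mul]
  unfold IsStep at h
  linear_combination H * FΛ_eq Λ m + expand 2 two_ne_zero (FΛ Λ m) * h

lemma coeff_even (A B : Λ⟦X⟧) (n : ℕ) :
    coeff (2 * n) (expand 2 two_ne_zero A + X * expand 2 two_ne_zero B) = coeff n A := by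
  rw [map_add, coeff_expand_mul, ← pow_one X, coeff_X_pow_mul']
  split_ifs with h
  · rw [coeff_expand_of_not_dvd _ _ _ (by omega), add_zero]
  · rw [add_zero]

lemma coeff_odd (A B : Λ⟦X⟧) (n : ℕ) :
    coeff (2 * n + 1) (expand 2 two_ne_zero A + X * expand 2 two_ne_zero B) = coeff n B := by
  rw [map_add, coeff_expand_of_not_dvd _ _ _ (by omega), zero_add, ← pow_one X, coeff_X_pow_mul',
    if_pos (by omega), Nat.add_sub_cancel, coeff_expand_mul]

lemma coeff_step_even {m : ℕ} {H H0 H1 : Λ⟦X⟧} (h : IsStep m H H0 H1) (n : ℕ) :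
    coeff (2 * n) (H * FΛ Λ m) = coeff n (H0 * FΛ Λ m) := by
  rw [step_mul h, coeff_even]

lemma coeff_step_odd {m : ℕ} {H H0 H1 : Λ⟦X⟧} (h : IsStep m H H0 H1) (n : ℕ) :
    coeff (2 * n + 1) (H * FΛ Λ m) = coeff n (H1 * FΛ Λ m) := by
  rw [step_mul h, coeff_odd]

lemma coeff_zero_mul (m : ℕ) (H : Λ⟦X⟧) : coeff 0 (H * FΛ Λ m) = coeff 0 H := by
  rw [coeff_zero_eq_constantCoeff_apply, map_mul, ← coeff_zero_eq_constantCoeff_apply,
    ← coeff_zero_eq_constantCoeff_apply, coeff_FΛ, c_zero]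
  simp

end

end Pool.Agent.R504.Mahler
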