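import Mathlib
import Pool.Agent.R504.Mahler

set_option autoImplicit false

/-!
# Synchronization of `c_m` modulo powers of two
-/

namespace Pool.Agent.R504.MahlerSync

open PowerSeries Pool.Agent.R504.Mahler

variable {Λ : Type*} [CommRing Λ]

/-- `1 / (1 - x)` -/
noncomputable def w (Λ : Type*) [CommRing Λ] : Λ⟦X⟧ := PowerSeries.mk 1

lemma w_mul : w Λ * (1 - X) = 1 := mk_one_mul_one_sub_eq_one Λ

/-- `((1 + x) / (1 - x))^m` -/
noncomputable def R (Λ : Type*) [CommRing Λ] (m : ℕ) : Λ⟦X⟧ := (1 + 2 * (X * w Λ)) ^ m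

lemma R_eq (m : ℕ) : (1 - X) ^ m * R Λ m = (1 + X) ^ m := by
  unfold R
  rw [← mul_pow]
  congr 1
  linear_combination 2 * X * (w_mul (Λ := Λ))

/-- even part -/
noncomputable def sec (i : ℕ) (G : Λ⟦X⟧) : Λ⟦X⟧ := PowerSeries.mk fun n => coeff (2 * n + i) G

lemma coeff_sec (i n : ℕ) (G : Λ⟦X⟧) : coeff n (sec i G) = coeff (2 * n + i) G := by
  unfold sec; rw [coeff_mk]

lemma sec_decomp (G : Λ⟦X⟧) :
    G = expand 2 two_ne_zero (sec 0 G) + X * expand 2 two_ne_zero (sec 1 G) := by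
  ext n
  rcases Nat.even_or_odd' n with ⟨k, rfl | rfl⟩
  · rw [coeff_even, coeff_sec]; rfl
  · rw [coeff_odd, coeff_sec]

lemma sec_add (i : ℕ) (G H : Λ⟦X⟧) : sec i (G + H) = sec i G + sec i H := by
  ext n; simp only [coeff_sec, map_add]

lemma sec_sub (i : ℕ) (G H : Λ⟦X⟧) : sec i (G - H) = sec i G - sec i H := by
  ext n; simp only [coeff_sec, map_sub]

lemma sec_C_mul (i : ℕ) (a : Λ) (G : Λ⟦X⟧) : sec i (C a * G) = C a * sec i G := by
  ext n; simp only [coeff_sec, coeff_C_mul]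

/-- the section operators -/
noncomputable def S (m i : ℕ) (H : Λ⟦X⟧) : Λ⟦X⟧ := sec i (H * R Λ m)

lemma isStep_S (m : ℕ) (H : Λ⟦X⟧) : IsStep m H (S m 0 H) (S m 1 H) := by
  unfold IsStep S
  rw [← sec_decomp, ← R_eq]
  ring

lemma isStep_unique {m : ℕ} {H A B : Λ⟦X⟧} (h : IsStep m H A B) : S m 0 H = A ∧ S m 1 H = B := by
  have h1 := isStep_S m H
  unfold IsStep at h h1
  rw [h] at h1
  have h2 := ((isUnit_one_sub_X (Λ := Λ)).pow m).mul_left_cancel h1
  constructor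
  · ext n
    have := congrArg (coeff (2 * n)) h2
    rw [coeff_even, coeff_even] at this
    exact this.symm
  · ext n
    have := congrArg (coeff (2 * n + 1)) h2
    rw [coeff_odd, coeff_odd] at this
    exact this.symm

lemma S_add (m i : ℕ) (G H : Λ⟦X⟧) : S m i (G + H) = S m i G + S m i H := by
  unfold S; rw [add_mul, sec_add]

lemma S_sub (m i : ℕ) (G H : Λ⟦X⟧) : S m i (G - H) = S m i G - S m i H := by
  unfold S; rw [sub_mul, sec_sub]

lemma S_C_mul (m i : ℕ) (a : Λ) (G : Λ⟦X⟧) : S m i (C a * G) = C a * S m i G := by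
  unfold S; rw [mul_assoc, sec_C_mul]

lemma coeff_S_even (m n : ℕ) (H : Λ⟦X⟧) :
    coeff (2 * n) (H * FΛ Λ m) = coeff n (S m 0 H * FΛ Λ m) :=
  coeff_step_even (isStep_S m H) n

lemma coeff_S_odd (m n : ℕ) (H : Λ⟦X⟧) :
    coeff (2 * n + 1) (H * FΛ Λ m) = coeff n (S m 1 H * FΛ Λ m) :=
  coeff_step_odd (isStep_S m H) n

/-- the constant coefficient of `R` -/
lemma R_const (m : ℕ) : coeff 0 (R Λ m) = 1 := by
  unfold R
  rw [coeff_zero_eq_constantCoeff_apply]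
  simp

lemma S_zero_const (m : ℕ) (H : Λ⟦X⟧) : coeff 0 (S m 0 H) = coeff 0 H := by
  unfold S
  rw [coeff_sec]
  have h := R_const (Λ := Λ) m
  rw [coeff_zero_eq_constantCoeff_apply] at h
  rw [show 2 * 0 + 0 = 0 by rfl, coeff_zero_eq_constantCoeff_apply, map_mul, h, mul_one,
    coeff_zero_eq_constantCoeff_apply]

/-- purely periodic coefficients, the period being a power of two -/
def Per (H : Λ⟦X⟧) : Prop := ∃ P, ∀ n, coeff (n + 2 ^ P) H = coeff n H

lemma per_mul {H : Λ⟦X⟧} {P : ℕ} (h : ∀ n, coeff (n + 2 ^ P) H = coeff n H) (k n : ℕ) :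
    coeff (n + 2 ^ P * k) H = coeff n H := by
  induction k with
  | zero => simp
  | succ k ih => rw [mul_add, mul_one, ← add_assoc, h, ih]

lemma per_le {H : Λ⟦X⟧} {P Q : ℕ} (hPQ : P ≤ Q) (h : ∀ n, coeff (n + 2 ^ P) H = coeff n H) (n : ℕ) :
    coeff (n + 2 ^ Q) H = coeff n H := by
  obtain ⟨k, rfl⟩ := Nat.exists_eq_add_of_le hPQ
  rw [pow_add]
  exact per_mul h _ n

lemma Per.add {G H : Λ⟦X⟧} (hG : Per G) (hH : Per H) : Per (G + H) := by
  obtain ⟨P, hP⟩ := hG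
  obtain ⟨Q, hQ⟩ := hH
  refine ⟨P ⊔ Q, fun n => ?_⟩
  rw [map_add, map_add, per_le (le_max_left _ _) hP, per_le (le_max_right _ _) hQ]

lemma Per.C_mul {G : Λ⟦X⟧} (a : Λ) (hG : Per G) : Per (C a * G) := by
  obtain ⟨P, hP⟩ := hG
  exact ⟨P, fun n => by rw [coeff_C_mul, coeff_C_mul, hP]⟩

lemma Per.sub {G H : Λ⟦X⟧} (hG : Per G) (hH : Per H) : Per (G - H) := by
  have : G - H = G + C (-1) * H := by simp [sub_eq_add_neg]
  rw [this]
  exact hG.add (hH.C_mul _)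

lemma Per.sec {G : Λ⟦X⟧} (i : ℕ) (hG : Per G) : Per (sec i G) := by
  obtain ⟨P, hP⟩ := hG
  refine ⟨P, fun n => ?_⟩
  rw [coeff_sec, coeff_sec, show 2 * (n + 2 ^ P) + i = 2 * n + i + 2 ^ P * 2 by ring]
  exact per_mul hP _ _

lemma per_w : Per (w Λ) := ⟨0, fun n => by unfold w; simp⟩

/-- partial sums -/
lemma coeff_z_mul (G : Λ⟦X⟧) (n : ℕ) :
    coeff n (X * w Λ * G) = ∑ k ∈ Finset.range n, coeff k G := by
  have h : X * w Λ * G = X * (PowerSeries.mk fun n => ∑ k ∈ Finset.range (n + 1), coeff k G) := by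
    rw [mul_assoc]
    congr 1
    ext n
    rw [mul_comm, coeff_mk, coeff_mul, Finset.Nat.sum_antidiagonal_eq_sum_range_succ_mk]
    unfold w
    simp
  rw [h]
  cases n with
  | zero => simp
  | succ n => rw [coeff_succ_X_mul, coeff_mk]

lemma Per.z_mul {K : ℕ} (hK : (2 : Λ) ^ K = 0) {G : Λ⟦X⟧} (hG : Per G) : Per (X * w Λ * G) := by
  obtain ⟨P, hP⟩ := hG
  have h1 : ∀ n, ∑ k ∈ Finset.range (n + 2 ^ P), coeff k G =
      ∑ k ∈ Finset.range n, coeff k G + ∑ k ∈ Finset.range (2 ^ P), coeff k G := by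
    intro n
    rw [add_comm n, Finset.sum_range_add, add_comm]
    congr 1
    apply Finset.sum_congr rfl
    intro k _
    rw [add_comm, hP]
  have h2 : ∀ j n, ∑ k ∈ Finset.range (n + 2 ^ P * j), coeff k G =
      ∑ k ∈ Finset.range n, coeff k G + (j : Λ) * ∑ k ∈ Finset.range (2 ^ P), coeff k G := by
    intro j n
    induction j with
    | zero => simp
    | succ j ih =>
      rw [mul_add, mul_one, ← add_assoc, h1, ih]
      push_cast
      ring
  refine ⟨P + K, fun n => ?_⟩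
  rw [coeff_z_mul, coeff_z_mul, pow_add, h2]
  push_cast
  rw [hK, zero_mul, add_zero]

lemma Per.mul_R {K : ℕ} (hK : (2 : Λ) ^ K = 0) (m : ℕ) {G : Λ⟦X⟧} (hG : Per G) :
    Per (G * R Λ m) := by
  unfold R
  induction m with
  | zero => simpa using hG
  | succ m ih =>
    have h := ih.add ((ih.z_mul hK).C_mul 2)
    have h2 : (C 2 : Λ⟦X⟧) = 2 := rfl
    rw [h2] at h
    have h3 : G * (1 + 2 * (X * w Λ)) ^ m + 2 * (X * w Λ * (G * (1 + 2 * (X * w Λ)) ^ m)) =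
      G * (1 + 2 * (X * w Λ)) ^ (m + 1) := by ring
    rwa [h3] at h

lemma Per.S {K : ℕ} (hK : (2 : Λ) ^ K = 0) (m i : ℕ) {G : Λ⟦X⟧} (hG : Per G) : Per (S m i G) :=
  (hG.mul_R hK m).sec i

/-- a constant plus a purely periodic series -/
def QPer (H : Λ⟦X⟧) : Prop := ∃ a G, Per G ∧ H = C a + G

lemma QPer.mul_R {K : ℕ} (hK : (2 : Λ) ^ K = 0) (m : ℕ) {G : Λ⟦X⟧} (hG : QPer G) :
    QPer (G * R Λ m) := by
  unfold R
  induction m with
  | zero => simpa using hG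
  | succ m ih =>
    obtain ⟨a, H, hH, h⟩ := ih
    refine ⟨-a, C (2 * a) * w Λ + (H + C 2 * (X * w Λ * H)),
      (per_w.C_mul _).add (hH.add ((hH.z_mul hK).C_mul 2)), ?_⟩
    rw [pow_succ, ← mul_assoc, h]
    have h2 : (C 2 : Λ⟦X⟧) = 2 := rfl
    have h3 : (C (2 * a) : Λ⟦X⟧) = 2 * C a := by rw [map_mul, h2]
    rw [h3, h2, map_neg]
    linear_combination (-2 * C a) * (w_mul (Λ := Λ))

lemma Per.qper {H : Λ⟦X⟧} (h : Per H) : QPer H := ⟨0, H, h, by simp⟩

lemma qper_one : QPer (1 : Λ⟦X⟧) := ⟨1, 0, ⟨0, fun n => by simp⟩, by simp⟩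

lemma QPer.S_zero {K : ℕ} (hK : (2 : Λ) ^ K = 0) (m : ℕ) {G : Λ⟦X⟧} (hG : QPer G) :
    QPer (MahlerSync.S m 0 G) := by
  obtain ⟨a, H, hH, h⟩ := hG.mul_R hK m
  unfold MahlerSync.S
  rw [h]
  refine ⟨a, sec 0 H, hH.sec 0, ?_⟩
  rw [sec_add]
  congr 1
  ext n
  rw [coeff_sec, coeff_C, coeff_C]
  congr 1
  simp

lemma QPer.S_one {K : ℕ} (hK : (2 : Λ) ^ K = 0) (m : ℕ) {G : Λ⟦X⟧} (hG : QPer G) :
    Per (MahlerSync.S m 1 G) := by
  obtain ⟨a, H, hH, h⟩ := hG.mul_R hK m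
  unfold MahlerSync.S
  rw [h, sec_add]
  have : sec 1 (C a : Λ⟦X⟧) = 0 := by
    ext n
    rw [coeff_sec, coeff_C, if_neg (by omega), map_zero]
  rw [this, zero_add]
  exact hH.sec 1

lemma exists_state {K : ℕ} (hK : (2 : Λ) ^ K = 0) (m n : ℕ) : ∀ H : Λ⟦X⟧, QPer H →
    (Per H ∨ 1 ≤ n) → ∃ l, ∃ G : Λ⟦X⟧, Per G ∧ ∀ N,
      coeff (2 ^ l * N + n) (H * FΛ Λ m) = coeff N (G * FΛ Λ m) := by
  induction n using Nat.strong_induction_on with
  | _ n ih =>
    intro H hq hor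
    rcases Nat.eq_zero_or_pos n with hn | hn
    · subst hn
      refine ⟨0, H, ?_, fun N => ?_⟩
      · rcases hor with h | h
        · exact h
        · omega
      · simp
    · rcases Nat.even_or_odd' n with ⟨k, hk | hk⟩
      · obtain ⟨l, G, hG, h⟩ := ih k (by omega) (S m 0 H) (hq.S_zero hK m) (Or.inr (by omega))
        refine ⟨l + 1, G, hG, fun N => ?_⟩
        rw [← h, ← coeff_S_even]
        congr 2
        rw [hk]; ring
      · obtain ⟨l, G, hG, h⟩ := ih k (by omega) (S m 1 H) (hq.S_one hK m).qper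
          (Or.inl (hq.S_one hK m))
        refine ⟨l + 1, G, hG, fun N => ?_⟩
        rw [← h, ← coeff_S_odd]
        congr 2
        rw [hk]; ring

lemma S_iter_const (m t : ℕ) (H : Λ⟦X⟧) : coeff 0 ((S m 0)^[t] H) = coeff 0 H := by
  induction t with
  | zero => rfl
  | succ t ih => rw [Function.iterate_succ_apply', S_zero_const, ih]

lemma Per.S_iter {K : ℕ} (hK : (2 : Λ) ^ K = 0) (m t : ℕ) {H : Λ⟦X⟧} (hH : Per H) :
    Per ((MahlerSync.S m 0)^[t] H) := by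
  induction t with
  | zero => exact hH
  | succ t ih => rw [Function.iterate_succ_apply']; exact ih.S hK m 0

lemma R_sub_one (m : ℕ) : ∃ B : Λ⟦X⟧, R Λ m = 1 + 2 * B := by
  unfold R
  induction m with
  | zero => exact ⟨0, by simp⟩
  | succ m ih =>
    obtain ⟨B, hB⟩ := ih
    exact ⟨B + X * w Λ + 2 * B * (X * w Λ), by rw [pow_succ, hB]; ring⟩

lemma sec_two_pow_mul (i j : ℕ) (G : Λ⟦X⟧) : sec i (2 ^ j * G) = 2 ^ j * sec i G := by
  have h : (C (2 ^ j) : Λ⟦X⟧) = 2 ^ j := by rw [map_pow]; rfl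
  rw [← h, sec_C_mul]

lemma S_iter_mod (m j : ℕ) (H G : Λ⟦X⟧) (h : H = 2 ^ j * G) (t : ℕ) :
    ∃ A B : Λ⟦X⟧, (S m 0)^[t] H = 2 ^ j * A ∧ (S m 0)^[t] H =
      PowerSeries.mk (fun n => coeff (2 ^ t * n) H) + 2 ^ (j + 1) * B := by
  induction t with
  | zero =>
    refine ⟨G, 0, h, ?_⟩
    simp only [Function.iterate_zero_apply, pow_zero, one_mul, mul_zero, add_zero]
    ext n; rw [coeff_mk]
  | succ t ih =>
    obtain ⟨A, B, h1, h2⟩ := ih
    obtain ⟨D, hD⟩ := R_sub_one (Λ := Λ) m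
    refine ⟨sec 0 (A * R Λ m), sec 0 B + sec 0 (A * D), ?_, ?_⟩
    · rw [Function.iterate_succ_apply', h1]
      unfold S
      rw [mul_assoc, sec_two_pow_mul]
    · rw [Function.iterate_succ_apply']
      have e1 : S m 0 ((S m 0)^[t] H) = sec 0 ((S m 0)^[t] H) + 2 ^ (j + 1) * sec 0 (A * D) := by
        rw [← sec_two_pow_mul, ← sec_add]
        have e3 : ∀ Z : Λ⟦X⟧, S m 0 Z = sec 0 (Z * R Λ m) := fun Z => rfl
        rw [e3]
        congr 1
        rw [hD, mul_add, mul_one]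
        congr 1
        rw [h1]
        ring
      rw [e1, h2, sec_add, sec_two_pow_mul]
      have e2 : sec 0 (PowerSeries.mk (fun n => coeff (2 ^ t * n) H)) =
          PowerSeries.mk (fun n => coeff (2 ^ (t + 1) * n) H) := by
        ext n
        rw [coeff_sec, coeff_mk, coeff_mk]
        congr 2
        ring
      rw [e2]
      ring

/-- the synchronization lemma -/
lemma sync {K : ℕ} (hK : (2 : Λ) ^ K = 0) (m : ℕ) {H : Λ⟦X⟧} (hH : Per H) (h0 : coeff 0 H = 0) :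
    ∃ T, (S m 0)^[T] H = 0 := by
  have key : ∀ j, j ≤ K → ∀ H : Λ⟦X⟧, Per H → coeff 0 H = 0 → (∃ G, H = 2 ^ (K - j) * G) →
      ∃ T, (S m 0)^[T] H = 0 := by
    intro j
    induction j with
    | zero =>
      intro _ H _ _ hG
      obtain ⟨G, hG⟩ := hG
      refine ⟨0, ?_⟩
      have h : (2 : Λ⟦X⟧) ^ K = 0 := by
        have : (C (2 ^ K) : Λ⟦X⟧) = 2 ^ K := by rw [map_pow]; rfl
        rw [← this, hK, map_zero]
      rw [Function.iterate_zero_apply, hG, Nat.sub_zero, h, zero_mul]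
    | succ j ih =>
      intro hj H hH h0 hG
      obtain ⟨G, hG⟩ := hG
      obtain ⟨P, hP⟩ := id hH
      obtain ⟨A, B, h1, h2⟩ := S_iter_mod m (K - (j + 1)) H G hG P
      have h3 : PowerSeries.mk (fun n => coeff (2 ^ P * n) H) = (0 : Λ⟦X⟧) := by
        ext n
        rw [coeff_mk, map_zero]
        have := per_mul hP n 0
        rw [zero_add, h0] at this
        exact this
      rw [h3, zero_add, show K - (j + 1) + 1 = K - j by omega] at h2
      obtain ⟨T, hT⟩ := ih (by omega) _ (hH.S_iter hK m P) (by rw [S_iter_const, h0]) ⟨B, h2⟩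
      refine ⟨T + P, ?_⟩
      rw [Function.iterate_add_apply]
      exact hT
  exact key K le_rfl H hH h0 ⟨H, by simp⟩

lemma S_iter_zero (m t : ℕ) : (S m 0)^[t] (0 : Λ⟦X⟧) = 0 := by
  induction t with
  | zero => rfl
  | succ t ih =>
    rw [Function.iterate_succ_apply', ih]
    ext n
    unfold S
    rw [coeff_sec, zero_mul, map_zero, map_zero]

lemma S_iter_sub (m t : ℕ) (G H : Λ⟦X⟧) :
    (S m 0)^[t] (G - H) = (S m 0)^[t] G - (S m 0)^[t] H := by
  induction t with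
  | zero => rfl
  | succ t ih => rw [Function.iterate_succ_apply', ih, S_sub, Function.iterate_succ_apply',
      Function.iterate_succ_apply']

lemma S_iter_C_mul (m t : ℕ) (a : Λ) (H : Λ⟦X⟧) :
    (S m 0)^[t] (C a * H) = C a * (S m 0)^[t] H := by
  induction t with
  | zero => rfl
  | succ t ih => rw [Function.iterate_succ_apply', ih, S_C_mul, Function.iterate_succ_apply']

lemma fixed_zero {K : ℕ} (hK : (2 : Λ) ^ K = 0) (m : ℕ) {H : Λ⟦X⟧} (hH : Per H)
    (h0 : coeff 0 H = 0) (hS : S m 0 H = H) : H = 0 := by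
  obtain ⟨T, hT⟩ := sync hK m hH h0
  have h : ∀ t, (S m 0)^[t] H = H := by
    intro t
    induction t with
    | zero => rfl
    | succ t ih => rw [Function.iterate_succ_apply', ih, hS]
  rw [h] at hT
  exact hT

/-- the fixed point -/
lemma exists_eps {K : ℕ} (hK : (2 : Λ) ^ K = 0) (m : ℕ) : ∃ e : Λ⟦X⟧, Per e ∧ coeff 0 e = 1 ∧
    S m 0 e = e ∧ ∀ H, Per H → ∃ T, (S m 0)^[T] H = C (coeff 0 H) * e := by
  have hw0 : coeff 0 (w Λ) = 1 := by unfold w; simp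
  obtain ⟨T, hT⟩ := sync hK m (H := S m 0 (w Λ) - w Λ) ((per_w.S hK m 0).sub per_w)
    (by rw [map_sub, S_zero_const, hw0, sub_self])
  have hfix : S m 0 ((S m 0)^[T] (w Λ)) = (S m 0)^[T] (w Λ) := by
    rw [S_iter_sub, sub_eq_zero, ← Function.iterate_succ_apply, Function.iterate_succ_apply'] at hT
    exact hT
  have hfix' : ∀ t, (S m 0)^[t] ((S m 0)^[T] (w Λ)) = (S m 0)^[T] (w Λ) := by
    intro t
    induction t with
    | zero => rfl
    | succ t ih => rw [Function.iterate_succ_apply', ih, hfix]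
  refine ⟨(S m 0)^[T] (w Λ), per_w.S_iter hK m T, by rw [S_iter_const, hw0], hfix, ?_⟩
  intro H hH
  set e := (S m 0)^[T] (w Λ) with he
  have he1 : coeff 0 e = 1 := by rw [he, S_iter_const, hw0]
  obtain ⟨T2, hT2⟩ := sync hK m (H := H - C (coeff 0 H) * e)
    (hH.sub ((per_w.S_iter hK m T).C_mul _)) (by rw [map_sub, coeff_C_mul, he1]; ring)
  refine ⟨T2, ?_⟩
  rw [S_iter_sub, sub_eq_zero, S_iter_C_mul, hfix'] at hT2
  exact hT2

lemma coeff_iter (m t N : ℕ) (H : Λ⟦X⟧) :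
    coeff (2 ^ t * N) (H * FΛ Λ m) = coeff N ((S m 0)^[t] H * FΛ Λ m) := by
  induction t generalizing H with
  | zero => simp
  | succ t ih =>
    rw [pow_succ', mul_assoc, coeff_S_even, ih, Function.iterate_succ_apply]

/-- the multiplication by `U` -/
lemma exists_next {K : ℕ} (m : ℕ) {e : Λ⟦X⟧} (hK : (2 : Λ) ^ K = 0)
    (he : ∀ H, Per H → ∃ T, (S m 0)^[T] H = C (coeff 0 H) * e) (n : ℕ) (hn : 1 ≤ n) :
    ∃ n', 1 ≤ n' ∧ (c m n' : Λ) = coeff 1 (e * FΛ Λ m) * (c m n : Λ) := by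
  obtain ⟨l, G, hG, h⟩ := exists_state hK m n (1 : Λ⟦X⟧) qper_one (Or.inr hn)
  obtain ⟨T, hT⟩ := he G hG
  refine ⟨2 ^ l * 2 ^ T + n, by omega, ?_⟩
  have h1 := h (2 ^ T)
  have h0 := h 0
  rw [mul_zero, zero_add, one_mul, coeff_zero_mul, coeff_FΛ] at h0
  rw [one_mul, coeff_FΛ, ← mul_one (2 ^ T), coeff_iter, hT, mul_assoc, coeff_C_mul, ← h0] at h1
  rw [mul_one] at h1
  rw [h1, mul_comm]

end Pool.Agent.R504.MahlerSync
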