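import Mathlib
import Pool.Agent.R504.Mahler
import Pool.Agent.R504.MahlerSync

set_option autoImplicit false

/-!
# The fixed series modulo `2^14` for `m = 1023`
-/

namespace Pool.Agent.R504.MahlerEps

open PowerSeries Pool.Agent.R504

/-! ### the value of `U` modulo `2^14` -/

section
variable {A : Type*} [CommRing A]

lemma pow512 (h : (16384 : A) = 0) (t : A) :
    (1 + 4 * t) ^ 512 = 1 + 2048 * t + (-4096) * t ^ 2 := by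
  have h1 : (1 + 4 * t) ^ 2 = 1 + 8 * t + 16 * t ^ 2 := by
    have e0 : (1 + 4 * t) ^ 2 = (1 + 4 * t) * (1 + 4 * t) := sq _
    rw [e0]
    linear_combination (0) * h
  have h2 : (1 + 4 * t) ^ 4 = 1 + 16 * t + 96 * t ^ 2 + 256 * t ^ 3 + 256 * t ^ 4 := by
    have e0 : (1 + 4 * t) ^ 4 = ((1 + 4 * t) ^ 2) ^ 2 := by rw [← pow_mul]
    rw [e0, h1]
    linear_combination (0) * h
  have h3 : (1 + 4 * t) ^ 8 = 1 + 32 * t + 448 * t ^ 2 + 3584 * t ^ 3 + 1536 * t ^ 4 + 8192 * t ^ 5 := by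
    have e0 : (1 + 4 * t) ^ 8 = ((1 + 4 * t) ^ 4) ^ 2 := by rw [← pow_mul]
    rw [e0, h2]
    linear_combination (1 * t ^ 4 + 3 * t ^ 5 + 7 * t ^ 6 + 8 * t ^ 7 + 4 * t ^ 8) * h
  have h4 : (1 + 4 * t) ^ 16 = 1 + 64 * t + 1920 * t ^ 2 + 3072 * t ^ 3 + 7168 * t ^ 4 := by
    have e0 : (1 + 4 * t) ^ 16 = ((1 + 4 * t) ^ 8) ^ 2 := by rw [← pow_mul]
    rw [e0, h3]
    linear_combination (2 * t ^ 3 + 26 * t ^ 4 + 203 * t ^ 5 + 900 * t ^ 6 + 1120 * t ^ 7 + 3728 * t ^ 8 + 1536 * t ^ 9 + 4096 * t ^ 10) * h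
  have h5 : (1 + 4 * t) ^ 32 = 1 + 128 * t + 7936 * t ^ 2 + 6144 * t ^ 3 + (-2048) * t ^ 4 := by
    have e0 : (1 + 4 * t) ^ 32 = ((1 + 4 * t) ^ 16) ^ 2 := by rw [← pow_mul]
    rw [e0, h4]
    linear_combination (15 * t ^ 3 + 250 * t ^ 4 + 776 * t ^ 5 + 2256 * t ^ 6 + 2688 * t ^ 7 + 3136 * t ^ 8) * h
  have h6 : (1 + 4 * t) ^ 64 = 1 + 256 * t + (-512) * t ^ 2 + (-4096) * t ^ 3 + (-4096) * t ^ 4 := by
    have e0 : (1 + 4 * t) ^ 64 = ((1 + 4 * t) ^ 32) ^ 2 := by rw [← pow_mul]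
    rw [e0, h5]
    linear_combination (2 * t ^ 2 + 125 * t ^ 3 + 3940 * t ^ 4 + 5920 * t ^ 5 + 320 * t ^ 6 + (-1536) * t ^ 7 + 256 * t ^ 8) * h
  have h7 : (1 + 4 * t) ^ 128 = 1 + 512 * t + (-1024) * t ^ 2 + 8192 * t ^ 3 + 8192 * t ^ 4 := by
    have e0 : (1 + 4 * t) ^ 128 = ((1 + 4 * t) ^ 64) ^ 2 := by rw [← pow_mul]
    rw [e0, h6]
    linear_combination (4 * t ^ 2 + (-17) * t ^ 3 + (-113) * t ^ 4 + 128 * t ^ 5 + 1280 * t ^ 6 + 2048 * t ^ 7 + 1024 * t ^ 8) * h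
  have h8 : (1 + 4 * t) ^ 256 = 1 + 1024 * t + (-2048) * t ^ 2 := by
    have e0 : (1 + 4 * t) ^ 256 = ((1 + 4 * t) ^ 128) ^ 2 := by rw [← pow_mul]
    rw [e0, h7]
    linear_combination (16 * t ^ 2 + (-63) * t ^ 3 + 577 * t ^ 4 + (-512) * t ^ 5 + 3072 * t ^ 6 + 8192 * t ^ 7 + 4096 * t ^ 8) * h
  have h9 : (1 + 4 * t) ^ 512 = 1 + 2048 * t + (-4096) * t ^ 2 := by
    have e0 : (1 + 4 * t) ^ 512 = ((1 + 4 * t) ^ 256) ^ 2 := by rw [← pow_mul]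
    rw [e0, h8]
    linear_combination (64 * t ^ 2 + (-256) * t ^ 3 + 256 * t ^ 4) * h

  exact h9

end

section
variable {Λ : Type*} [CommRing Λ]

open MahlerSync

/-- `ε` modulo `2^14` -/
noncomputable def e' (Λ : Type*) [CommRing Λ] : Λ⟦X⟧ :=
  w Λ * (1 - 2048 * (2 * (X * w Λ) ^ 2 + 3 * (X * w Λ)))

/-- the odd section of `ε R` -/
noncomputable def d' (Λ : Type*) [CommRing Λ] : Λ⟦X⟧ :=
  w Λ * (-4097 + 2048 * (X * w Λ) + 4096 * (X * w Λ) ^ 2)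

lemma pow1024 (h : (16384 : Λ⟦X⟧) = 0) :
    (1 + X : Λ⟦X⟧) ^ 1024 = (1 - X) ^ 1024 * (1 + 2048 * (X * w Λ ^ 2) +
      (-4096) * (X * w Λ ^ 2) ^ 2) := by
  have h1 : (1 + X : Λ⟦X⟧) = (1 - X) * (1 + 2 * (X * w Λ)) := by
    linear_combination (-2 * X) * (w_mul (Λ := Λ))
  have h2 : (1 + 2 * (X * w Λ)) ^ 2 = (1 + 4 * (X * w Λ ^ 2) : Λ⟦X⟧) := by
    linear_combination (-4 * X * w Λ) * (w_mul (Λ := Λ))
  rw [h1, mul_pow, show 1024 = 2 * 512 by norm_num, pow_mul (1 + 2 * (X * w Λ)), h2, pow512 h]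

lemma step_e' (h : (16384 : Λ⟦X⟧) = 0) : Mahler.IsStep 1023 (e' Λ) (e' Λ) (d' Λ) := by
  unfold Mahler.IsStep
  set W : Λ⟦X⟧ := expand 2 two_ne_zero (w Λ) with hW
  have hWm : W * (1 - X ^ 2) = 1 := by
    have := congrArg (expand 2 two_ne_zero) (w_mul (Λ := Λ))
    rwa [map_mul, map_sub, map_one, expand_X] at this
  have hE : expand 2 two_ne_zero (e' Λ) =
      W * (1 - 2048 * (2 * (X ^ 2 * W) ^ 2 + 3 * (X ^ 2 * W))) := by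
    unfold e'
    simp only [map_mul, map_sub, map_add, map_one, map_pow, expand_X, map_ofNat, ← hW]
  have hD : expand 2 two_ne_zero (d' Λ) =
      W * (-4097 + 2048 * (X ^ 2 * W) + 4096 * (X ^ 2 * W) ^ 2) := by
    unfold d'
    simp only [map_mul, map_add, map_pow, expand_X, map_neg, map_ofNat, ← hW]
  rw [hE, hD]
  have hu1 : IsUnit (1 - X : Λ⟦X⟧) := Mahler.isUnit_one_sub_X
  have hu2 : IsUnit (1 + X : Λ⟦X⟧) := by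
    apply IsUnit.of_mul_eq_one (W * (1 - X))
    linear_combination hWm
  have hw := w_mul (Λ := Λ)
  set v : Λ⟦X⟧ := w Λ with hv
  have hv2 : v ^ 2 * (1 - X) ^ 2 = 1 := by rw [← mul_pow, hw, one_pow]
  have hv3 : v ^ 3 * (1 - X) ^ 3 = 1 := by rw [← mul_pow, hw, one_pow]
  have hv4 : v ^ 4 * (1 - X) ^ 4 = 1 := by rw [← mul_pow, hw, one_pow]
  have hW2 : W ^ 2 * (1 - X ^ 2) ^ 2 = 1 := by rw [← mul_pow, hWm, one_pow]
  have hW3 : W ^ 3 * (1 - X ^ 2) ^ 3 = 1 := by rw [← mul_pow, hWm, one_pow]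
  -- first reduction
  have key : 1 + 2048 * (X * v ^ 2 - 2 * X ^ 2 * v ^ 4 - 2 * (X * v) ^ 2 - 3 * (X * v)) =
      (1 + X) * (W * (1 - 2048 * (2 * (X ^ 2 * W) ^ 2 + 3 * (X ^ 2 * W))) +
        X * (W * (-4097 + 2048 * (X ^ 2 * W) + 4096 * (X ^ 2 * W) ^ 2))) := by
    apply ((hu1.pow 4).mul (hu2.pow 2)).mul_left_cancel
    have hL : (1 - X) ^ 4 * (1 + X) ^ 2 *
        (1 + 2048 * (X * v ^ 2 - 2 * X ^ 2 * v ^ 4 - 2 * (X * v) ^ 2 - 3 * (X * v))) =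
        (1 - X) ^ 4 * (1 + X) ^ 2 + 2048 * (1 + X) ^ 2 * (X * (1 - X) ^ 2 - 2 * X ^ 2
          - 2 * X ^ 2 * (1 - X) ^ 2 - 3 * X * (1 - X) ^ 3) := by
      linear_combination (2048 * (1 + X) ^ 2 * (1 - X) ^ 2 * X) * hv2
        - (2048 * (1 + X) ^ 2 * (2 * X ^ 2)) * hv4
        - (2048 * (1 + X) ^ 2 * (1 - X) ^ 2 * (2 * X ^ 2)) * hv2
        - (2048 * (1 + X) ^ 2 * (1 - X) ^ 3 * (3 * X)) * hw
    have hR : (1 - X) ^ 4 * (1 + X) ^ 2 *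
        ((1 + X) * (W * (1 - 2048 * (2 * (X ^ 2 * W) ^ 2 + 3 * (X ^ 2 * W))) +
        X * (W * (-4097 + 2048 * (X ^ 2 * W) + 4096 * (X ^ 2 * W) ^ 2)))) =
        (1 - X) * ((1 - X ^ 2) ^ 2 - 2048 * (2 * X ^ 4 + 3 * X ^ 2 * (1 - X ^ 2)) +
          X * (-4097 * (1 - X ^ 2) ^ 2 + 2048 * X ^ 2 * (1 - X ^ 2) + 4096 * X ^ 4)) := by
      linear_combination ((1 - X) * (1 - X ^ 2) ^ 2 * (1 - 4097 * X)) * hWm +
        ((1 - X) * (1 - X ^ 2) * (- 2048 * 3 * X ^ 2 + 2048 * X ^ 3)) * hW2 +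
        ((1 - X) * (- 2048 * 2 * X ^ 4 + 4096 * X ^ 5)) * hW3
    rw [hL, hR]
    linear_combination (- X ^ 3) * h
  have hQ : (1 - X) * (1 + 2048 * (X * v ^ 2) + (-4096) * (X * v ^ 2) ^ 2) * e' Λ =
      1 + 2048 * (X * v ^ 2 - 2 * X ^ 2 * v ^ 4 - 2 * (X * v) ^ 2 - 3 * (X * v)) := by
    have he : e' Λ = v * (1 - 2048 * (2 * (X * v) ^ 2 + 3 * (X * v))) := rfl
    rw [he]
    linear_combination ((1 + 2048 * (X * v ^ 2) + (-4096) * (X * v ^ 2) ^ 2) *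
      (1 - 2048 * (2 * (X * v) ^ 2 + 3 * (X * v)))) * hw +
      (-256 * (X * v ^ 2 - 2 * (X * v ^ 2) ^ 2) * (2 * (X * v) ^ 2 + 3 * (X * v))) * h
  have h1 : (1 + X) * ((1 + X) ^ 1023 * e' Λ) = (1 + X : Λ⟦X⟧) ^ 1024 * e' Λ := by
    rw [← mul_assoc, ← pow_succ']
  have h2 : (1 - X : Λ⟦X⟧) ^ 1024 = (1 - X) ^ 1023 * (1 - X) := pow_succ _ _
  have h3 := pow1024 h
  rw [← hv, h2] at h3
  rw [h3] at h1
  apply hu2.mul_left_cancel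
  rw [h1]
  clear h1 h2 h3
  generalize (1 - X : Λ⟦X⟧) ^ 1023 = P
  linear_combination P * hQ + P * key

end

end Pool.Agent.R504.MahlerEps
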