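import Mathlib

set_option autoImplicit false

/-!
# Sums of `log (1 + T² / p²)` over primes
-/

namespace Pool.Agent.R504.Multinom

open Finset

/-- `log (1 + T² / x²)` -/
noncomputable def F (T x : ℝ) : ℝ := Real.log (1 + T ^ 2 / x ^ 2)

lemma F_nonneg (T x : ℝ) : 0 ≤ F T x := by
  unfold F
  apply Real.log_nonneg
  have : 0 ≤ T ^ 2 / x ^ 2 := by positivity
  linarith

lemma F_anti (T x y : ℝ) (hx : 0 < x) (hxy : x ≤ y) : F T y ≤ F T x := by
  unfold F
  apply Real.log_le_log
  · positivity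
  · gcongr

lemma F_le_sq (T x : ℝ) : F T x ≤ T ^ 2 / x ^ 2 := by
  unfold F
  have h : 0 < 1 + T ^ 2 / x ^ 2 := by positivity
  have := Real.log_le_sub_one_of_pos h
  linarith

/-- `log (1 + y²) ≤ 4 √y` with `y = T / x` -/
lemma F_le_sqrt (T x : ℝ) (hT : 0 < T) (hx : 0 < x) : F T x ≤ 4 * (Real.sqrt T / Real.sqrt x) := by
  set z := Real.sqrt T / Real.sqrt x with hz
  have hz0 : 0 ≤ z := by positivity
  have hz4 : z ^ 4 = T ^ 2 / x ^ 2 := by
    rw [hz, div_pow, show (4 : ℕ) = 2 * 2 by norm_num, pow_mul, pow_mul, Real.sq_sqrt hT.le,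
      Real.sq_sqrt hx.le]
  unfold F
  rw [← hz4]
  calc Real.log (1 + z ^ 4) ≤ Real.log ((1 + z) ^ 4) := by
        apply Real.log_le_log (by positivity)
        nlinarith [sq_nonneg z, mul_nonneg hz0 (sq_nonneg z), hz0]
    _ = 4 * Real.log (1 + z) := by rw [Real.log_pow]; norm_num
    _ ≤ 4 * z := by
        have := Real.log_le_sub_one_of_pos (show 0 < 1 + z by positivity)
        linarith

lemma sumF_A (T : ℝ) (hT : 0 < T) (X : ℕ) :
    ∑ m ∈ Icc 1 X, F T m ≤ 8 * Real.sqrt T * Real.sqrt X := by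
  induction X with
  | zero => simp
  | succ X ih =>
    rw [Finset.sum_Icc_succ_top (by omega)]
    have h1 := F_le_sqrt T (X + 1 : ℕ) hT (by positivity)
    set a := Real.sqrt T
    have ha : 0 ≤ a := Real.sqrt_nonneg _
    set b := Real.sqrt (X : ℝ)
    set c := Real.sqrt ((X + 1 : ℕ) : ℝ)
    have hb : 0 ≤ b := Real.sqrt_nonneg _
    have hc : 0 < c := Real.sqrt_pos.2 (by positivity)
    have hb2 : b ^ 2 = X := Real.sq_sqrt (by positivity)
    have hc2 : c ^ 2 = X + 1 := by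
      have := Real.sq_sqrt (show (0 : ℝ) ≤ ((X + 1 : ℕ) : ℝ) by positivity)
      rw [this]; push_cast; ring
    have hbc : b ≤ c := Real.sqrt_le_sqrt (by push_cast; linarith)
    have h2 : 1 / c ≤ 2 * (c - b) := by
      rw [div_le_iff₀ hc]
      nlinarith
    have h3 : 4 * (a / c) ≤ 8 * a * (c - b) := by
      have : 4 * (a / c) = 4 * a * (1 / c) := by ring
      rw [this]
      nlinarith [mul_le_mul_of_nonneg_left h2 ha]
    linarith

lemma sumF_B (T : ℝ) (hT : 0 < T) (K : ℕ) (hK : 0 < K) (X : ℕ) (hX : K ≤ X) :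
    ∑ m ∈ Icc 1 X, F T m ≤ 8 * Real.sqrt T * Real.sqrt K + T ^ 2 * (1 / K - 1 / X) := by
  induction X, hX using Nat.le_induction with
  | base => simpa using sumF_A T hT K
  | succ X hX ih =>
    rw [Finset.sum_Icc_succ_top (by omega)]
    have h1 := F_le_sq T (X + 1 : ℕ)
    have hXpos : (0 : ℝ) < X := by exact_mod_cast (by omega : 0 < X)
    have h2 : T ^ 2 / ((X + 1 : ℕ) : ℝ) ^ 2 ≤ T ^ 2 * (1 / X - 1 / ((X + 1 : ℕ) : ℝ)) := by
      rw [div_eq_mul_one_div]
      apply mul_le_mul_of_nonneg_left _ (by positivity)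
      push_cast
      rw [div_sub_div _ _ hXpos.ne' (by positivity), div_le_div_iff₀ (by positivity) (by positivity)]
      nlinarith
    linarith

lemma sumF (T : ℝ) (hT : 1 ≤ T) (X : ℕ) : ∑ m ∈ Icc 1 X, F T m ≤ 13 * T := by
  set K := ⌈T⌉₊ with hK
  have hK1 : T ≤ K := Nat.le_ceil T
  have hK2 : (K : ℝ) ≤ 2 * T := by
    have := Nat.ceil_lt_add_one (show 0 ≤ T by linarith)
    linarith
  have hKpos : 0 < K := Nat.ceil_pos.2 (by linarith)
  have hs : Real.sqrt T * Real.sqrt (2 * T) ≤ (3 / 2) * T := by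
    rw [← Real.sqrt_mul (by linarith)]
    rw [show T * (2 * T) = 2 * T ^ 2 by ring]
    apply Real.sqrt_le_iff.2
    constructor
    · linarith
    · nlinarith
  have hsK : Real.sqrt K ≤ Real.sqrt (2 * T) := Real.sqrt_le_sqrt hK2
  have h8 : 8 * Real.sqrt T * Real.sqrt K ≤ 12 * T := by
    have : Real.sqrt T * Real.sqrt K ≤ Real.sqrt T * Real.sqrt (2 * T) :=
      mul_le_mul_of_nonneg_left hsK (Real.sqrt_nonneg _)
    linarith
  rcases le_total K X with h | h
  · have h1 := sumF_B T (by linarith) K hKpos X h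
    have h2 : T ^ 2 * (1 / K - 1 / X) ≤ T := by
      have h3 : (1 : ℝ) / K ≤ 1 / T := one_div_le_one_div_of_le (by linarith) hK1
      have h4 : (0 : ℝ) ≤ 1 / X := by positivity
      have h5 : T ^ 2 * (1 / K - 1 / X) ≤ T ^ 2 * (1 / T) :=
        mul_le_mul_of_nonneg_left (by linarith) (by positivity)
      have h6 : T ^ 2 * (1 / T) = T := by field_simp
      linarith
    linarith
  · have h1 := sumF_A T (by linarith) X
    have h2 : Real.sqrt X ≤ Real.sqrt K := Real.sqrt_le_sqrt (by exact_mod_cast h)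
    have h3 : 8 * Real.sqrt T * Real.sqrt X ≤ 8 * Real.sqrt T * Real.sqrt K :=
      mul_le_mul_of_nonneg_left h2 (by positivity)
    linarith

/-- Abel summation with Chebyshev's bound -/
lemma abel (T : ℝ) (X : ℕ) :
    ∑ m ∈ Icc 1 X, F T m * (if m.Prime then Real.log m else 0) ≤
      Real.log 4 * ∑ m ∈ Icc 1 X, F T m := by
  set b : ℕ → ℝ := fun m => Real.log 4 - (if m.Prime then Real.log m else 0) with hb
  have hB : ∀ x : ℕ, 0 ≤ ∑ m ∈ Icc 1 x, b m := by
    intro x
    have h1 := Chebyshev.theta_le_log4_mul_x (x := (x : ℝ)) (by positivity)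
    have h2 : Chebyshev.theta (x : ℝ) = ∑ m ∈ Icc 1 x, (if m.Prime then Real.log m else 0) := by
      unfold Chebyshev.theta
      rw [Nat.floor_natCast, Finset.sum_filter]
      rfl
    rw [h2] at h1
    simp only [hb]
    rw [Finset.sum_sub_distrib, Finset.sum_const, Nat.card_Icc, nsmul_eq_mul, Nat.add_sub_cancel]
    linarith
  have h1 : ∀ x : ℕ, F T x * ∑ m ∈ Icc 1 x, b m ≤ ∑ m ∈ Icc 1 x, F T m * b m := by
    intro x
    induction x with
    | zero => simp
    | succ x ih =>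
      rw [Finset.sum_Icc_succ_top (by omega), Finset.sum_Icc_succ_top (by omega), mul_add]
      rcases Nat.eq_zero_or_pos x with h | h
      · subst h; simp
      · have h2 : F T ((x + 1 : ℕ) : ℝ) ≤ F T x :=
          F_anti T x _ (by exact_mod_cast h) (by push_cast; linarith)
        have h3 := mul_le_mul_of_nonneg_right h2 (hB x)
        linarith
  have h2 : 0 ≤ ∑ m ∈ Icc 1 X, F T m * b m :=
    le_trans (mul_nonneg (F_nonneg _ _) (hB X)) (h1 X)
  simp only [hb, mul_sub] at h2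
  rw [Finset.sum_sub_distrib, ← Finset.sum_mul] at h2
  linarith

lemma prime_sum (T : ℝ) (hT : 1 < T) (X : ℕ) :
    ∑ p ∈ (Icc 1 X).filter Nat.Prime, F T p ≤ 70 * (T / Real.log T) := by
  have hlog : 0 < Real.log T := Real.log_pos hT
  have hT0 : 0 < T := by linarith
  -- small primes
  set z := Real.sqrt (Real.sqrt T) with hz
  have hz2 : z ^ 2 = Real.sqrt T := Real.sq_sqrt (Real.sqrt_nonneg _)
  have hz4 : z ^ 4 = T := by
    rw [show (4 : ℕ) = 2 * 2 by norm_num, pow_mul, hz2, Real.sq_sqrt hT0.le]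
  have hz1 : 1 < z := by
    rw [hz]
    apply Real.lt_sqrt_of_sq_lt
    rw [one_pow]
    apply Real.lt_sqrt_of_sq_lt
    simpa using hT
  have hzlog : Real.log T = 4 * Real.log z := by
    rw [← hz4, Real.log_pow]; norm_num
  have hlz : Real.log z ≤ z := (Real.log_le_sub_one_of_pos (by linarith)).trans (by linarith)
  have hF1 : F T 1 ≤ 8 * z := by
    unfold F
    rw [← hz4]
    calc Real.log (1 + (z ^ 4) ^ 2 / 1 ^ 2) ≤ Real.log ((1 + z) ^ 8) := by
          apply Real.log_le_log (by positivity)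
          have h0 : 0 ≤ z := by linarith
          have : (1 + z) ^ 8 = 1 + (z ^ 4) ^ 2 / 1 ^ 2 + (8 * z + 28 * z ^ 2 + 56 * z ^ 3 + 70 * z ^ 4 +
            56 * z ^ 5 + 28 * z ^ 6 + 8 * z ^ 7) := by ring
          rw [this]
          have : 0 ≤ 8 * z + 28 * z ^ 2 + 56 * z ^ 3 + 70 * z ^ 4 +
            56 * z ^ 5 + 28 * z ^ 6 + 8 * z ^ 7 := by positivity
          linarith
      _ = 8 * Real.log (1 + z) := by rw [Real.log_pow]; norm_num
      _ ≤ 8 * z := by
          have := Real.log_le_sub_one_of_pos (show 0 < 1 + z by linarith)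
          linarith
  have hsplit : ∑ p ∈ (Icc 1 X).filter Nat.Prime, F T p =
      ∑ p ∈ ((Icc 1 X).filter Nat.Prime).filter (fun p : ℕ => (p : ℝ) ^ 2 ≤ T), F T p +
      ∑ p ∈ ((Icc 1 X).filter Nat.Prime).filter (fun p : ℕ => ¬ (p : ℝ) ^ 2 ≤ T), F T p :=
    (Finset.sum_filter_add_sum_filter_not _ _ _).symm
  have hsmall : ∑ p ∈ ((Icc 1 X).filter Nat.Prime).filter (fun p : ℕ => (p : ℝ) ^ 2 ≤ T), F T p ≤
      32 * (T / Real.log T) := by
    have h1 : ∀ p ∈ ((Icc 1 X).filter Nat.Prime).filter (fun p : ℕ => (p : ℝ) ^ 2 ≤ T),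
        F T p ≤ 8 * z := by
      intro p hp
      have hp1 := (Finset.mem_filter.1 (Finset.mem_filter.1 hp).1).2.one_lt
      exact (F_anti T 1 p one_pos (by exact_mod_cast hp1.le)).trans hF1
    have h2 : ((((Icc 1 X).filter Nat.Prime).filter (fun p : ℕ => (p : ℝ) ^ 2 ≤ T)).card : ℝ) ≤
        z ^ 2 := by
      have h3 : (((Icc 1 X).filter Nat.Prime).filter (fun p : ℕ => (p : ℝ) ^ 2 ≤ T)) ⊆
          Icc 1 ⌊z ^ 2⌋₊ := by
        intro p hp
        have hp1 := (Finset.mem_filter.1 (Finset.mem_filter.1 hp).1).2.one_lt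
        have hp2 := (Finset.mem_filter.1 hp).2
        rw [Finset.mem_Icc]
        refine ⟨hp1.le, Nat.le_floor ?_⟩
        rw [hz2]
        exact Real.le_sqrt_of_sq_le hp2
      have h4 := Finset.card_le_card h3
      rw [Nat.card_Icc, Nat.add_sub_cancel] at h4
      calc ((((Icc 1 X).filter Nat.Prime).filter (fun p : ℕ => (p : ℝ) ^ 2 ≤ T)).card : ℝ)
          ≤ (⌊z ^ 2⌋₊ : ℝ) := by exact_mod_cast h4
        _ ≤ z ^ 2 := Nat.floor_le (by positivity)
    have h5 := Finset.sum_le_card_nsmul _ _ _ h1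
    rw [nsmul_eq_mul] at h5
    refine h5.trans ?_
    have h6 : z ^ 2 * (8 * z) ≤ 32 * (T / Real.log T) := by
      rw [hzlog, ← hz4, mul_div_assoc', le_div_iff₀ (by linarith)]
      have h7 : 0 < z := by linarith
      have h8 : z ^ 3 * Real.log z ≤ z ^ 3 * z := mul_le_mul_of_nonneg_left hlz (by positivity)
      nlinarith
    have h9 : ((((Icc 1 X).filter Nat.Prime).filter (fun p : ℕ => (p : ℝ) ^ 2 ≤ T)).card : ℝ) *
        (8 * z) ≤ z ^ 2 * (8 * z) := mul_le_mul_of_nonneg_right h2 (by linarith)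
    linarith
  have hlarge : ∑ p ∈ ((Icc 1 X).filter Nat.Prime).filter (fun p : ℕ => ¬ (p : ℝ) ^ 2 ≤ T), F T p ≤
      38 * (T / Real.log T) := by
    have h1 : ∀ p ∈ ((Icc 1 X).filter Nat.Prime).filter (fun p : ℕ => ¬ (p : ℝ) ^ 2 ≤ T),
        F T p ≤ 2 / Real.log T * (F T p * Real.log p) := by
      intro p hp
      have hp2 := (Finset.mem_filter.1 hp).2
      push Not at hp2
      have hp1 := (Finset.mem_filter.1 (Finset.mem_filter.1 hp).1).2.pos
      have h3 : Real.log T ≤ 2 * Real.log p := by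
        have := Real.log_le_log hT0 hp2.le
        rwa [Real.log_pow, Nat.cast_ofNat] at this
      have h4 : 1 ≤ 2 / Real.log T * Real.log p := by
        rw [div_mul_eq_mul_div, one_le_div hlog]
        exact h3
      have h5 := mul_le_mul_of_nonneg_left h4 (F_nonneg T p)
      linarith
    have h2 : ∑ p ∈ ((Icc 1 X).filter Nat.Prime).filter (fun p : ℕ => ¬ (p : ℝ) ^ 2 ≤ T),
        F T p * Real.log p ≤ ∑ m ∈ Icc 1 X, F T m * (if m.Prime then Real.log m else 0) := by
      have h3 : ∑ m ∈ Icc 1 X, F T m * (if m.Prime then Real.log m else 0) =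
          ∑ m ∈ (Icc 1 X).filter Nat.Prime, F T m * Real.log m := by
        rw [Finset.sum_filter]
        apply Finset.sum_congr rfl
        intro m _
        split_ifs <;> simp
      rw [h3]
      apply Finset.sum_le_sum_of_subset_of_nonneg (Finset.filter_subset _ _)
      intro m hm _
      have := (Finset.mem_filter.1 hm).2.one_lt
      exact mul_nonneg (F_nonneg _ _) (Real.log_nonneg (by exact_mod_cast this.le))
    have h3 := abel T X
    have h4 := sumF T hT.le X
    have h5 : Real.log 4 ≤ 1.39 := by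
      have : Real.log 4 = 2 * Real.log 2 := by
        rw [show (4 : ℝ) = 2 ^ 2 by norm_num, Real.log_pow]; norm_num
      rw [this]
      have := Real.log_two_lt_d9
      linarith
    have h50 : 0 < Real.log 4 := Real.log_pos (by norm_num)
    have h6 : ∑ p ∈ ((Icc 1 X).filter Nat.Prime).filter (fun p : ℕ => ¬ (p : ℝ) ^ 2 ≤ T),
        F T p * Real.log p ≤ 19 * T := by
      have : Real.log 4 * ∑ m ∈ Icc 1 X, F T m ≤ 1.39 * (13 * T) := by
        apply mul_le_mul h5 h4 _ (by norm_num)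
        exact Finset.sum_nonneg fun _ _ => F_nonneg _ _
      linarith
    calc _ ≤ ∑ p ∈ ((Icc 1 X).filter Nat.Prime).filter (fun p : ℕ => ¬ (p : ℝ) ^ 2 ≤ T),
        2 / Real.log T * (F T p * Real.log p) := Finset.sum_le_sum h1
      _ = 2 / Real.log T * ∑ p ∈ ((Icc 1 X).filter Nat.Prime).filter
          (fun p : ℕ => ¬ (p : ℝ) ^ 2 ≤ T), (F T p * Real.log p) := by rw [Finset.mul_sum]
      _ ≤ 2 / Real.log T * (19 * T) := mul_le_mul_of_nonneg_left h6 (by positivity)
      _ = 38 * (T / Real.log T) := by ring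
  rw [hsplit]
  linarith

end Pool.Agent.R504.Multinom
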