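import Mathlib

set_option autoImplicit false

/-!
# Absolutely convergent values of power series and products `∏ 1 / (1 + x^(3m+1))`
-/

namespace Pool.Agent.R504.PowEval

open PowerSeries Filter Topology

/-- `A` converges absolutely on the circle of radius `r` -/
def Sm (r : ℝ) (A : ℂ⟦X⟧) : Prop := Summable fun n => ‖coeff n A‖ * r ^ n

noncomputable def nrm (r : ℝ) (A : ℂ⟦X⟧) : ℝ := ∑' n, ‖coeff n A‖ * r ^ n

noncomputable def ev (A : ℂ⟦X⟧) (x : ℂ) : ℂ := ∑' n, coeff n A * x ^ n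

lemma Sm.norm {r : ℝ} {A : ℂ⟦X⟧} (hA : Sm r A) :
    Summable fun n => ‖(‖coeff n A‖ * r ^ n : ℝ)‖ := by
  unfold Sm at hA
  exact hA.norm

lemma norm_coeff_mul_le {r : ℝ} (hr : 0 ≤ r) (A B : ℂ⟦X⟧) (n : ℕ) :
    ‖coeff n (A * B)‖ * r ^ n ≤ ∑ kl ∈ Finset.HasAntidiagonal.antidiagonal n,
      (‖coeff kl.1 A‖ * r ^ kl.1) * (‖coeff kl.2 B‖ * r ^ kl.2) := by
  rw [coeff_mul]
  calc ‖∑ p ∈ Finset.HasAntidiagonal.antidiagonal n, coeff p.1 A * coeff p.2 B‖ * r ^ n
      ≤ (∑ p ∈ Finset.HasAntidiagonal.antidiagonal n, ‖coeff p.1 A * coeff p.2 B‖) * r ^ n :=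
        mul_le_mul_of_nonneg_right (norm_sum_le _ _) (by positivity)
    _ = _ := by
        rw [Finset.sum_mul]
        apply Finset.sum_congr rfl
        intro p hp
        rw [Finset.HasAntidiagonal.mem_antidiagonal] at hp
        rw [norm_mul, ← hp, pow_add]
        ring

lemma Sm.mul {r : ℝ} (hr : 0 ≤ r) {A B : ℂ⟦X⟧} (hA : Sm r A) (hB : Sm r B) :
    Sm r (A * B) ∧ nrm r (A * B) ≤ nrm r A * nrm r B := by
  have h1 := summable_norm_sum_mul_antidiagonal_of_summable_norm hA.norm hB.norm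
  have h1' : Summable fun n => ∑ kl ∈ Finset.HasAntidiagonal.antidiagonal n,
      (‖coeff kl.1 A‖ * r ^ kl.1) * (‖coeff kl.2 B‖ * r ^ kl.2) := h1.of_norm
  have h2 := tsum_mul_tsum_eq_tsum_sum_antidiagonal_of_summable_norm hA.norm hB.norm
  have h3 : Sm r (A * B) := h1'.of_nonneg_of_le (fun n => by positivity)
    (fun n => norm_coeff_mul_le hr A B n)
  refine ⟨h3, ?_⟩
  unfold nrm
  rw [h2]
  exact h3.tsum_le_tsum (fun n => norm_coeff_mul_le hr A B n) h1'

lemma Sm.summable {A : ℂ⟦X⟧} {x : ℂ} (hA : Sm ‖x‖ A) : Summable fun n => ‖coeff n A * x ^ n‖ := by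
  unfold Sm at hA
  simpa [norm_mul, norm_pow] using hA

lemma ev_mul {A B : ℂ⟦X⟧} {x : ℂ} (hA : Sm ‖x‖ A) (hB : Sm ‖x‖ B) :
    ev (A * B) x = ev A x * ev B x := by
  unfold ev
  rw [tsum_mul_tsum_eq_tsum_sum_antidiagonal_of_summable_norm hA.summable hB.summable]
  congr 1
  ext n
  rw [coeff_mul, Finset.sum_mul]
  apply Finset.sum_congr rfl
  intro p hp
  rw [Finset.HasAntidiagonal.mem_antidiagonal] at hp
  rw [← hp, pow_add]
  ring

/-- `1 / (1 + x^d)` -/
noncomputable def E (R : Type*) [CommRing R] (d : ℕ) : R⟦X⟧ :=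
  PowerSeries.mk fun n => if d ∣ n then (-1) ^ (n / d) else 0

lemma E_inv (R : Type*) [CommRing R] (d : ℕ) (hd : 1 ≤ d) : (1 + X ^ d) * E R d = 1 := by
  ext n
  rw [add_mul, one_mul, map_add, coeff_X_pow_mul', E, coeff_mk, coeff_one]
  rcases Nat.eq_zero_or_pos n with h | h
  · subst h
    simp
    omega
  · rw [if_neg (by omega : ¬ n = 0)]
    split_ifs with h1 h2 h2
    · obtain ⟨k, rfl⟩ := h1
      rw [coeff_mk]
      have hk : 1 ≤ k := by
        rcases Nat.eq_zero_or_pos k with hk | hk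
        · subst hk; simp at h
        · exact hk
      have h3 : d * k - d = d * (k - 1) := by
        rw [Nat.mul_sub, mul_one]
      rw [h3, if_pos (Dvd.intro _ rfl), Nat.mul_div_cancel_left _ hd, Nat.mul_div_cancel_left _ hd]
      obtain ⟨j, rfl⟩ : ∃ j, k = j + 1 := ⟨k - 1, by omega⟩
      rw [Nat.add_sub_cancel, pow_succ]
      ring
    · exfalso
      exact h2 (Nat.le_of_dvd h h1)
    · rw [coeff_mk, if_neg, add_zero]
      intro h3
      apply h1
      have := Nat.dvd_add h3 (dvd_refl d)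
      rwa [Nat.sub_add_cancel h2] at this
    · simp

lemma E_eq_inv (R : Type*) [CommRing R] (d : ℕ) (hd : 1 ≤ d) :
    invOfUnit (1 + X ^ d : R⟦X⟧) 1 = E R d := by
  have h1 : (1 + X ^ d : R⟦X⟧) * invOfUnit (1 + X ^ d) 1 = 1 := by
    apply mul_invOfUnit
    simp [show d ≠ 0 by omega]
  calc invOfUnit (1 + X ^ d : R⟦X⟧) 1
      = invOfUnit (1 + X ^ d) 1 * ((1 + X ^ d) * E R d) := by rw [E_inv R d hd, mul_one]
    _ = ((1 + X ^ d) * invOfUnit (1 + X ^ d) 1) * E R d := by ring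
    _ = _ := by rw [h1, one_mul]

lemma hasSum_dvd {G : Type*} [AddCommMonoid G] [TopologicalSpace G] (d : ℕ) (hd : 1 ≤ d)
    (f : ℕ → G) (a : G) (h : HasSum f a) :
    HasSum (fun n => if d ∣ n then f (n / d) else 0) a := by
  have hinj : Function.Injective (fun k : ℕ => d * k) := fun a b hab => by
    exact Nat.eq_of_mul_eq_mul_left hd hab
  rw [← hinj.hasSum_iff]
  · convert! h using 1
    ext k
    simp only [Function.comp]
    rw [if_pos (Dvd.intro _ rfl), Nat.mul_div_cancel_left _ hd]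
  · intro n hn
    rw [if_neg]
    rintro ⟨k, rfl⟩
    exact hn ⟨k, rfl⟩

lemma E_sum (d : ℕ) (hd : 1 ≤ d) {r : ℝ} (hr : 0 ≤ r) (hr1 : r < 1) :
    HasSum (fun n => ‖coeff n (E ℂ d)‖ * r ^ n) (1 - r ^ d)⁻¹ := by
  have h1 : HasSum (fun n : ℕ => (r ^ d) ^ n) (1 - r ^ d)⁻¹ :=
    hasSum_geometric_of_lt_one (by positivity) (pow_lt_one₀ hr hr1 (by omega))
  have h2 := hasSum_dvd d hd _ _ h1
  convert! h2 using 1
  ext n
  rw [E, coeff_mk]
  split_ifs with h
  · obtain ⟨k, rfl⟩ := h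
    rw [Nat.mul_div_cancel_left _ hd, ← pow_mul]
    simp
  · simp

lemma E_ev (d : ℕ) (hd : 1 ≤ d) {x : ℂ} (hx : ‖x‖ < 1) : ev (E ℂ d) x = (1 + x ^ d)⁻¹ := by
  have h1 : HasSum (fun n : ℕ => (-x ^ d) ^ n) (1 - (-x ^ d))⁻¹ := by
    apply hasSum_geometric_of_norm_lt_one
    rw [norm_neg, norm_pow]
    exact pow_lt_one₀ (norm_nonneg _) hx (by omega)
  have h2 := hasSum_dvd d hd _ _ h1
  rw [sub_neg_eq_add] at h2
  unfold ev
  apply HasSum.tsum_eq
  convert! h2 using 1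
  ext n
  rw [E, coeff_mk]
  split_ifs with h
  · obtain ⟨k, rfl⟩ := h
    rw [Nat.mul_div_cancel_left _ hd, neg_pow (x ^ d), ← pow_mul]
  · simp

/-- the truncated product `∏_{m < M} 1 / (1 + x^(3m+1))` -/
noncomputable def G (R : Type*) [CommRing R] (M : ℕ) : R⟦X⟧ := ∏ m ∈ Finset.range M, E R (3 * m + 1)

lemma G_succ (R : Type*) [CommRing R] (M : ℕ) : G R (M + 1) = G R M * E R (3 * M + 1) :=
  Finset.prod_range_succ _ _

lemma one_sub_inv_le (y : ℝ) (hy1 : y < 1) : (1 - y)⁻¹ ≤ Real.exp (y / (1 - y)) := by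
  have h := Real.add_one_le_exp (y / (1 - y))
  have h1 : (1 - y)⁻¹ = y / (1 - y) + 1 := by
    have : 1 - y ≠ 0 := by linarith
    field_simp
    ring
  rw [h1]
  exact h

lemma G_sm {r : ℝ} (hr : 0 ≤ r) (hr1 : r < 1) (M : ℕ) :
    Sm r (G ℂ M) ∧ nrm r (G ℂ M) ≤ Real.exp ((∑ m ∈ Finset.range M, r ^ m) / (1 - r)) := by
  induction M with
  | zero =>
    have h : HasSum (fun n => ‖coeff n (G ℂ 0)‖ * r ^ n) 1 := by
      have h1 : HasSum (fun n => ‖coeff n (G ℂ 0)‖ * r ^ n)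
          (‖coeff 0 (G ℂ 0)‖ * r ^ 0) := by
        apply hasSum_single
        intro n hn
        unfold G
        simp [coeff_one, hn]
      simpa [G] using h1
    refine ⟨h.summable, ?_⟩
    unfold nrm
    rw [h.tsum_eq]
    simp
  | succ M ih =>
    obtain ⟨h1, h2⟩ := ih
    have hE := E_sum (3 * M + 1) (by omega) hr hr1
    have hE1 : Sm r (E ℂ (3 * M + 1)) := hE.summable
    have hE2 : nrm r (E ℂ (3 * M + 1)) = (1 - r ^ (3 * M + 1))⁻¹ := hE.tsum_eq
    rw [G_succ]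
    obtain ⟨h3, h4⟩ := h1.mul hr hE1
    refine ⟨h3, h4.trans ?_⟩
    rw [hE2, Finset.sum_range_succ, add_div, Real.exp_add]
    have h5 : r ^ (3 * M + 1) < 1 := pow_lt_one₀ hr hr1 (by omega)
    apply mul_le_mul h2 _ (by
      have : 0 < 1 - r ^ (3 * M + 1) := by linarith
      positivity) (by positivity)
    refine (one_sub_inv_le _ h5).trans ?_
    apply Real.exp_le_exp.2
    have h6 : r ^ (3 * M + 1) ≤ r ^ M := pow_le_pow_of_le_one hr hr1.le (by omega)
    have h7 : r ^ (3 * M + 1) ≤ r := by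
      calc r ^ (3 * M + 1) ≤ r ^ 1 := pow_le_pow_of_le_one hr hr1.le (by omega)
        _ = r := pow_one r
    apply div_le_div₀ (by positivity) h6 (by linarith) (by linarith)

noncomputable def Bnd (r : ℝ) : ℝ := Real.exp ((1 - r)⁻¹ / (1 - r))

lemma G_nrm_le {r : ℝ} (hr : 0 ≤ r) (hr1 : r < 1) (M : ℕ) : nrm r (G ℂ M) ≤ Bnd r := by
  refine (G_sm hr hr1 M).2.trans ?_
  unfold Bnd
  apply Real.exp_le_exp.2
  apply div_le_div_of_nonneg_right _ (by linarith)
  have h := hasSum_geometric_of_lt_one hr hr1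
  exact sum_le_hasSum _ (fun _ _ => by positivity) h

lemma G_coeff_le {r : ℝ} (hr : 0 ≤ r) (hr1 : r < 1) (M n : ℕ) :
    ‖coeff n (G ℂ M)‖ * r ^ n ≤ Bnd r := by
  refine le_trans ?_ (G_nrm_le hr hr1 M)
  unfold nrm
  exact (G_sm hr hr1 M).1.le_tsum n (fun _ _ => by positivity)

lemma G_ev {x : ℂ} (hx : ‖x‖ < 1) (M : ℕ) :
    ev (G ℂ M) x = ∏ m ∈ Finset.range M, (1 + x ^ (3 * m + 1))⁻¹ := by
  induction M with
  | zero =>
    unfold ev G
    rw [tsum_eq_single 0]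
    · simp
    · intro n hn
      simp [coeff_one, hn]
  | succ M ih =>
    rw [G_succ, ev_mul (G_sm (norm_nonneg _) hx M).1
      (E_sum (3 * M + 1) (by omega) (norm_nonneg _) hx).summable, ih, E_ev _ (by omega) hx,
      Finset.prod_range_succ]

/-- stability of the coefficients -/
lemma G_stable (R : Type*) [CommRing R] (M n : ℕ) (hn : n < 3 * M + 1) :
    coeff n (G R (M + 1)) = coeff n (G R M) := by
  have h1 := E_inv R (3 * M + 1) (by omega)
  have h2 : G R (M + 1) = G R M - X ^ (3 * M + 1) * G R (M + 1) := by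
    rw [G_succ]
    linear_combination (G R M) * h1
  rw [h2, map_sub, coeff_X_pow_mul', if_neg (by omega), sub_zero]

/-- the coefficients of the infinite product -/
noncomputable def a (R : Type*) [CommRing R] (n : ℕ) : R := coeff n (G R (n + 1))

lemma G_coeff_eq (R : Type*) [CommRing R] (M n : ℕ) (hn : n + 1 ≤ M) :
    coeff n (G R M) = a R n := by
  induction M, hn using Nat.le_induction with
  | base => rfl
  | succ M hM ih => rw [G_stable R M n (by omega), ih]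

lemma a_le {r : ℝ} (hr : 0 ≤ r) (hr1 : r < 1) (n : ℕ) : ‖a ℂ n‖ * r ^ n ≤ Bnd r :=
  G_coeff_le hr hr1 _ n

lemma exists_between_one {r : ℝ} (hr : 0 ≤ r) (hr1 : r < 1) :
    ∃ s q : ℝ, 0 < s ∧ s < 1 ∧ 0 ≤ q ∧ q < 1 ∧ r = q * s := by
  refine ⟨(1 + r) / 2, r / ((1 + r) / 2), by linarith, by linarith, by positivity, ?_, ?_⟩
  · rw [div_lt_one (by linarith)]; linarith
  · field_simp

lemma a_summable {r : ℝ} (hr : 0 ≤ r) (hr1 : r < 1) : Summable fun n => ‖a ℂ n‖ * r ^ n := by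
  obtain ⟨s, q, hs, hs1, hq, hq1, h⟩ := exists_between_one hr hr1
  have h1 : Summable fun n : ℕ => Bnd s * q ^ n :=
    (summable_geometric_of_lt_one hq hq1).mul_left _
  apply h1.of_nonneg_of_le (fun n => by positivity)
  intro n
  have h2 := a_le hs.le hs1 n
  rw [h, mul_pow]
  calc ‖a ℂ n‖ * (q ^ n * s ^ n) = (‖a ℂ n‖ * s ^ n) * q ^ n := by ring
    _ ≤ Bnd s * q ^ n := mul_le_mul_of_nonneg_right h2 (by positivity)

lemma tendsto_prod {x : ℂ} (hx : ‖x‖ < 1) :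
    Tendsto (fun M => ∏ m ∈ Finset.range M, (1 + x ^ (3 * m + 1))⁻¹) atTop
      (𝓝 (∑' n, a ℂ n * x ^ n)) := by
  obtain ⟨s, q, hs, hs1, hq, hq1, h⟩ := exists_between_one (norm_nonneg x) hx
  have h1 : Summable fun n : ℕ => Bnd s * q ^ n :=
    (summable_geometric_of_lt_one hq hq1).mul_left _
  have h2 : Tendsto (fun M => ∑' n, coeff n (G ℂ M) * x ^ n) atTop
      (𝓝 (∑' n, a ℂ n * x ^ n)) := by
    apply tendsto_tsum_of_dominated_convergence h1
    · intro n
      apply tendsto_const_nhds.congr'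
      filter_upwards [eventually_ge_atTop (n + 1)] with M hM
      rw [G_coeff_eq ℂ M n hM]
    · filter_upwards with M
      intro n
      rw [norm_mul, norm_pow, h, mul_pow]
      calc ‖coeff n (G ℂ M)‖ * (q ^ n * s ^ n) = (‖coeff n (G ℂ M)‖ * s ^ n) * q ^ n := by ring
        _ ≤ Bnd s * q ^ n :=
          mul_le_mul_of_nonneg_right (G_coeff_le hs.le hs1 M n) (by positivity)
  refine h2.congr fun M => ?_
  exact G_ev hx M

end Pool.Agent.R504.PowEval
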