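import Mathlib

set_option autoImplicit false

/-!
# Restricted partition functions modulo 2: generating function, periodicity, densities
-/

namespace Pool.Agent.R504.RestrPart

open Finset

/-- `p_A(n, k)`: the number of `k`-tuples `(c_1, …, c_k)` of non-negative integers with
`c_1 a_1 + … + c_k a_k = n` (the sequence `a_1, a_2, …` is `a 0, a 1, …`) -/
noncomputable def rp (a : ℕ → ℕ) (n k : ℕ) : ℕ :=
  Nat.card {c : Fin k → ℕ // ∑ i, c i * a i = n}

/-- the set of the `k`-tuples counted by `rp a n k` -/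
def T (a : ℕ → ℕ) (n k : ℕ) : Set (Fin k → ℕ) := {c | ∑ i, c i * a i = n}

lemma T_finite (a : ℕ → ℕ) (ha : ∀ i, 0 < a i) (n k : ℕ) : (T a n k).Finite := by
  apply Set.Finite.subset (Set.Finite.pi' (fun _ : Fin k => Set.finite_Iic n))
  intro c hc i
  have h1 : ∑ i, c i * a i = n := hc
  have h2 : c i * a i ≤ ∑ i, c i * a i :=
    Finset.single_le_sum (f := fun i => c i * a i) (fun _ _ => Nat.zero_le _) (Finset.mem_univ i)
  have h3 := ha i
  simp only [Set.mem_Iic]
  nlinarith

lemma rp_eq (a : ℕ → ℕ) (n k : ℕ) : rp a n k = (T a n k).ncard := rfl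

lemma rp_zero (a : ℕ → ℕ) (n : ℕ) : rp a n 0 = if n = 0 then 1 else 0 := by
  rw [rp_eq]
  split_ifs with h
  · have : T a n 0 = {fun i => 0} := by
      ext c
      simp only [T, Set.mem_ofPred_eq, Finset.univ_eq_empty, Finset.sum_empty, Set.mem_singleton_iff]
      exact ⟨fun _ => Subsingleton.elim _ _, fun _ => h.symm⟩
    rw [this, Set.ncard_singleton]
  · have : T a n 0 = ∅ := by
      ext c
      simp only [T, Set.mem_ofPred_eq, Finset.univ_eq_empty, Finset.sum_empty,
        Set.mem_empty_iff_false, iff_false]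
      exact fun h' => h h'.symm
    rw [this, Set.ncard_empty]

lemma rp_succ (a : ℕ → ℕ) (ha : ∀ i, 0 < a i) (n k : ℕ) :
    rp a n (k + 1) = rp a n k + if a k ≤ n then rp a (n - a k) (k + 1) else 0 := by
  have h0 : T a n (k + 1) = (fun c : Fin k → ℕ => (Fin.snoc c 0 : Fin (k + 1) → ℕ)) '' T a n k ∪
      (if a k ≤ n then (fun c : Fin (k + 1) → ℕ =>
        Function.update c (Fin.last k) (c (Fin.last k) + 1)) '' T a (n - a k) (k + 1) else ∅) := by
    ext c
    constructor
    · intro hc
      have h1 : ∑ i, c i * a i = n := hc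
      rw [Fin.sum_univ_castSucc] at h1
      simp only [Fin.val_castSucc, Fin.val_last] at h1
      by_cases h2 : c (Fin.last k) = 0
      · left
        refine ⟨fun i => c i.castSucc, ?_, ?_⟩
        · show ∑ i : Fin k, c i.castSucc * a i = n
          rw [h2] at h1
          simpa using h1
        · ext i
          refine Fin.lastCases ?_ (fun i => ?_) i
          · simp [h2]
          · simp
      · right
        have h3 : a k ≤ n := by
          have : 1 * a k ≤ c (Fin.last k) * a k := Nat.mul_le_mul_right _ (Nat.pos_of_ne_zero h2)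
          omega
        rw [if_pos h3]
        refine ⟨Function.update c (Fin.last k) (c (Fin.last k) - 1), ?_, ?_⟩
        · show ∑ i : Fin (k + 1), Function.update c (Fin.last k) (c (Fin.last k) - 1) i * a i = n - a k
          rw [Fin.sum_univ_castSucc]
          simp only [Fin.val_castSucc, Fin.val_last, Function.update_self]
          have h4 : ∀ i : Fin k, Function.update c (Fin.last k) (c (Fin.last k) - 1) i.castSucc =
              c i.castSucc := fun i => Function.update_of_ne (Fin.castSucc_lt_last i).ne _ _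
          simp only [h4]
          obtain ⟨m, hm⟩ : ∃ m, c (Fin.last k) = m + 1 := ⟨c (Fin.last k) - 1, by omega⟩
          rw [hm] at h1 ⊢
          rw [add_mul, one_mul] at h1
          rw [Nat.add_sub_cancel]
          omega
        · ext i
          by_cases hi : i = Fin.last k
          · subst hi
            simp only [Function.update_self]
            omega
          · simp [Function.update_of_ne hi]
    · intro hc
      rcases hc with ⟨d, hd, rfl⟩ | hc
      · show ∑ i : Fin (k + 1), (Fin.snoc d 0 : Fin (k + 1) → ℕ) i * a i = n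
        rw [Fin.sum_univ_castSucc]
        simp only [Fin.snoc_castSucc, Fin.snoc_last, zero_mul, add_zero, Fin.val_castSucc]
        exact hd
      · split_ifs at hc with h3
        · obtain ⟨d, hd, rfl⟩ := hc
          have hd' : ∑ i, d i * a i = n - a k := hd
          show ∑ i : Fin (k + 1), Function.update d (Fin.last k) (d (Fin.last k) + 1) i * a i = n
          rw [Fin.sum_univ_castSucc] at hd' ⊢
          simp only [Fin.val_castSucc, Fin.val_last, Function.update_self] at hd' ⊢
          have h4 : ∀ i : Fin k, Function.update d (Fin.last k) (d (Fin.last k) + 1) i.castSucc =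
              d i.castSucc := fun i => Function.update_of_ne (Fin.castSucc_lt_last i).ne _ _
          simp only [h4]
          rw [add_mul, one_mul]
          omega
        · exact absurd hc (Set.notMem_empty _)
  have hfin1 : ((fun c : Fin k → ℕ => (Fin.snoc c 0 : Fin (k + 1) → ℕ)) '' T a n k).Finite :=
    (T_finite a ha n k).image _
  have hfin2 : (if a k ≤ n then (fun c : Fin (k + 1) → ℕ =>
        Function.update c (Fin.last k) (c (Fin.last k) + 1)) '' T a (n - a k) (k + 1)
        else ∅).Finite := by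
    split_ifs
    · exact (T_finite a ha _ _).image _
    · exact Set.finite_empty
  rw [rp_eq, h0, Set.ncard_union_eq _ hfin1 hfin2]
  · congr 1
    · rw [Set.ncard_image_of_injective]
      · rfl
      · intro c d h
        have h1 : ∀ i : Fin k, c i = d i := fun i => by
          have := congrFun h i.castSucc
          simpa using this
        exact funext h1
    · split_ifs with h3
      · rw [Set.ncard_image_of_injective]
        · rfl
        · intro c d h
          ext i
          by_cases hi : i = Fin.last k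
          · subst hi
            have := congrFun h (Fin.last k)
            simpa using this
          · have := congrFun h i
            simpa [Function.update_of_ne hi] using this
      · exact Set.ncard_empty _
  · rw [Set.disjoint_left]
    rintro c ⟨d, _, rfl⟩ hc
    split_ifs at hc with h3
    · obtain ⟨e, _, he⟩ := hc
      have := congrFun he (Fin.last k)
      simp at this
    · exact absurd hc (Set.notMem_empty _)

open PowerSeries in
/-- generating function -/
lemma gen (R : Type*) [CommRing R] (a : ℕ → ℕ) (ha : ∀ i, 0 < a i) (k : ℕ) :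
    (PowerSeries.mk fun n => (rp a n k : R)) * ∏ i ∈ Finset.range k, (1 - X ^ a i) = 1 := by
  induction k with
  | zero =>
    rw [Finset.range_zero, Finset.prod_empty, mul_one]
    ext n
    rw [coeff_mk, rp_zero, coeff_one]
    split_ifs <;> simp
  | succ k ih =>
    rw [Finset.prod_range_succ, mul_comm (∏ i ∈ Finset.range k, (1 - X ^ a i)), ← mul_assoc]
    have h1 : (PowerSeries.mk fun n => (rp a n (k + 1) : R)) * (1 - X ^ a k) =
        PowerSeries.mk fun n => (rp a n k : R) := by
      rw [mul_sub, mul_one]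
      ext n
      rw [map_sub, mul_comm, coeff_X_pow_mul', coeff_mk, coeff_mk, coeff_mk, rp_succ a ha]
      split_ifs <;> simp
    rw [h1, ih]

/-- the parity of `p_A(n, k)` as an element of `ZMod 2` -/
noncomputable def f (a : ℕ → ℕ) (k n : ℕ) : ZMod 2 := (rp a n k : ZMod 2)

open Polynomial in
/-- the denominator -/
noncomputable def D (a : ℕ → ℕ) (k : ℕ) : (ZMod 2)[X] := ∏ i ∈ Finset.range k, (X ^ a i - 1)

lemma D_monic (a : ℕ → ℕ) (ha : ∀ i, 0 < a i) (k : ℕ) : (D a k).Monic :=
  Polynomial.monic_prod_of_monic _ _ fun i _ => Polynomial.monic_X_pow_sub_C _ (ha i).ne'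

lemma D_natDegree (a : ℕ → ℕ) (ha : ∀ i, 0 < a i) (k : ℕ) (hk : 0 < k) : 0 < (D a k).natDegree := by
  unfold D
  rw [Polynomial.natDegree_prod_of_monic _ _
    (fun i _ => Polynomial.monic_X_pow_sub_C _ (ha i).ne')]
  have h1 : ∀ i, (Polynomial.X ^ a i - 1 : Polynomial (ZMod 2)).natDegree = a i := fun i =>
    Polynomial.natDegree_X_pow_sub_C (n := a i) (r := (1 : ZMod 2))
  simp only [h1]
  exact Finset.sum_pos (fun i _ => ha i) ⟨0, Finset.mem_range.2 hk⟩

/-- `F D = 1` -/
lemma F_mul_D (a : ℕ → ℕ) (ha : ∀ i, 0 < a i) (k : ℕ) :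
    (PowerSeries.mk (f a k)) * ((D a k : Polynomial (ZMod 2)) : PowerSeries (ZMod 2)) = 1 := by
  have h := gen (ZMod 2) a ha k
  unfold D
  rw [← Polynomial.coeToPowerSeries.ringHom_apply, map_prod]
  rw [← h]
  congr 1
  apply Finset.prod_congr rfl
  intro i _
  rw [Polynomial.coeToPowerSeries.ringHom_apply, Polynomial.coe_sub, Polynomial.coe_one,
    Polynomial.coe_pow, Polynomial.coe_X]
  have h2 : ∀ z : PowerSeries (ZMod 2), z - 1 = 1 - z := by
    intro z
    have h3 : (2 : PowerSeries (ZMod 2)) = 0 := by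
      have : (2 : PowerSeries (ZMod 2)) = PowerSeries.C (2 : ZMod 2) := rfl
      rw [this, show (2 : ZMod 2) = 0 from rfl, map_zero]
    linear_combination (z - 1) * h3
  exact h2 _

/-- if `D` divides `E`, then `F E` is a polynomial of degree less than that of `E` -/
lemma coeff_zero_of_dvd (a : ℕ → ℕ) (ha : ∀ i, 0 < a i) (k : ℕ) (hk : 0 < k)
    (E : Polynomial (ZMod 2)) (hE : D a k ∣ E) (m : ℕ) (hm : E.natDegree ≤ m) :
    PowerSeries.coeff m ((PowerSeries.mk (f a k)) * (E : PowerSeries (ZMod 2))) = 0 := by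
  obtain ⟨Q, rfl⟩ := hE
  rw [Polynomial.coe_mul, ← mul_assoc, F_mul_D a ha k, one_mul, Polynomial.coeff_coe]
  by_cases hQ : Q = 0
  · rw [hQ, Polynomial.coeff_zero]
  apply Polynomial.coeff_eq_zero_of_natDegree_lt
  rw [(D_monic a ha k).natDegree_mul' hQ] at hm
  have := D_natDegree a ha k hk
  omega

open Polynomial in
lemma char_two_pow (M s : ℕ) : (X ^ (M * 2 ^ s) - 1 : (ZMod 2)[X]) = (X ^ M - 1) ^ 2 ^ s := by
  rw [pow_mul]
  have := sub_pow_char_pow (R := (ZMod 2)[X]) (p := 2) (n := s) (x := X ^ M) (y := 1)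
  rw [this, one_pow]

open Polynomial in
/-- `∏_{i ∈ S} (X^(a_i) - 1)` divides `X^(2^k M) - 1` when all `a_i` divide `M`, `|S| ≤ k` -/
lemma prod_dvd (a : ℕ → ℕ) (S : Finset ℕ) (k M : ℕ) (hS : S.card ≤ k) (hM : ∀ i ∈ S, a i ∣ M) :
    (∏ i ∈ S, (X ^ a i - 1 : (ZMod 2)[X])) ∣ X ^ (M * 2 ^ k) - 1 := by
  rw [char_two_pow]
  have h1 : (∏ i ∈ S, (X ^ a i - 1 : (ZMod 2)[X])) ∣ ∏ i ∈ S, (X ^ M - 1 : (ZMod 2)[X]) := by
    apply Finset.prod_dvd_prod_of_dvd
    intro i hi
    obtain ⟨c, hc⟩ := hM i hi
    rw [hc, pow_mul]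
    simpa using sub_dvd_pow_sub_pow (X ^ a i : (ZMod 2)[X]) 1 c
  refine h1.trans ?_
  rw [Finset.prod_const]
  exact pow_dvd_pow _ (hS.trans (Nat.lt_two_pow_self).le)

/-- the period -/
def P (a : ℕ → ℕ) (k : ℕ) : ℕ := (∏ i ∈ Finset.range k, a i) * 2 ^ k

lemma P_pos (a : ℕ → ℕ) (ha : ∀ i, 0 < a i) (k : ℕ) : 0 < P a k :=
  Nat.mul_pos (Finset.prod_pos fun i _ => ha i) (by positivity)

lemma zmod2_eq (x y : ZMod 2) (h : x - y = 0) : x = y := sub_eq_zero.1 h

lemma periodic (a : ℕ → ℕ) (ha : ∀ i, 0 < a i) (k : ℕ) (hk : 0 < k) (n : ℕ) :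
    f a k (n + P a k) = f a k n := by
  have h1 : D a k ∣ Polynomial.X ^ P a k - 1 :=
    prod_dvd a (Finset.range k) k _ (by simp) (fun i hi => Finset.dvd_prod_of_mem a hi)
  have h2 : (Polynomial.X ^ P a k - 1 : Polynomial (ZMod 2)).natDegree = P a k :=
    Polynomial.natDegree_X_pow_sub_C
  have h3 := coeff_zero_of_dvd a ha k hk _ h1 (n + P a k) (by rw [h2]; omega)
  rw [Polynomial.coe_sub, Polynomial.coe_one, Polynomial.coe_pow, Polynomial.coe_X, mul_sub,
    mul_one, map_sub, mul_comm, PowerSeries.coeff_X_pow_mul', if_pos (by omega),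
    PowerSeries.coeff_mk, PowerSeries.coeff_mk, Nat.add_sub_cancel] at h3
  exact (sub_eq_zero.1 h3).symm

open Filter Topology

/-- the density of a periodic set exists -/
lemma density_periodic (p : ℕ → Prop) [DecidablePred p] (L : ℕ) (hL : 0 < L)
    (hp : ∀ n, p (n + L) ↔ p n) :
    Tendsto (fun N : ℕ => (((Finset.range (N + 1)).filter p).card : ℝ) / N) atTop
      (𝓝 ((((Finset.range L).filter p).card : ℝ) / L)) := by
  have h0 : ∀ N, ((Finset.range N).filter p).card = Nat.count p N := fun N =>
    (Nat.count_eq_card_filter_range p N).symm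
  simp only [h0]
  set c := Nat.count p L with hc
  have h1 : ∀ N, Nat.count p (N + L) = Nat.count p N + c := by
    intro N
    rw [Nat.count_add', hc]
    congr 1
    have : (fun m => p (m + L)) = p := by
      funext m
      exact propext (hp m)
    simp only [this]
  have h2 : ∀ q r : ℕ, Nat.count p (r + q * L) = Nat.count p r + q * c := by
    intro q
    induction q with
    | zero => intro r; simp
    | succ q ih =>
      intro r
      rw [show r + (q + 1) * L = (r + q * L) + L by ring, h1, ih]
      ring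
  have hLr : (0 : ℝ) < L := by exact_mod_cast hL
  have h3 : ∀ N : ℕ, |(Nat.count p N : ℝ) - c / L * N| ≤ L := by
    intro N
    have e1 := h2 (N / L) (N % L)
    rw [show N % L + N / L * L = N from Nat.mod_add_div' N L] at e1
    have e2 : (N : ℝ) = (N % L : ℕ) + (N / L : ℕ) * L := by
      exact_mod_cast (Nat.mod_add_div' N L).symm
    have e3 : (Nat.count p N : ℝ) = Nat.count p (N % L) + (N / L : ℕ) * c := by
      rw [e1]; push_cast; ring
    have e4 : (Nat.count p N : ℝ) - c / L * N = Nat.count p (N % L) - c / L * (N % L : ℕ) := by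
      have e5 : (c : ℝ) / L * N = c / L * (N % L : ℕ) + (N / L : ℕ) * c := by
        conv_lhs => rw [e2]
        field_simp
      rw [e3, e5]
      ring
    rw [e4, abs_le]
    have e5 : (Nat.count p (N % L) : ℝ) ≤ (N % L : ℕ) := by exact_mod_cast Nat.count_le p
    have e6 : ((N % L : ℕ) : ℝ) ≤ L := by exact_mod_cast (Nat.mod_lt N hL).le
    have e7 : (c : ℝ) ≤ L := by exact_mod_cast Nat.count_le p
    have e8 : (0 : ℝ) ≤ c / L := by positivity
    have e9 : (c : ℝ) / L ≤ 1 := (div_le_one hLr).2 e7
    have e10 : (0 : ℝ) ≤ (N % L : ℕ) := by positivity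
    have e11 : (0 : ℝ) ≤ Nat.count p (N % L) := by positivity
    constructor
    · nlinarith
    · nlinarith [mul_nonneg e8 e10]
  rw [Metric.tendsto_atTop]
  intro ε hε
  obtain ⟨N0, hN0⟩ := exists_nat_gt ((L + 1) / ε)
  refine ⟨N0 + 1, fun N hN => ?_⟩
  have hN1 : (0 : ℝ) < N := by exact_mod_cast (by omega : 0 < N)
  have hN2 : (L + 1) / ε < N := hN0.trans_le (by exact_mod_cast (by omega : N0 ≤ N))
  rw [Real.dist_eq]
  have e1 : (Nat.count p (N + 1) : ℝ) / N - c / L =
      ((Nat.count p (N + 1) : ℝ) - c / L * (N + 1 : ℕ) + c / L) / N := by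
    push_cast
    field_simp
    ring
  rw [e1, abs_div, abs_of_pos hN1, div_lt_iff₀ hN1]
  have e2 := h3 (N + 1)
  have e7 : (c : ℝ) ≤ L := by exact_mod_cast Nat.count_le p
  have e8 : (0 : ℝ) ≤ c / L := by positivity
  have e9 : (c : ℝ) / L ≤ 1 := (div_le_one hLr).2 e7
  have e3 : |(Nat.count p (N + 1) : ℝ) - c / L * (N + 1 : ℕ) + c / L| ≤ L + 1 := by
    refine (abs_add_le _ _).trans ?_
    rw [abs_of_nonneg e8]
    linarith
  rw [div_lt_iff₀ hε] at hN2
  linarith [mul_comm ε (N : ℝ)]

lemma odd_iff_f (a : ℕ → ℕ) (k n : ℕ) : Odd (rp a n k) ↔ f a k n ≠ 0 := by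
  unfold f
  rw [ZMod.natCast_ne_zero_iff_odd]

/-- for `k ≥ 1` the odd density of `p_A(·, k)` exists -/
lemma density_exists (a : ℕ → ℕ) (ha : ∀ i, 0 < a i) (k : ℕ) (hk : 0 < k) :
    Tendsto (fun N : ℕ => (((Finset.range (N + 1)).filter (fun n => Odd (rp a n k))).card : ℝ) / N)
      atTop (𝓝 ((((Finset.range (P a k)).filter (fun n => Odd (rp a n k))).card : ℝ) / P a k)) := by
  apply density_periodic _ _ (P_pos a ha k)
  intro n
  rw [odd_iff_f, odd_iff_f, periodic a ha k hk]

end Pool.Agent.R504.RestrPart
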