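import Mathlib

set_option autoImplicit false

/-!
# Counting lemmas for partitions coming from numerical semigroups
-/

namespace Pool.Agent.R504.SemiPart

open Finset

/-- the partitions of `n`, as multisets -/
def QQ (n : ℕ) : Finset (Multiset ℕ) := (univ : Finset (Nat.Partition n)).image fun l => l.parts

/-- the partitions of size at most `n`, as multisets -/
def PP (n : ℕ) : Finset (Multiset ℕ) := (range (n + 1)).biUnion QQ

lemma mem_QQ {n : ℕ} {m : Multiset ℕ} : m ∈ QQ n ↔ (∀ i ∈ m, 0 < i) ∧ m.sum = n := by
  unfold QQ
  rw [mem_image]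
  constructor
  · rintro ⟨l, _, rfl⟩
    exact ⟨fun i hi => l.parts_pos hi, l.parts_sum⟩
  · rintro ⟨h1, h2⟩
    exact ⟨⟨m, fun {i} hi => h1 i hi, h2⟩, mem_univ _, rfl⟩

lemma mem_PP {n : ℕ} {m : Multiset ℕ} : m ∈ PP n ↔ (∀ i ∈ m, 0 < i) ∧ m.sum ≤ n := by
  unfold PP
  rw [mem_biUnion]
  constructor
  · rintro ⟨k, hk, hm⟩
    rw [mem_QQ] at hm
    rw [mem_range] at hk
    exact ⟨hm.1, by omega⟩
  · rintro ⟨h1, h2⟩
    exact ⟨m.sum, mem_range.2 (by omega), mem_QQ.2 ⟨h1, rfl⟩⟩

lemma card_QQ (n : ℕ) : (QQ n).card = Fintype.card (Nat.Partition n) := by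
  unfold QQ
  rw [card_image_of_injective _ (fun a b h => Nat.Partition.ext h), card_univ]

lemma card_PP (n : ℕ) : (PP n).card = ∑ k ∈ range (n + 1), (QQ k).card := by
  unfold PP
  rw [card_biUnion]
  intro i _ j _ hij
  rw [Function.onFun, Finset.disjoint_left]
  intro m h1 h2
  rw [mem_QQ] at h1 h2
  exact hij (h1.2.symm.trans h2.2)

/-- the number of the parts between `2` and `j` -/
def w (j : ℕ) (m : Multiset ℕ) : ℕ := m.countP fun i => 2 ≤ i ∧ i ≤ j

/-- the partitions for which the condition holds with `j` -/
def E (j n : ℕ) : Finset (Multiset ℕ) := (PP n).filter fun m => m.count 1 + 2 = j + w j m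

lemma w_filter (j : ℕ) (m : Multiset ℕ) : w j (m.filter (· ≠ 1)) = w j m := by
  unfold w
  rw [Multiset.countP_filter]
  apply Multiset.countP_congr rfl
  intro x _
  simp only [eq_iff_iff]
  constructor
  · rintro ⟨h1, _⟩; exact h1
  · intro h; exact ⟨h, by omega⟩

lemma split_one (m : Multiset ℕ) :
    m = m.filter (· ≠ 1) + Multiset.replicate (m.count 1) 1 := by
  ext a
  rw [Multiset.count_add, Multiset.count_filter, Multiset.count_replicate]
  by_cases h : a = 1
  · subst h; simp
  · rw [if_pos h, if_neg (fun h' => h h'.symm), add_zero]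

/-- Step B. -/
lemma card_E (j n : ℕ) : (E j n).card ≤ (QQ n).card := by
  apply card_le_card_of_injOn (fun m => m.filter (· ≠ 1) +
    Multiset.replicate (n - (m.filter (· ≠ 1)).sum) 1)
  · intro m hm
    have hm' := mem_filter.1 (Finset.mem_coe.1 hm)
    rw [mem_PP] at hm'
    obtain ⟨⟨h1, h2⟩, _⟩ := hm'
    have h3 : (m.filter (· ≠ 1)).sum ≤ n := by
      have := congrArg Multiset.sum (split_one m)
      rw [Multiset.sum_add] at this
      omega
    rw [Finset.mem_coe, mem_QQ]
    constructor
    · intro i hi
      rcases Multiset.mem_add.1 hi with hi | hi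
      · exact h1 i (Multiset.mem_filter.1 hi).1
      · rw [Multiset.eq_of_mem_replicate hi]; exact one_pos
    · rw [Multiset.sum_add, Multiset.sum_replicate, smul_eq_mul, mul_one]
      omega
  · intro m hm m' hm' heq
    have e1 := (mem_filter.1 (Finset.mem_coe.1 hm)).2
    have e2 := (mem_filter.1 (Finset.mem_coe.1 hm')).2
    have h4 : ∀ (x : Multiset ℕ) (k : ℕ),
        (x.filter (· ≠ 1) + Multiset.replicate k 1).filter (· ≠ 1) = x.filter (· ≠ 1) := by
      intro x k
      rw [Multiset.filter_add, Multiset.filter_filter]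
      have : (Multiset.replicate k 1).filter (· ≠ 1) = 0 := by
        rw [Multiset.filter_eq_nil]
        intro a ha
        rw [Multiset.eq_of_mem_replicate ha]
        simp
      rw [this, add_zero]
      simp
    have h5 : m.filter (· ≠ 1) = m'.filter (· ≠ 1) := by
      have := congrArg (Multiset.filter (· ≠ 1)) heq
      simp only [] at this
      rwa [h4, h4] at this
    have h6 : m.count 1 = m'.count 1 := by
      rw [← w_filter] at e1 e2
      rw [h5] at e1
      omega
    rw [split_one m, split_one m', h5, h6]

/-- the partitions with at least as many ones as parts between `2` and `K` -/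
def B (K n : ℕ) : Finset (Multiset ℕ) := (PP n).filter fun m => w K m ≤ m.count 1

/-- the middle parts -/
def y (K : ℕ) (m : Multiset ℕ) : Multiset ℕ := m.filter fun i => 2 ≤ i ∧ i < K

/-- the large parts -/
def W (K : ℕ) (m : Multiset ℕ) : Multiset ℕ := m.filter fun i => K < i

lemma w_eq {K : ℕ} (hK : 2 ≤ K) (m : Multiset ℕ) : w K m = (y K m).card + m.count K := by
  unfold w y
  rw [← Multiset.countP_eq_card_filter, Multiset.count]
  induction m using Multiset.induction_on with
  | empty => simp
  | cons a s ih =>
    rw [Multiset.countP_cons, Multiset.countP_cons, Multiset.countP_cons, ih]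
    split_ifs <;> omega

lemma decomp {K : ℕ} (hK : 2 ≤ K) {m : Multiset ℕ} (hm : ∀ i ∈ m, 0 < i) :
    m = Multiset.replicate (m.count 1) 1 + y K m + Multiset.replicate (m.count K) K + W K m := by
  ext a
  unfold y W
  rw [Multiset.count_add, Multiset.count_add, Multiset.count_add, Multiset.count_filter,
    Multiset.count_filter, Multiset.count_replicate, Multiset.count_replicate]
  have h0 : m.count 0 = 0 := by
    rw [Multiset.count_eq_zero]
    intro h
    exact absurd (hm 0 h) (lt_irrefl 0)
  by_cases h1 : a = 0
  · subst h1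
    rw [h0, if_neg (by omega : ¬ 1 = 0), if_neg (by omega : ¬ (2 ≤ 0 ∧ 0 < K)),
      if_neg (by omega : ¬ K = 0), if_neg (by omega : ¬ K < 0)]
  · by_cases h2 : a = 1
    · subst h2
      rw [if_pos rfl, if_neg (by omega : ¬ (2 ≤ 1 ∧ 1 < K)), if_neg (by omega : ¬ K = 1),
        if_neg (by omega : ¬ K < 1), add_zero, add_zero, add_zero]
    · by_cases h3 : a = K
      · subst h3
        split_ifs <;> omega
      · split_ifs <;> omega

/-- the image of `(m, s)` -/
def im (K : ℕ) (m : Multiset ℕ) (s : ℕ) : Multiset ℕ :=
  Multiset.replicate (m.count 1 - w K m) 1 +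
    Multiset.replicate ((m.count K * (K + 1) + s) / 2) 2 + (y K m).map (· + 1) + W K m

lemma count_im_large {K : ℕ} (hK : 2 ≤ K) (m : Multiset ℕ) (s a : ℕ) (ha : K < a) :
    (im K m s).count a = m.count a := by
  unfold im W y
  rw [Multiset.count_add, Multiset.count_add, Multiset.count_add, Multiset.count_replicate,
    Multiset.count_replicate, Multiset.count_filter, if_pos ha, if_neg (by omega),
    if_neg (by omega)]
  have : Multiset.count a ((m.filter fun i => 2 ≤ i ∧ i < K).map (· + 1)) = 0 := by
    rw [Multiset.count_eq_zero, Multiset.mem_map]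
    rintro ⟨b, hb, h⟩
    have := (Multiset.mem_filter.1 hb).2
    omega
  omega

lemma count_im_mid {K : ℕ} (m : Multiset ℕ) (s a : ℕ) (ha : 2 ≤ a) (ha' : a < K) :
    (im K m s).count (a + 1) = m.count a := by
  unfold im W y
  rw [Multiset.count_add, Multiset.count_add, Multiset.count_add, Multiset.count_replicate,
    Multiset.count_replicate, Multiset.count_filter, if_neg (by omega : ¬ K < a + 1),
    if_neg (by omega), if_neg (by omega)]
  have : Multiset.count (a + 1) ((m.filter fun i => 2 ≤ i ∧ i < K).map (· + 1)) =
      Multiset.count a (m.filter fun i => 2 ≤ i ∧ i < K) :=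
    Multiset.count_map_eq_count' (· + 1) _ (add_left_injective 1) a
  rw [this, Multiset.count_filter, if_pos ⟨ha, ha'⟩]
  omega

lemma count_im_two {K : ℕ} (hK : 2 ≤ K) (m : Multiset ℕ) (s : ℕ) :
    (im K m s).count 2 = (m.count K * (K + 1) + s) / 2 := by
  unfold im W y
  rw [Multiset.count_add, Multiset.count_add, Multiset.count_add, Multiset.count_replicate,
    Multiset.count_replicate, Multiset.count_filter, if_neg (by omega : ¬ K < 2),
    if_neg (by omega), if_pos rfl]
  have : Multiset.count 2 ((m.filter fun i => 2 ≤ i ∧ i < K).map (· + 1)) = 0 := by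
    rw [Multiset.count_eq_zero, Multiset.mem_map]
    rintro ⟨b, hb, h⟩
    have := (Multiset.mem_filter.1 hb).2
    omega
  omega

lemma count_im_one {K : ℕ} (hK : 2 ≤ K) (m : Multiset ℕ) (s : ℕ) :
    (im K m s).count 1 = m.count 1 - w K m := by
  unfold im W y
  rw [Multiset.count_add, Multiset.count_add, Multiset.count_add, Multiset.count_replicate,
    Multiset.count_replicate, Multiset.count_filter, if_neg (by omega : ¬ K < 1),
    if_neg (by omega : ¬ 2 = 1), if_pos rfl]
  have : Multiset.count 1 ((m.filter fun i => 2 ≤ i ∧ i < K).map (· + 1)) = 0 := by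
    rw [Multiset.count_eq_zero, Multiset.mem_map]
    rintro ⟨b, hb, h⟩
    have := (Multiset.mem_filter.1 hb).2
    omega
  omega

lemma sum_map_succ (x : Multiset ℕ) : (x.map (· + 1)).sum = x.sum + x.card := by
  induction x using Multiset.induction_on with
  | empty => simp
  | cons a s ih => simp only [Multiset.map_cons, Multiset.sum_cons, Multiset.card_cons]; omega

/-- Step C. -/
lemma card_B {K : ℕ} (hK : 2 ≤ K) (n : ℕ) : (K + 1) * (B K n).card ≤ 2 * (PP (n + K)).card := by
  have h : ((B K n) ×ˢ range (K + 1)).card ≤ (PP (n + K) ×ˢ range 2).card := by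
    apply card_le_card_of_injOn (fun t => (im K t.1 t.2, (t.1.count K * (K + 1) + t.2) % 2))
    · rintro ⟨m, s⟩ ht
      rw [Finset.mem_coe, mem_product] at ht
      obtain ⟨hm, hs⟩ := ht
      dsimp only at hm hs ⊢
      have hm' := mem_filter.1 hm
      rw [mem_PP] at hm'
      obtain ⟨⟨h1, h2⟩, h3⟩ := hm'
      rw [mem_range] at hs
      rw [Finset.mem_coe, mem_product]
      refine ⟨?_, mem_range.2 (Nat.mod_lt _ (by norm_num))⟩
      rw [mem_PP]
      constructor
      · intro i hi
        unfold im at hi
        rw [Multiset.mem_add, Multiset.mem_add, Multiset.mem_add] at hi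
        rcases hi with ((hi | hi) | hi) | hi
        · rw [Multiset.eq_of_mem_replicate hi]; norm_num
        · rw [Multiset.eq_of_mem_replicate hi]; norm_num
        · obtain ⟨b, _, rfl⟩ := Multiset.mem_map.1 hi
          omega
        · exact h1 i (Multiset.mem_filter.1 hi).1
      · have hsum := congrArg Multiset.sum (decomp hK h1)
        rw [Multiset.sum_add, Multiset.sum_add, Multiset.sum_add, Multiset.sum_replicate,
          Multiset.sum_replicate, smul_eq_mul, smul_eq_mul, mul_one] at hsum
        simp only [im]
        rw [Multiset.sum_add, Multiset.sum_add, Multiset.sum_add, Multiset.sum_replicate,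
          Multiset.sum_replicate, smul_eq_mul, smul_eq_mul, mul_one, sum_map_succ]
        have hw := w_eq hK m
        have h5 : (m.count K * (K + 1) + s) / 2 * 2 ≤ m.count K * (K + 1) + s :=
          Nat.div_mul_le_self _ _
        have h6 : m.count K * (K + 1) = m.count K * K + m.count K := by ring
        rw [h6] at h5 ⊢
        omega
    · rintro ⟨m, s⟩ ht ⟨m', s'⟩ ht' heq
      rw [Finset.mem_coe, mem_product] at ht ht'
      obtain ⟨hm, hs⟩ := ht
      obtain ⟨hm', hs'⟩ := ht'
      have a1 := mem_filter.1 hm
      have a2 := mem_filter.1 hm'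
      rw [mem_PP] at a1 a2
      rw [mem_range] at hs hs'
      simp only [Prod.mk.injEq] at heq
      obtain ⟨e1, e2⟩ := heq
      dsimp only at hs hs' a1 a2
      have c2 : (m.count K * (K + 1) + s) / 2 = (m'.count K * (K + 1) + s') / 2 := by
        rw [← count_im_two hK m s, ← count_im_two hK m' s', e1]
      have hu : m.count K * (K + 1) + s = m'.count K * (K + 1) + s' := by omega
      have hz : m.count K = m'.count K := by
        have d1 : (m.count K * (K + 1) + s) / (K + 1) = m.count K := by
          rw [mul_comm, Nat.mul_add_div (by omega), Nat.div_eq_of_lt hs, add_zero]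
        have d2 : (m'.count K * (K + 1) + s') / (K + 1) = m'.count K := by
          rw [mul_comm, Nat.mul_add_div (by omega), Nat.div_eq_of_lt hs', add_zero]
        rw [← d1, ← d2, hu]
      have hss : s = s' := by rw [hz] at hu; omega
      subst hss
      have hy : y K m = y K m' := by
        ext a
        unfold y
        rw [Multiset.count_filter, Multiset.count_filter]
        split_ifs with ha
        · rw [← count_im_mid m s a ha.1 ha.2, ← count_im_mid m' s a ha.1 ha.2, e1]
        · rfl
      have hW : W K m = W K m' := by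
        ext a
        unfold W
        rw [Multiset.count_filter, Multiset.count_filter]
        split_ifs with ha
        · rw [← count_im_large hK m s a ha, ← count_im_large hK m' s a ha, e1]
        · rfl
      have h1 : m.count 1 = m'.count 1 := by
        have b1 := count_im_one hK m s
        have b2 := count_im_one hK m' s
        rw [e1] at b1
        have b3 := w_eq hK m
        have b4 := w_eq hK m'
        rw [hy, hz] at b3
        have b5 := a1.2
        have b6 := a2.2
        omega
      have : m = m' := by
        rw [decomp hK a1.1.1, decomp hK a2.1.1, hy, hW, h1, hz]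
      rw [this]
  rw [card_product, card_product, card_range, card_range] at h
  linarith

/-- the partitions for which the condition holds for some `j ≥ 2` are few -/
lemma card_union {K : ℕ} (hK : 2 ≤ K) (n : ℕ) (A : Finset (Multiset ℕ)) (hA : A ⊆ PP n)
    (h : ∀ m ∈ A, ∃ j, 2 ≤ j ∧ m.count 1 + 2 = j + w j m) :
    (K + 1) * A.card ≤ (K + 1) ^ 2 * (QQ n).card + 2 * (PP (n + K)).card := by
  have hsub : A ⊆ (range K).biUnion (fun j => E j n) ∪ B K n := by
    intro m hm
    obtain ⟨j, hj2, hj⟩ := h m hm
    rw [mem_union, mem_biUnion]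
    by_cases hjK : j < K
    · left
      exact ⟨j, mem_range.2 hjK, mem_filter.2 ⟨hA hm, hj⟩⟩
    · right
      rw [not_lt] at hjK
      refine mem_filter.2 ⟨hA hm, ?_⟩
      have : w K m ≤ w j m := by
        unfold w
        rw [Multiset.countP_eq_card_filter, Multiset.countP_eq_card_filter]
        apply Multiset.card_le_card
        apply Multiset.monotone_filter_right
        intro i hi
        exact ⟨hi.1, hi.2.trans hjK⟩
      omega
  have h1 : A.card ≤ K * (QQ n).card + (B K n).card := by
    refine (card_le_card hsub).trans ((card_union_le _ _).trans ?_)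
    apply Nat.add_le_add_right
    refine card_biUnion_le.trans ?_
    calc ∑ j ∈ range K, (E j n).card ≤ ∑ _j ∈ range K, (QQ n).card :=
          sum_le_sum fun j _ => card_E j n
      _ = K * (QQ n).card := by rw [sum_const, card_range, smul_eq_mul]
  have h2 := card_B hK n
  calc (K + 1) * A.card ≤ (K + 1) * (K * (QQ n).card + (B K n).card) := Nat.mul_le_mul_left _ h1
    _ = (K + 1) * K * (QQ n).card + (K + 1) * (B K n).card := by ring
    _ ≤ (K + 1) ^ 2 * (QQ n).card + 2 * (PP (n + K)).card := by
        apply Nat.add_le_add _ h2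
        apply Nat.mul_le_mul_right
        nlinarith

end Pool.Agent.R504.SemiPart
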