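import Mathlib
import Pool.Agent.R504.PowEval

set_option autoImplicit false

/-!
# The logarithm of `∏ 1 / (1 + x^(3m+1))` near roots of unity
-/

namespace Pool.Agent.R504.SignLog

open Filter Topology Pool.Agent.R504.PowEval

lemma exp_lt_one' {y : ℝ} (hy : y < 0) : Real.exp y < 1 := by
  rw [← Real.exp_zero]; exact Real.exp_lt_exp.2 hy

/-- the terms of the logarithm, `k = i + 1` -/
noncomputable def g (i : ℕ) (x : ℂ) : ℂ :=
  (-1) ^ (i + 1) / (i + 1) * (x ^ (i + 1) / (1 - x ^ (3 * (i + 1))))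

lemma one_sub_ne {x : ℂ} (hx : ‖x‖ < 1) (k : ℕ) : 1 - x ^ (3 * (k + 1)) ≠ 0 := by
  intro h
  have h1 : ‖x ^ (3 * (k + 1))‖ < 1 := by
    rw [norm_pow]; exact pow_lt_one₀ (norm_nonneg _) hx (by omega)
  rw [← sub_eq_zero.1 h] at h1
  simp at h1

lemma g_bound {x : ℂ} {τ : ℝ} (hτ : 0 < τ) (hx : ‖x‖ = Real.exp (-τ)) (i : ℕ) :
    ‖g i x‖ ≤ 1 / τ * (1 / ((i : ℝ) + 1) ^ 2) := by
  have hx1 : ‖x‖ < 1 := by rw [hx]; exact exp_lt_one' (by linarith)
  unfold g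
  rw [norm_mul, norm_div, norm_pow, norm_neg, norm_one, one_pow, norm_div, norm_pow]
  have h1 : ‖((i : ℂ) + 1)‖ = (i : ℝ) + 1 := by
    have : ((i : ℂ) + 1) = ((i + 1 : ℕ) : ℂ) := by push_cast; rfl
    rw [this, Complex.norm_natCast]; push_cast; rfl
  rw [h1]
  have h2 : 1 - ‖x‖ ^ (i + 1) ≤ ‖1 - x ^ (3 * (i + 1))‖ := by
    have h3 : ‖x ^ (3 * (i + 1))‖ ≤ ‖x‖ ^ (i + 1) := by
      rw [norm_pow]; exact pow_le_pow_of_le_one (norm_nonneg _) hx1.le (by omega)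
    have h4 := norm_sub_norm_le (1 : ℂ) (x ^ (3 * (i + 1)))
    rw [norm_one] at h4
    linarith
  have h5 : ‖x‖ ^ (i + 1) = Real.exp (-(((i : ℝ) + 1) * τ)) := by
    rw [hx, ← Real.exp_nat_mul]; congr 1; push_cast; ring
  have hi : (0 : ℝ) < (i : ℝ) + 1 := by positivity
  have h6 : 0 < 1 - ‖x‖ ^ (i + 1) := by
    rw [h5]
    have : Real.exp (-(((i : ℝ) + 1) * τ)) < 1 := exp_lt_one' (by nlinarith)
    linarith
  have h7 : ‖x‖ ^ (i + 1) / ‖1 - x ^ (3 * (i + 1))‖ ≤ 1 / (((i : ℝ) + 1) * τ) := by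
    calc ‖x‖ ^ (i + 1) / ‖1 - x ^ (3 * (i + 1))‖
        ≤ ‖x‖ ^ (i + 1) / (1 - ‖x‖ ^ (i + 1)) :=
          div_le_div_of_nonneg_left (by positivity) h6 h2
      _ ≤ 1 / (((i : ℝ) + 1) * τ) := by
          rw [div_le_div_iff₀ h6 (by positivity), one_mul]
          have h8 := Real.add_one_le_exp (((i : ℝ) + 1) * τ)
          have h9 : ‖x‖ ^ (i + 1) * Real.exp (((i : ℝ) + 1) * τ) = 1 := by
            rw [h5, ← Real.exp_add]; simp
          have h10 : 0 < ‖x‖ ^ (i + 1) := by rw [h5]; positivity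
          nlinarith
  calc 1 / ((i : ℝ) + 1) * (‖x‖ ^ (i + 1) / ‖1 - x ^ (3 * (i + 1))‖)
      ≤ 1 / ((i : ℝ) + 1) * (1 / (((i : ℝ) + 1) * τ)) :=
        mul_le_mul_of_nonneg_left h7 (by positivity)
    _ = _ := by field_simp

lemma summable_sq : Summable fun i : ℕ => 1 / ((i : ℝ) + 1) ^ 2 := by
  have h := (summable_nat_add_iff 1).2 hasSum_zeta_two.summable
  convert! h using 1
  ext i
  push_cast
  rfl

/-- tails of the logarithm -/
noncomputable def L (M : ℕ) (x : ℂ) : ℂ := ∑' i, x ^ (3 * M * (i + 1)) * g i x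

lemma L_term_bound {x : ℂ} {τ : ℝ} (hτ : 0 < τ) (hx : ‖x‖ = Real.exp (-τ)) (M i : ℕ) :
    ‖x ^ (3 * M * (i + 1)) * g i x‖ ≤ ‖x‖ ^ M * (1 / τ * (1 / ((i : ℝ) + 1) ^ 2)) := by
  have hx1 : ‖x‖ < 1 := by rw [hx]; exact exp_lt_one' (by linarith)
  rw [norm_mul, norm_pow]
  apply mul_le_mul _ (g_bound hτ hx i) (norm_nonneg _) (by positivity)
  apply pow_le_pow_of_le_one (norm_nonneg _) hx1.le
  nlinarith

lemma L_summable {x : ℂ} {τ : ℝ} (hτ : 0 < τ) (hx : ‖x‖ = Real.exp (-τ)) (M : ℕ) :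
    Summable fun i => x ^ (3 * M * (i + 1)) * g i x := by
  have h := (summable_sq.mul_left (1 / τ)).mul_left (‖x‖ ^ M)
  exact Summable.of_norm_bounded h (L_term_bound hτ hx M)

lemma L_tendsto {x : ℂ} {τ : ℝ} (hτ : 0 < τ) (hx : ‖x‖ = Real.exp (-τ)) :
    Tendsto (fun M => L M x) atTop (𝓝 0) := by
  have hx1 : ‖x‖ < 1 := by rw [hx]; exact exp_lt_one' (by linarith)
  have h1 : Tendsto (fun M : ℕ => ‖x‖ ^ M * ∑' i : ℕ, 1 / τ * (1 / ((i : ℝ) + 1) ^ 2)) atTop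
      (𝓝 0) := by
    have := (tendsto_pow_atTop_nhds_zero_of_lt_one (norm_nonneg x) hx1).mul_const
      (∑' i : ℕ, 1 / τ * (1 / ((i : ℝ) + 1) ^ 2))
    simpa using this
  apply squeeze_zero_norm _ h1
  intro M
  rw [← tsum_mul_left]
  unfold L
  exact tsum_of_norm_bounded ((summable_sq.mul_left (1 / τ)).mul_left (‖x‖ ^ M)).hasSum
    (L_term_bound hτ hx M)

lemma L_step {x : ℂ} {τ : ℝ} (hτ : 0 < τ) (hx : ‖x‖ = Real.exp (-τ)) (M : ℕ) :
    Complex.exp (L M x) = (1 + x ^ (3 * M + 1))⁻¹ * Complex.exp (L (M + 1) x) := by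
  have hx1 : ‖x‖ < 1 := by rw [hx]; exact exp_lt_one' (by linarith)
  have hz : ‖x ^ (3 * M + 1)‖ < 1 := by
    rw [norm_pow]; exact pow_lt_one₀ (norm_nonneg _) hx1 (by omega)
  have h1 := Complex.hasSum_taylorSeries_log hz
  have h2 : HasSum (fun i : ℕ => (-1) ^ (i + 1 + 1) * (x ^ (3 * M + 1)) ^ (i + 1) / ((i + 1 : ℕ) : ℂ))
      (Complex.log (1 + x ^ (3 * M + 1))) := by
    rw [hasSum_nat_add_iff (f := fun n : ℕ => (-1) ^ (n + 1) * (x ^ (3 * M + 1)) ^ n / (n : ℂ)) 1]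
    simpa using h1
  have h3 : L (M + 1) x = L M x + Complex.log (1 + x ^ (3 * M + 1)) := by
    unfold L
    rw [← h2.tsum_eq, ← (L_summable hτ hx M).tsum_add h2.summable]
    congr 1
    ext i
    have h4 := one_sub_ne hx1 i
    unfold g
    have h5 : ((i : ℂ) + 1) ≠ 0 := Nat.cast_add_one_ne_zero i
    have e1 : x ^ (3 * (M + 1) * (i + 1)) = x ^ (3 * M * (i + 1)) * x ^ (3 * (i + 1)) := by
      rw [← pow_add]; congr 1; ring
    have e2 : (x ^ (3 * M + 1)) ^ (i + 1) = x ^ (3 * M * (i + 1)) * x ^ (i + 1) := by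
      rw [← pow_mul, ← pow_add]; congr 1; ring
    rw [e1, e2]
    push_cast
    set y := x ^ (3 * (i + 1)) with hy
    field_simp
    ring
  have h6 : (1 + x ^ (3 * M + 1)) ≠ 0 := by
    intro h
    have : x ^ (3 * M + 1) = -1 := by linear_combination h
    rw [this] at hz
    simp at hz
  rw [h3, Complex.exp_add, Complex.exp_log h6]
  field_simp

lemma L_prod {x : ℂ} {τ : ℝ} (hτ : 0 < τ) (hx : ‖x‖ = Real.exp (-τ)) (M : ℕ) :
    Complex.exp (L 0 x) = (∏ m ∈ Finset.range M, (1 + x ^ (3 * m + 1))⁻¹) * Complex.exp (L M x) := by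
  induction M with
  | zero => simp
  | succ M ih => rw [ih, L_step hτ hx, Finset.prod_range_succ]; ring

/-- the value of the generating function -/
lemma F_eq {x : ℂ} {τ : ℝ} (hτ : 0 < τ) (hx : ‖x‖ = Real.exp (-τ)) :
    ∑' n, a ℂ n * x ^ n = Complex.exp (∑' i, g i x) := by
  have hx1 : ‖x‖ < 1 := by rw [hx]; exact exp_lt_one' (by linarith)
  have h1 := (tendsto_prod hx1).mul ((Complex.continuous_exp.tendsto 0).comp (L_tendsto hτ hx))
  have h2 : Tendsto (fun _ : ℕ => Complex.exp (L 0 x)) atTop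
      (𝓝 ((∑' n, a ℂ n * x ^ n) * Complex.exp 0)) :=
    h1.congr fun M => by rw [Function.comp, ← L_prod hτ hx M]
  have h3 := tendsto_nhds_unique h2 tendsto_const_nhds
  rw [Complex.exp_zero, mul_one] at h3
  rw [h3]
  unfold L
  simp

/-! ### the limit along rays -/

/-- the limit of `τ g_i(ζ e^(-τ s))` -/
noncomputable def T (ζ s : ℂ) (i : ℕ) : ℂ :=
  if ζ ^ (3 * (i + 1)) = 1 then (-ζ) ^ (i + 1) / (3 * ((i : ℂ) + 1) ^ 2 * s) else 0

lemma norm_ray {ζ s : ℂ} (hζ : ‖ζ‖ = 1) (hs : s.re = 1) (τ : ℝ) :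
    ‖ζ * Complex.exp (-(τ * s))‖ = Real.exp (-τ) := by
  rw [norm_mul, hζ, one_mul, Complex.norm_exp]
  congr 1
  simp [hs]

lemma tendsto_term {ζ s : ℂ} (hs : s.re = 1) (i : ℕ) :
    Tendsto (fun τ : ℝ => (τ : ℂ) * g i (ζ * Complex.exp (-(τ * s)))) (𝓝[>] 0)
      (𝓝 (T ζ s i)) := by
  have hs0 : s ≠ 0 := by rintro rfl; simp at hs
  have hi : ((i : ℂ) + 1) ≠ 0 := Nat.cast_add_one_ne_zero i
  have hc : Tendsto (fun τ : ℝ => Complex.exp (-(τ * s))) (𝓝[>] 0) (𝓝 1) := by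
    have : Continuous fun τ : ℝ => Complex.exp (-(τ * s)) := by fun_prop
    have h := this.tendsto 0
    simp only [Complex.ofReal_zero, zero_mul, neg_zero, Complex.exp_zero] at h
    exact h.mono_left nhdsWithin_le_nhds
  have hcx : Tendsto (fun τ : ℝ => ζ * Complex.exp (-(τ * s))) (𝓝[>] 0) (𝓝 ζ) := by
    simpa using hc.const_mul ζ
  have hτ : Tendsto (fun τ : ℝ => (τ : ℂ)) (𝓝[>] 0) (𝓝 0) := by
    have h := (Complex.continuous_ofReal.tendsto 0)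
    rw [Complex.ofReal_zero] at h
    exact h.mono_left nhdsWithin_le_nhds
  unfold T g
  split_ifs with hz
  · -- derivative
    set b : ℂ := 3 * ((i : ℂ) + 1) * s with hb
    have hb0 : b ≠ 0 := by rw [hb]; exact mul_ne_zero (mul_ne_zero (by norm_num) hi) hs0
    have hd : HasDerivAt (fun τ : ℝ => Complex.exp (-(τ * b))) (-b) 0 := by
      have h1 : HasDerivAt (fun τ : ℝ => -((τ : ℂ) * b)) (-b) 0 := by
        have h0 := ((hasDerivAt_id (0 : ℝ)).ofReal_comp.mul_const b).neg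
        simp only [id, Complex.ofReal_one, one_mul] at h0
        exact h0
      have := h1.cexp
      simpa using this
    have h2 := hd.tendsto_slope_zero_right
    have h3 : Tendsto (fun τ : ℝ => ((τ : ℂ)⁻¹ * (1 - Complex.exp (-(τ * b))))⁻¹) (𝓝[>] 0)
        (𝓝 b⁻¹) := by
      apply Tendsto.inv₀ _ hb0
      have h4 := h2.neg
      rw [neg_neg] at h4
      refine h4.congr fun τ => ?_
      simp only [zero_add, Complex.ofReal_zero, zero_mul, neg_zero, Complex.exp_zero,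
        Complex.real_smul, Complex.ofReal_inv]
      ring
    have h5 : Tendsto (fun τ : ℝ => (-1) ^ (i + 1) / ((i : ℂ) + 1) *
        ((ζ * Complex.exp (-(τ * s))) ^ (i + 1) *
          ((τ : ℂ)⁻¹ * (1 - Complex.exp (-(τ * b))))⁻¹)) (𝓝[>] 0)
        (𝓝 ((-1) ^ (i + 1) / ((i : ℂ) + 1) * (ζ ^ (i + 1) * b⁻¹))) :=
      ((hcx.pow (i + 1)).mul h3).const_mul _
    have h6 : (-1) ^ (i + 1) / ((i : ℂ) + 1) * (ζ ^ (i + 1) * b⁻¹) =
        (-ζ) ^ (i + 1) / (3 * ((i : ℂ) + 1) ^ 2 * s) := by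
      rw [neg_pow ζ, hb]
      field_simp
    rw [h6] at h5
    refine h5.congr' ?_
    filter_upwards [self_mem_nhdsWithin] with τ hτ
    have hτ0 : (τ : ℂ) ≠ 0 := by
      have : (0 : ℝ) < τ := hτ
      exact_mod_cast this.ne'
    have h7 : (ζ * Complex.exp (-(τ * s))) ^ (3 * (i + 1)) = Complex.exp (-(τ * b)) := by
      rw [mul_pow, hz, one_mul, ← Complex.exp_nat_mul]
      congr 1
      rw [hb]; push_cast; ring
    rw [h7, mul_inv, inv_inv]
    rw [div_eq_mul_inv _ (1 - Complex.exp (-(τ * b)))]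
    ring
  · have h1 : Tendsto (fun τ : ℝ => 1 - (ζ * Complex.exp (-(τ * s))) ^ (3 * (i + 1))) (𝓝[>] 0)
        (𝓝 (1 - ζ ^ (3 * (i + 1)))) := tendsto_const_nhds.sub (hcx.pow _)
    have h2 : 1 - ζ ^ (3 * (i + 1)) ≠ 0 := fun h => hz (sub_eq_zero.1 h).symm
    have h3 := hτ.mul ((((hcx.pow (i + 1)).div h1 h2)).const_mul
      ((-1) ^ (i + 1) / ((i : ℂ) + 1)))
    rw [zero_mul] at h3
    exact h3

lemma tendsto_ray {ζ s : ℂ} (hζ : ‖ζ‖ = 1) (hs : s.re = 1) :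
    Tendsto (fun τ : ℝ => (τ : ℂ) * ∑' i, g i (ζ * Complex.exp (-(τ * s)))) (𝓝[>] 0)
      (𝓝 (∑' i, T ζ s i)) := by
  have h1 : Tendsto (fun τ : ℝ => ∑' i, (τ : ℂ) * g i (ζ * Complex.exp (-(τ * s)))) (𝓝[>] 0)
      (𝓝 (∑' i, T ζ s i)) := by
    apply tendsto_tsum_of_dominated_convergence summable_sq (fun i => tendsto_term hs i)
    filter_upwards [self_mem_nhdsWithin] with τ hτ
    intro i
    have hτ' : (0 : ℝ) < τ := hτ
    have h2 := g_bound hτ' (norm_ray hζ hs τ) i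
    rw [norm_mul, Complex.norm_real, Real.norm_of_nonneg hτ'.le]
    calc τ * ‖g i (ζ * Complex.exp (-(τ * s)))‖ ≤ τ * (1 / τ * (1 / ((i : ℝ) + 1) ^ 2)) :=
          mul_le_mul_of_nonneg_left h2 hτ'.le
      _ = _ := by field_simp
  refine h1.congr fun τ => ?_
  rw [tsum_mul_left]

end Pool.Agent.R504.SignLog
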