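import Mathlib

set_option autoImplicit false

/-!
# Valuations of exponential sums `∑ c_t (2t+1)^j`
-/

namespace Pool.Agent.R504.StirGen

/-! ### the formula for the Stirling numbers -/

/-- `∑ (-1)^(k+i) C(k,i) i^n` -/
def A (k n : ℕ) : ℤ := ∑ i ∈ Finset.range (k + 1), (-1) ^ (k + i) * (k.choose i : ℤ) * (i : ℤ) ^ n

lemma A_succ (k n : ℕ) : A (k + 1) (n + 1) = (k + 1) * (A (k + 1) n + A k n) := by
  have h1 : A (k + 1) (n + 1) = ∑ i ∈ Finset.range (k + 1), (k + 1 : ℤ) * ((-1) ^ (k + i) *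
      (k.choose i : ℤ) * ((i : ℤ) + 1) ^ n) := by
    unfold A
    rw [Finset.sum_range_succ' _ (k + 1)]
    rw [Nat.cast_zero, zero_pow (by omega), mul_zero, add_zero]
    apply Finset.sum_congr rfl
    intro i _
    have h2 := Nat.add_one_mul_choose_eq k i
    have h3 : ((k : ℤ) + 1) * (k.choose i : ℤ) = ((k + 1).choose (i + 1) : ℤ) * ((i : ℤ) + 1) := by
      exact_mod_cast h2
    have h4 : (-1 : ℤ) ^ (k + 1 + (i + 1)) = (-1) ^ (k + i) := by
      rw [show k + 1 + (i + 1) = k + i + 2 by ring, pow_add]; norm_num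
    rw [h4, pow_succ]
    push_cast
    linear_combination (-((-1 : ℤ) ^ (k + i) * ((i : ℤ) + 1) ^ n)) * h3
  have h5 : A (k + 1) n + A k n = ∑ i ∈ Finset.range (k + 1), ((-1) ^ (k + i) *
      (k.choose i : ℤ) * ((i : ℤ) + 1) ^ n) := by
    have h6 : A k n = ∑ i ∈ Finset.range (k + 2), (-1) ^ (k + i) * (k.choose i : ℤ) *
        (i : ℤ) ^ n := by
      unfold A
      rw [Finset.sum_range_succ _ (k + 1), Nat.choose_succ_self]
      simp
    rw [h6]
    unfold A
    rw [← Finset.sum_add_distrib, Finset.sum_range_succ' _ (k + 1)]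
    have h7 : (-1 : ℤ) ^ (k + 1 + 0) * ((k + 1).choose 0 : ℤ) * ((0 : ℕ) : ℤ) ^ n +
        (-1) ^ (k + 0) * (k.choose 0 : ℤ) * ((0 : ℕ) : ℤ) ^ n = 0 := by
      rw [Nat.choose_zero_right, Nat.choose_zero_right, add_zero, add_zero, pow_succ]
      ring
    rw [h7, add_zero]
    apply Finset.sum_congr rfl
    intro i _
    have h8 : ((k + 1).choose (i + 1) : ℤ) = (k.choose i : ℤ) + (k.choose (i + 1) : ℤ) := by
      exact_mod_cast Nat.choose_succ_succ k i
    rw [h8]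
    have h9 : (-1 : ℤ) ^ (k + 1 + (i + 1)) = (-1) ^ (k + i) := by
      rw [show k + 1 + (i + 1) = k + i + 2 by ring, pow_add]; norm_num
    have h10 : (-1 : ℤ) ^ (k + (i + 1)) = - (-1) ^ (k + i) := by
      rw [show k + (i + 1) = k + i + 1 by ring, pow_succ]; ring
    rw [h9, h10]
    push_cast
    ring
  rw [h1, h5, Finset.mul_sum]

lemma stirling_eq (n : ℕ) : ∀ k, (k.factorial : ℤ) * (Nat.stirlingSecond n k : ℤ) = A k n := by
  induction n with
  | zero =>
    intro k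
    have h1 : A k 0 = (-1) ^ k * ∑ i ∈ Finset.range (k + 1), ((-1) ^ i * (k.choose i : ℤ)) := by
      unfold A
      rw [Finset.mul_sum]
      apply Finset.sum_congr rfl
      intro i _
      rw [pow_zero, mul_one, pow_add]
      ring
    rw [h1, Int.alternating_sum_range_choose]
    cases k with
    | zero => simp
    | succ k => simp
  | succ n ih =>
    intro k
    cases k with
    | zero => simp [A]
    | succ k =>
      rw [A_succ, ← ih, ← ih, Nat.stirlingSecond_succ_succ, Nat.factorial_succ]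
      push_cast
      ring

/-! ### exponential sums -/

section
variable (K : ℕ) (c : ℕ → ℕ)

/-- the sum `∑ c_t (2t+1)^j` -/
def F (j : ℕ) : ℕ := ∑ t ∈ Finset.range K, c t * (2 * t + 1) ^ j

/-- iterated differences -/
def a (m n r : ℕ) : ℕ := ∑ t ∈ Finset.range K, c t * (2 * t + 1) ^ n * ((2 * t + 1) ^ 2 ^ m - 1) ^ r

lemma F_newton (m n y Y : ℕ) (hY : y < Y) :
    F K c (n + 2 ^ m * y) = ∑ r ∈ Finset.range Y, y.choose r * a K c m n r := by
  unfold F a
  simp_rw [Finset.mul_sum]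
  rw [Finset.sum_comm]
  apply Finset.sum_congr rfl
  intro t _
  have h1 : (2 * t + 1) ^ (2 ^ m * y) = ∑ r ∈ Finset.range (y + 1),
      ((2 * t + 1) ^ 2 ^ m - 1) ^ r * y.choose r := by
    have h2 := add_pow ((2 * t + 1) ^ 2 ^ m - 1) 1 y
    have h3 : (2 * t + 1) ^ 2 ^ m - 1 + 1 = (2 * t + 1) ^ 2 ^ m :=
      Nat.sub_add_cancel (Nat.one_le_pow _ _ (by omega))
    rw [h3, ← pow_mul] at h2
    rw [h2]
    apply Finset.sum_congr rfl
    intro r _
    rw [one_pow, mul_one, Nat.cast_id]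
  have h4 : ∑ r ∈ Finset.range (y + 1), ((2 * t + 1) ^ 2 ^ m - 1) ^ r * y.choose r =
      ∑ r ∈ Finset.range Y, ((2 * t + 1) ^ 2 ^ m - 1) ^ r * y.choose r := by
    apply Finset.sum_subset
    · intro r hr
      rw [Finset.mem_range] at *
      omega
    · intro r _ hr
      rw [Finset.mem_range, not_lt] at hr
      rw [Nat.choose_eq_zero_of_lt (by omega), mul_zero]
  rw [pow_add, h1, h4, ← mul_assoc, Finset.mul_sum]
  apply Finset.sum_congr rfl
  intro r _
  ring

lemma two_pow_dvd (m b : ℕ) (hm : 1 ≤ m) : 2 ^ (m + 2) ∣ (2 * b + 1) ^ 2 ^ m - 1 := by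
  induction m, hm using Nat.le_induction with
  | base =>
    have h : (2 * b + 1) ^ 2 ^ 1 - 1 = 4 * (b * (b + 1)) := by
      have : (2 * b + 1) ^ 2 ^ 1 = 4 * (b * (b + 1)) + 1 := by ring
      omega
    rw [h]
    have h2 : 2 ∣ b * (b + 1) := (Nat.even_mul_succ_self b).two_dvd
    obtain ⟨q, hq⟩ := h2
    rw [hq]
    exact ⟨q, by ring⟩
  | succ m hm ih =>
    have h1 : (2 * b + 1) ^ 2 ^ (m + 1) - 1 = ((2 * b + 1) ^ 2 ^ m - 1) * ((2 * b + 1) ^ 2 ^ m + 1) := by
      rw [pow_succ 2 m, pow_mul]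
      have h2 : 1 ≤ (2 * b + 1) ^ 2 ^ m := Nat.one_le_pow _ _ (by omega)
      obtain ⟨x, hx⟩ := Nat.exists_eq_add_of_le h2
      rw [hx]
      have h3 : (1 + x) ^ 2 = x * (1 + x + 1) + 1 := by ring
      rw [h3]
      simp
    have h4 : 2 ∣ (2 * b + 1) ^ 2 ^ m + 1 := by
      have : Odd ((2 * b + 1) ^ 2 ^ m) := Odd.pow ⟨b, rfl⟩
      exact (this.add_odd odd_one).two_dvd
    rw [h1, show m + 1 + 2 = (m + 2) + 1 by ring, pow_succ]
    exact mul_dvd_mul ih h4

lemma a_dvd (m n r : ℕ) (hm : 1 ≤ m) : 2 ^ ((m + 2) * r) ∣ a K c m n r := by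
  unfold a
  apply Finset.dvd_sum
  intro t _
  apply Dvd.dvd.mul_left
  rw [pow_mul]
  exact pow_dvd_pow_of_dvd (two_pow_dvd m t hm) r

end

/-! ### binomial coefficients -/

lemma choose_two_pow (s l : ℕ) (hl : 1 ≤ l) : 2 ^ s ∣ 2 ^ Nat.log 2 l * (2 ^ s).choose l := by
  obtain ⟨k, q, hq, hk⟩ := Nat.exists_eq_two_pow_mul_odd (show l ≠ 0 by omega)
  have h1 : l * (2 ^ s).choose l = 2 ^ s * (2 ^ s - 1).choose (l - 1) := by
    have h2 := Nat.add_one_mul_choose_eq (2 ^ s - 1) (l - 1)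
    have h3 : 1 ≤ 2 ^ s := Nat.one_le_two_pow
    rw [Nat.sub_add_cancel h3, Nat.sub_add_cancel hl] at h2
    rw [h2, mul_comm]
  have h4 : 2 ^ s ∣ 2 ^ k * (2 ^ s).choose l := by
    have h5 : 2 ^ s ∣ q * (2 ^ k * (2 ^ s).choose l) := by
      refine ⟨(2 ^ s - 1).choose (l - 1), ?_⟩
      rw [← h1]
      calc q * (2 ^ k * (2 ^ s).choose l) = (2 ^ k * q) * (2 ^ s).choose l := by ring
        _ = _ := by rw [← hk]
    apply Nat.Coprime.dvd_of_dvd_mul_left _ h5
    apply Nat.Coprime.pow_left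
    exact Nat.coprime_two_left.2 hq
  have h6 : k ≤ Nat.log 2 l := by
    apply Nat.le_log_of_pow_le (by norm_num)
    rw [hk]
    exact Nat.le_mul_of_pos_right _ hq.pos
  exact h4.trans (Nat.mul_dvd_mul_right (pow_dvd_pow 2 h6) _)

/-- `2^s` divides `2^(log r) (C(y + 2^s, r) - C(y, r))` -/
lemma choose_diff (s r y : ℕ) : ∃ e : ℕ, (y + 2 ^ s).choose r = y.choose r + e ∧
    2 ^ s ∣ 2 ^ Nat.log 2 r * e := by
  have h1 := Nat.add_choose_eq (2 ^ s) y r
  rw [add_comm (2 ^ s) y] at h1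
  rw [Finset.Nat.sum_antidiagonal_eq_sum_range_succ_mk, Finset.sum_range_succ'] at h1
  rw [Nat.choose_zero_right, one_mul, Nat.sub_zero] at h1
  refine ⟨_, by rw [h1, add_comm], ?_⟩
  rw [Finset.mul_sum]
  apply Finset.dvd_sum
  intro l hl
  rw [Finset.mem_range] at hl
  rw [← mul_assoc]
  apply Dvd.dvd.mul_right
  have h2 := choose_two_pow s (l + 1) (by omega)
  have h3 : Nat.log 2 (l + 1) ≤ Nat.log 2 r := Nat.log_mono_right (by omega)
  exact h2.trans (Nat.mul_dvd_mul_right (pow_dvd_pow 2 h3) _)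

/-! ### the two kinds of classes -/

/-- `v` is the exact exponent of two in `x` -/
def Ex (x v : ℕ) : Prop := 2 ^ v ∣ x ∧ ¬ 2 ^ (v + 1) ∣ x

section
variable (K : ℕ) (c : ℕ → ℕ)

def CondA (m n v : ℕ) : Prop := Ex (a K c m n 0) v ∧ ∀ r, 1 ≤ r → 2 ^ (v + 1) ∣ a K c m n r

def CondB (m n w : ℕ) : Prop := 2 ^ w ∣ a K c m n 0 ∧ Ex (a K c m n 1) w ∧
  ∀ r, 2 ≤ r → 2 ^ (w + 1 + Nat.log 2 r) ∣ a K c m n r

variable {K c}

lemma condA_ex {m n v : ℕ} (h : CondA K c m n v) (y : ℕ) : Ex (F K c (n + 2 ^ m * y)) v := by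
  obtain ⟨⟨h1, h2⟩, h3⟩ := h
  have h4 := F_newton K c m n y (y + 1) (by omega)
  rw [Finset.sum_range_succ', Nat.choose_zero_right, one_mul] at h4
  have h5 : 2 ^ (v + 1) ∣ ∑ r ∈ Finset.range y, y.choose (r + 1) * a K c m n (r + 1) :=
    Finset.dvd_sum fun r _ => (h3 (r + 1) (by omega)).mul_left _
  have h6 : 2 ^ v ∣ ∑ r ∈ Finset.range y, y.choose (r + 1) * a K c m n (r + 1) :=
    (pow_dvd_pow 2 (by omega)).trans h5
  rw [h4]
  exact ⟨dvd_add h6 h1, fun h => h2 ((Nat.dvd_add_right h5).1 h)⟩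

/-- the structure of a class of the second kind -/
def Star (g : ℕ → ℕ) (w : ℕ) : Prop := (∀ y, 2 ^ w ∣ g y) ∧
  ∀ y s, ∃ o : ℕ, Odd o ∧ g (y + 2 ^ s) = g y + 2 ^ (w + s) * o

lemma condB_star {m n w : ℕ} (h : CondB K c m n w) : Star (fun y => F K c (n + 2 ^ m * y)) w := by
  obtain ⟨h0, ⟨h1, h1'⟩, h2⟩ := h
  constructor
  · intro y
    simp only
    rw [F_newton K c m n y (y + 1) (by omega)]
    apply Finset.dvd_sum
    intro r _
    apply Dvd.dvd.mul_left
    match r with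
    | 0 => exact h0
    | 1 => exact h1
    | r + 2 => exact (pow_dvd_pow 2 (by omega)).trans (h2 (r + 2) (by omega))
  · intro y s
    simp only
    set Y := y + 2 ^ s + 3 with hY
    have hpos : 0 < 2 ^ s := by positivity
    have e1 := F_newton K c m n (y + 2 ^ s) Y (by omega)
    have e2 := F_newton K c m n y Y (by omega)
    choose e he1 he2 using fun r => choose_diff s r y
    have e3 : F K c (n + 2 ^ m * (y + 2 ^ s)) = F K c (n + 2 ^ m * y) +
        ∑ r ∈ Finset.range Y, e r * a K c m n r := by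
      rw [e1, e2, ← Finset.sum_add_distrib]
      apply Finset.sum_congr rfl
      intro r _
      rw [he1]
      ring
    have z0 : e 0 = 0 := by
      have := he1 0
      rw [Nat.choose_zero_right, Nat.choose_zero_right] at this
      omega
    have z1 : e 1 = 2 ^ s := by
      have := he1 1
      rw [Nat.choose_one_right, Nat.choose_one_right] at this
      omega
    have z2 : ∀ r, 2 ≤ r → 2 ^ (w + s + 1) ∣ e r * a K c m n r := by
      intro r hr
      obtain ⟨q, hq⟩ := h2 r hr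
      obtain ⟨q', hq'⟩ := he2 r
      refine ⟨q * q', ?_⟩
      rw [hq, pow_add 2 (w + 1)]
      calc e r * (2 ^ (w + 1) * 2 ^ Nat.log 2 r * q)
          = 2 ^ (w + 1) * (2 ^ Nat.log 2 r * e r) * q := by ring
        _ = 2 ^ (w + 1) * (2 ^ s * q') * q := by rw [hq']
        _ = _ := by ring
    have z3 : ∑ r ∈ Finset.range Y, e r * a K c m n r =
        ∑ r ∈ Finset.range (y + 2 ^ s + 1), e (r + 2) * a K c m n (r + 2) +
          2 ^ s * a K c m n 1 := by
      rw [hY, show y + 2 ^ s + 3 = (y + 2 ^ s + 1) + 1 + 1 by ring, Finset.sum_range_succ',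
        Finset.sum_range_succ', z0, z1]
      ring
    obtain ⟨q, hq⟩ : 2 ^ (w + s + 1) ∣ ∑ r ∈ Finset.range (y + 2 ^ s + 1),
        e (r + 2) * a K c m n (r + 2) := Finset.dvd_sum fun r _ => z2 (r + 2) (by omega)
    obtain ⟨q1, hq1⟩ := h1
    refine ⟨2 * q + q1, ?_, ?_⟩
    · apply Even.add_odd (even_two_mul q)
      by_contra hev
      rw [Nat.not_odd_iff_even] at hev
      obtain ⟨q2, hq2⟩ := hev
      apply h1'
      exact ⟨q2, by rw [hq1, hq2]; ring⟩
    · rw [e3, z3, hq, hq1]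
      ring

end

/-! ### the abstract lemma on `Star` -/

lemma star_mul {g : ℕ → ℕ} {w : ℕ} (h : Star g w) (s q y : ℕ) :
    ∃ o : ℕ, g (y + 2 ^ s * q) = g y + 2 ^ (w + s) * o := by
  induction q with
  | zero => exact ⟨0, by simp⟩
  | succ q ih =>
    obtain ⟨o, ho⟩ := ih
    obtain ⟨o', _, ho'⟩ := h.2 (y + 2 ^ s * q) s
    refine ⟨o + o', ?_⟩
    rw [show y + 2 ^ s * (q + 1) = y + 2 ^ s * q + 2 ^ s by ring, ho', ho]
    ring

/-- the residue modulo `2^s` which carries the zero -/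
lemma star_zero {g : ℕ → ℕ} {w : ℕ} (h : Star g w) (s : ℕ) :
    ∃ z < 2 ^ s, (∀ q, 2 ^ (w + s) ∣ g (z + 2 ^ s * q)) ∧
      ∀ y < 2 ^ s, y ≠ z → ∃ v, w ≤ v ∧ v < w + s ∧ ∀ q, Ex (g (y + 2 ^ s * q)) v := by
  induction s with
  | zero =>
    refine ⟨0, by norm_num, fun q => by simpa using h.1 _, fun y hy hne => ?_⟩
    simp at hy
    exact absurd hy hne
  | succ s ih =>
    obtain ⟨z, hz, h1, h2⟩ := ih
    -- the two candidates
    have hcase : ∃ z' z'', ((z' = z ∧ z'' = z + 2 ^ s) ∨ (z' = z + 2 ^ s ∧ z'' = z)) ∧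
        2 ^ (w + s + 1) ∣ g z' ∧ ¬ 2 ^ (w + s + 1) ∣ g z'' ∧ 2 ^ (w + s) ∣ g z'' := by
      obtain ⟨o, ho, hgo⟩ := h.2 z s
      have hz1 := h1 0
      rw [mul_zero, add_zero] at hz1
      obtain ⟨p, hp⟩ := hz1
      obtain ⟨o', ho'⟩ := ho
      rcases Nat.even_or_odd p with hpe | hpo
      · obtain ⟨p', hp'⟩ := hpe
        refine ⟨z, z + 2 ^ s, Or.inl ⟨rfl, rfl⟩, ⟨p', by rw [hp, hp']; ring⟩, ?_, ?_⟩
        · rw [hgo, hp, hp', ho']
          intro hd
          have : 2 ^ (w + s) * (p' + p') + 2 ^ (w + s) * (2 * o' + 1) =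
            2 ^ (w + s + 1) * (p' + o') + 2 ^ (w + s) := by ring
          rw [this] at hd
          have h3 := (Nat.dvd_add_right (Dvd.intro _ rfl)).1 hd
          have h4 := Nat.le_of_dvd (by positivity) h3
          rw [pow_succ] at h4
          have h5 : 0 < 2 ^ (w + s) := by positivity
          omega
        · rw [hgo, hp]
          exact dvd_add (Dvd.intro _ rfl) (Dvd.intro _ rfl)
      · obtain ⟨p', hp'⟩ := hpo
        refine ⟨z + 2 ^ s, z, Or.inr ⟨rfl, rfl⟩, ⟨p' + o' + 1, by rw [hgo, hp, hp', ho']; ring⟩,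
          ?_, ⟨p, hp⟩⟩
        rw [hp, hp']
        intro hd
        have : 2 ^ (w + s) * (2 * p' + 1) = 2 ^ (w + s + 1) * p' + 2 ^ (w + s) := by ring
        rw [this] at hd
        have h3 := (Nat.dvd_add_right (Dvd.intro _ rfl)).1 hd
        have h4 := Nat.le_of_dvd (by positivity) h3
        rw [pow_succ] at h4
        have h5 : 0 < 2 ^ (w + s) := by positivity
        omega
    obtain ⟨z', z'', hor, hd', hn'', hd''⟩ := hcase
    have hz'lt : z' < 2 ^ (s + 1) := by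
      rw [pow_succ]
      rcases hor with ⟨h3, _⟩ | ⟨h3, _⟩ <;> omega
    refine ⟨z', hz'lt, fun q => ?_, fun y hy hne => ?_⟩
    · obtain ⟨o, ho⟩ := star_mul h (s + 1) q z'
      rw [ho, ← add_assoc]
      exact dvd_add hd' (Dvd.intro _ rfl)
    · by_cases hy2 : y = z''
      · subst hy2
        refine ⟨w + s, by omega, by omega, fun q => ?_⟩
        obtain ⟨o, ho⟩ := star_mul h (s + 1) q y
        rw [ho, ← add_assoc]
        constructor
        · exact dvd_add hd'' ((pow_dvd_pow 2 (by omega)).trans (Dvd.intro _ rfl))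
        · intro hd
          exact hn'' ((Nat.dvd_add_left (Dvd.intro _ rfl)).1 hd)
      · -- `y` is not above `z`
        have hmod : y % 2 ^ s ≠ z := by
          intro h3
          have h4 := Nat.mod_add_div y (2 ^ s)
          have h5 : y / 2 ^ s < 2 := by
            rw [Nat.div_lt_iff_lt_mul (by positivity)]
            rw [pow_succ] at hy
            omega
          rw [h3] at h4
          have h6 : y / 2 ^ s = 0 ∨ y / 2 ^ s = 1 := by
            clear h4
            interval_cases (y / 2 ^ s)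
            · exact Or.inl rfl
            · exact Or.inr rfl
          rcases h6 with h6 | h6 <;> rw [h6] at h4 <;> rcases hor with ⟨h7, h8⟩ | ⟨h7, h8⟩
          · apply hne; rw [h7]; omega
          · apply hy2; rw [h8]; omega
          · apply hy2; rw [h8]; omega
          · apply hne; rw [h7]; omega
        obtain ⟨v, hv1, hv2, hv3⟩ := h2 (y % 2 ^ s) (Nat.mod_lt _ (by positivity)) hmod
        refine ⟨v, hv1, by omega, fun q => ?_⟩
        have h3 := hv3 (y / 2 ^ s + 2 * q)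
        have h4 := Nat.mod_add_div y (2 ^ s)
        have h5 : y % 2 ^ s + 2 ^ s * (y / 2 ^ s + 2 * q) = y + 2 ^ (s + 1) * q := by
          rw [mul_add, ← add_assoc, h4, pow_succ]
          ring
        rwa [h5] at h3

/-- arbitrarily large elements with different valuations above the residue of the zero -/
lemma star_nonconst {g : ℕ → ℕ} {w : ℕ} (h : Star g w) (s z B : ℕ)
    (hz : ∀ q, 2 ^ (w + s) ∣ g (z + 2 ^ s * q)) :
    ∃ q q' v v', B ≤ q ∧ B ≤ q' ∧ v < v' ∧ v' ≤ w + s + 1 ∧ Ex (g (z + 2 ^ s * q)) v ∧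
      Ex (g (z + 2 ^ s * q')) v' := by
  -- split at level s + 1 and s + 2
  have hsplit : ∀ (s z : ℕ), (∀ q, 2 ^ (w + s) ∣ g (z + 2 ^ s * q)) →
      ∃ e e' : ℕ, e < 2 ∧ e' < 2 ∧ (∀ q, Ex (g (z + 2 ^ s * e + 2 ^ (s + 1) * q)) (w + s)) ∧
        (∀ q, 2 ^ (w + (s + 1)) ∣ g (z + 2 ^ s * e' + 2 ^ (s + 1) * q)) := by
    intro s z hz
    obtain ⟨o, ho, hgo⟩ := h.2 z s
    have hz1 := hz 0
    rw [mul_zero, add_zero] at hz1
    obtain ⟨p, hp⟩ := hz1
    obtain ⟨o', ho'⟩ := ho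
    have key : ∀ x : ℕ, ¬ 2 ^ (w + s + 1) ∣ 2 ^ (w + s + 1) * x + 2 ^ (w + s) := by
      intro x hd
      have h3 := (Nat.dvd_add_right (Dvd.intro _ rfl)).1 hd
      have h4 := Nat.le_of_dvd (by positivity) h3
      rw [pow_succ] at h4
      have h5 : 0 < 2 ^ (w + s) := by positivity
      omega
    rcases Nat.even_or_odd p with hpe | hpo
    · obtain ⟨p', hp'⟩ := hpe
      refine ⟨1, 0, by norm_num, by norm_num, fun q => ?_, fun q => ?_⟩
      · obtain ⟨o2, ho2⟩ := star_mul h (s + 1) q (z + 2 ^ s * 1)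
        rw [ho2, mul_one, hgo, hp, hp', ho']
        have : 2 ^ (w + s) * (p' + p') + 2 ^ (w + s) * (2 * o' + 1) + 2 ^ (w + (s + 1)) * o2 =
            2 ^ (w + s + 1) * (p' + o' + o2) + 2 ^ (w + s) := by ring
        rw [this]
        exact ⟨dvd_add ((pow_dvd_pow 2 (by omega)).trans (Dvd.intro _ rfl)) dvd_rfl, key _⟩
      · obtain ⟨o2, ho2⟩ := star_mul h (s + 1) q z
        rw [mul_zero, add_zero, ho2, hp, hp']
        exact ⟨p' + o2, by ring⟩
    · obtain ⟨p', hp'⟩ := hpo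
      refine ⟨0, 1, by norm_num, by norm_num, fun q => ?_, fun q => ?_⟩
      · obtain ⟨o2, ho2⟩ := star_mul h (s + 1) q z
        rw [mul_zero, add_zero, ho2, hp, hp']
        have : 2 ^ (w + s) * (2 * p' + 1) + 2 ^ (w + (s + 1)) * o2 =
            2 ^ (w + s + 1) * (p' + o2) + 2 ^ (w + s) := by ring
        rw [this]
        exact ⟨dvd_add ((pow_dvd_pow 2 (by omega)).trans (Dvd.intro _ rfl)) dvd_rfl, key _⟩
      · obtain ⟨o2, ho2⟩ := star_mul h (s + 1) q (z + 2 ^ s * 1)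
        rw [ho2, mul_one, hgo, hp, hp', ho']
        exact ⟨p' + o' + 1 + o2, by ring⟩
  obtain ⟨e1, e1', _, _, h1, h1'⟩ := hsplit s z hz
  obtain ⟨e2, e2', _, _, h2, _⟩ := hsplit (s + 1) (z + 2 ^ s * e1') h1'
  refine ⟨e1 + 2 * B, e1' + 2 * e2 + 4 * B, w + s, w + (s + 1), by omega, by omega, by omega,
    by omega, ?_, ?_⟩
  · have := h1 B
    rw [show z + 2 ^ s * e1 + 2 ^ (s + 1) * B = z + 2 ^ s * (e1 + 2 * B) by rw [pow_succ]; ring]
      at this
    exact this
  · have := h2 B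
    rw [show z + 2 ^ s * e1' + 2 ^ (s + 1) * e2 + 2 ^ (s + 1 + 1) * B =
      z + 2 ^ s * (e1' + 2 * e2 + 4 * B) by rw [pow_succ, pow_succ]; ring] at this
    exact this

end Pool.Agent.R504.StirGen
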