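import Mathlib

set_option autoImplicit false

/-!
# A combinatorial core for temporal colourings with six colours

`Fam S`: a family `S` of colour sequences that contains a palette (six sequences whose values are
pairwise different at the times `2, …, 9`) and that answers every choice `s 1, …, s 10` of members
by a sequence which avoids them locally and whose consecutive pairs all occur in `S`. No such
family exists.
-/

namespace Pool.Agent.R504.TempFam

/-- the six colours -/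
abbrev C := Fin 6

/-- colour sequences -/
abbrev Sq := ℕ → C

/-- the pair `(a, b)` occurs at the times `t, t + 1` -/
def E (S : Set Sq) (t : ℕ) (a b : C) : Prop := ∃ v ∈ S, v t = a ∧ v (t + 1) = b

/-- see the module comment -/
structure Fam (S : Set Sq) : Prop where
  pal : ∃ p : C → Sq, (∀ i, p i ∈ S) ∧ ∀ t, 2 ≤ t → t ≤ 9 → Function.Injective fun i => p i t
  resp : ∀ s : ℕ → Sq, (∀ i, s i ∈ S) → ∃ x : Sq,
    (∀ t, 2 ≤ t → t ≤ 8 → E S t (x t) (x (t + 1))) ∧
    ∀ u, 1 ≤ u → u ≤ 8 → x (u + 1) ≠ s u u ∧ x (u + 1) ≠ s u (u + 1) ∧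
      x (u + 1) ≠ s (u + 1) u ∧ x (u + 1) ≠ s (u + 1) (u + 1) ∧ x (u + 1) ≠ s (u + 1) (u + 2) ∧
      x (u + 1) ≠ s (u + 2) (u + 1) ∧ x (u + 1) ≠ s (u + 2) (u + 2)

lemma surj {S : Set Sq} (h : Fam S) {t : ℕ} (h1 : 2 ≤ t) (h2 : t ≤ 9) (a : C) :
    ∃ v ∈ S, v t = a := by
  obtain ⟨p, hp, hinj⟩ := h.pal
  obtain ⟨i, hi⟩ := Finite.injective_iff_surjective.mp (hinj t h1 h2) a
  exact ⟨p i, hp i, hi⟩

lemma eq_of_ne {g : C → C} (hg : Function.Injective g) {x : C} (i : C)
    (h : ∀ j, j ≠ i → x ≠ g j) : x = g i := by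
  obtain ⟨j, rfl⟩ := Finite.injective_iff_surjective.mp hg x
  by_contra hne
  exact h j (fun h' => hne (by rw [h'])) rfl

/-- the answer to four consecutive choices -/
lemma resp4 {S : Set Sq} (h : Fam S) {k : ℕ} (hk : 1 ≤ k) (hk' : k ≤ 7) {v1 v2 v3 v4 : Sq}
    (m1 : v1 ∈ S) (m2 : v2 ∈ S) (m3 : v3 ∈ S) (m4 : v4 ∈ S) :
    ∃ x y : C, E S (k + 1) x y ∧
      (x ≠ v1 k ∧ x ≠ v1 (k + 1) ∧ x ≠ v2 k ∧ x ≠ v2 (k + 1) ∧ x ≠ v2 (k + 2) ∧ x ≠ v3 (k + 1) ∧
        x ≠ v3 (k + 2)) ∧
      (y ≠ v2 (k + 1) ∧ y ≠ v2 (k + 2) ∧ y ≠ v3 (k + 1) ∧ y ≠ v3 (k + 2) ∧ y ≠ v3 (k + 3) ∧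
        y ≠ v4 (k + 2) ∧ y ≠ v4 (k + 3)) := by
  obtain ⟨x, hx1, hx2⟩ := h.resp
    (fun i => if i = k then v1 else if i = k + 1 then v2 else if i = k + 2 then v3 else v4)
    (fun i => by beta_reduce; split_ifs <;> assumption)
  refine ⟨x (k + 1), x (k + 2), hx1 (k + 1) (by omega) (by omega), ?_, ?_⟩
  · have := hx2 k hk (by omega)
    simpa using this
  · have := hx2 (k + 1) (by omega) (by omega)
    simpa [add_assoc] using this

lemma third_pair {S : Set Sq} (h : Fam S) {k : ℕ} (hk : 1 ≤ k) (hk' : k ≤ 7) {g : C → C}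
    (hg : Function.Injective g) (h01 : E S (k + 1) (g 0) (g 1)) (h23 : E S (k + 1) (g 2) (g 3)) :
    E S (k + 1) (g 5) (g 4) := by
  obtain ⟨v2, m2, a2, b2⟩ := h01
  obtain ⟨v3, m3, a3, b3⟩ := h23
  obtain ⟨v1, m1, a1⟩ := surj h (t := k + 1) (by omega) (by omega) (g 4)
  obtain ⟨v4, m4, a4⟩ := surj h (t := k + 2) (by omega) (by omega) (g 5)
  obtain ⟨x, y, hE, hx, hy⟩ := resp4 h hk hk' m1 m2 m3 m4
  rw [a1, a2, b2, a3, b3] at hx
  rw [a2, b2, a3, b3, a4] at hy
  have ex : x = g 5 := by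
    apply eq_of_ne hg
    intro j hj
    fin_cases j
    · exact hx.2.2.2.1
    · exact hx.2.2.2.2.1
    · exact hx.2.2.2.2.2.1
    · exact hx.2.2.2.2.2.2
    · exact hx.2.1
    · exact absurd rfl hj
  have ey : y = g 4 := by
    apply eq_of_ne hg
    intro j hj
    fin_cases j
    · exact hy.1
    · exact hy.2.1
    · exact hy.2.2.1
    · exact hy.2.2.2.1
    · exact absurd rfl hj
    · exact hy.2.2.2.2.2.1
  rw [← ex, ← ey]
  exact hE

lemma into {S : Set Sq} (h : Fam S) {k : ℕ} (hk : 1 ≤ k) (hk' : k ≤ 6) {g : C → C}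
    (hg : Function.Injective g) (h01 : E S (k + 2) (g 0) (g 1)) (h23 : E S (k + 2) (g 2) (g 3)) :
    E S (k + 1) (g 1) (g 5) ∨ E S (k + 1) (g 2) (g 5) ∨ E S (k + 1) (g 3) (g 5) := by
  obtain ⟨v3, m3, a3, b3⟩ := h01
  obtain ⟨v4, m4, a4, b4⟩ := h23
  obtain ⟨v1, m1, a1⟩ := surj h (t := k + 1) (by omega) (by omega) (g 5)
  obtain ⟨v2, m2, a2⟩ := surj h (t := k + 2) (by omega) (by omega) (g 4)
  obtain ⟨x, y, hE, hx, hy⟩ := resp4 h hk (by omega) m1 m2 m3 m4
  have b3' : v3 (k + 3) = g 1 := b3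
  have b4' : v4 (k + 3) = g 3 := b4
  rw [a1, a2, a3] at hx
  rw [a2, a3, b3', a4, b4'] at hy
  have ey : y = g 5 := by
    apply eq_of_ne hg
    intro j hj
    fin_cases j
    · exact hy.2.2.2.1
    · exact hy.2.2.2.2.1
    · exact hy.2.2.2.2.2.1
    · exact hy.2.2.2.2.2.2
    · exact hy.2.1
    · exact absurd rfl hj
  obtain ⟨m, hm⟩ := Finite.injective_iff_surjective.mp hg x
  subst ey
  subst hm
  have n5 : m ≠ 5 := fun h' => hx.2.1 (by rw [h'])
  have n4 : m ≠ 4 := fun h' => hx.2.2.2.2.1 (by rw [h'])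
  have n0 : m ≠ 0 := fun h' => hx.2.2.2.2.2.2 (by rw [h'])
  clear hx hy
  fin_cases m
  · exact absurd rfl n0
  · exact Or.inl hE
  · exact Or.inr (Or.inl hE)
  · exact Or.inr (Or.inr hE)
  · exact absurd rfl n4
  · exact absurd rfl n5

lemma kill {S : Set Sq} (h : Fam S) {k : ℕ} (hk : 1 ≤ k) (hk' : k ≤ 6) {g : C → C}
    (hg : Function.Injective g) (h01 : E S (k + 1) (g 0) (g 1)) (h23 : E S (k + 1) (g 2) (g 3))
    (h45 : E S (k + 2) (g 4) (g 5)) : False := by
  obtain ⟨v1, m1, a1, b1⟩ := h01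
  obtain ⟨v2, m2, a2, b2⟩ := h23
  obtain ⟨v3, m3, a3, b3⟩ := h45
  obtain ⟨x, y, hE, hx, hy⟩ := resp4 h (k := k + 1) (by omega) (by omega) m1 m2 m3 m3
  have b1' : v1 (k + 2) = g 1 := b1
  have b2' : v2 (k + 2) = g 3 := b2
  have b3' : v3 (k + 3) = g 5 := b3
  have hx1 := hx.1
  have hx2 := hx.2.1
  have hx3 := hx.2.2.1
  have hx4 := hx.2.2.2.1
  have hx5 := hx.2.2.2.2.2.1
  have hx6 := hx.2.2.2.2.2.2
  rw [show k + 1 + 1 = k + 2 by rfl] at hx2 hx4 hx5
  rw [show k + 1 + 2 = k + 3 by rfl] at hx6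
  rw [a1] at hx1
  rw [b1'] at hx2
  rw [a2] at hx3
  rw [b2'] at hx4
  rw [a3] at hx5
  rw [b3'] at hx6
  obtain ⟨m, hm⟩ := Finite.injective_iff_surjective.mp hg x
  subst hm
  fin_cases m
  · exact hx1 rfl
  · exact hx2 rfl
  · exact hx3 rfl
  · exact hx4 rfl
  · exact hx5 rfl
  · exact hx6 rfl

set_option synthInstance.maxSize 8192 in
lemma bool_core : ∀ b02 b03 b04 b05 b12 b13 b14 b15 b24 b25 b34 b35 : Bool,
    !(b02 && b13) →
    !(b03 && b12) →
    !(b04 && b15) →
    !(b05 && b14) →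
    !(b24 && b35) →
    !(b25 && b34) →
    (b03 || b04 || b05) →
    (b02 || b04 || b05) →
    (b05 || b02 || b03) →
    (b04 || b02 || b03) →
    (b13 || b14 || b15) →
    (b12 || b14 || b15) →
    (b15 || b12 || b13) →
    (b14 || b12 || b13) →
    (b12 || b24 || b25) →
    (b02 || b24 || b25) →
    (b25 || b02 || b12) →
    (b24 || b02 || b12) →
    (b13 || b34 || b35) →
    (b03 || b34 || b35) →
    (b35 || b03 || b13) →
    (b34 || b03 || b13) →
    (b14 || b24 || b34) →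
    (b04 || b24 || b34) →
    (b34 || b04 || b14) →
    (b24 || b04 || b14) →
    (b15 || b25 || b35) →
    (b05 || b25 || b35) →
    (b35 || b05 || b15) →
    (b25 || b05 || b15) →
    False := by
  decide +kernel

/-- two disjoint non-loop pairs at one step are impossible -/
lemma no_two_aux {S : Set Sq} (h : Fam S) {k : ℕ} (hk : 1 ≤ k) (hk' : k ≤ 6) {g : C → C}
    (hg : Function.Injective g) (h01 : E S (k + 2) (g 0) (g 1)) (h23 : E S (k + 2) (g 2) (g 3)) :
    False := by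
  classical
  have s1 := third_pair h (by omega : 1 ≤ k + 1) (by omega) hg h01 h23
  have h54 : E S (k + 2) (g 5) (g 4) := s1
  have h45 : E S (k + 2) (g 4) (g 5) := third_pair h (by omega : 1 ≤ k + 1) (by omega) (hg.comp (by decide : Function.Injective (![0, 1, 2, 3, 5, 4] : C → C))) h01 h23
  have h10 : E S (k + 2) (g 1) (g 0) := third_pair h (by omega : 1 ≤ k + 1) (by omega) (hg.comp (by decide : Function.Injective (![2, 3, 4, 5, 0, 1] : C → C))) h23 h45
  have h32 : E S (k + 2) (g 3) (g 2) := third_pair h (by omega : 1 ≤ k + 1) (by omega) (hg.comp (by decide : Function.Injective (![0, 1, 4, 5, 2, 3] : C → C))) h01 h45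
  let A : C → C → Bool := fun i j => decide (E S (k + 1) (g i) (g j) ∨ E S (k + 1) (g j) (g i))
  have hA : ∀ i j, A i j = true ↔ (E S (k + 1) (g i) (g j) ∨ E S (k + 1) (g j) (g i)) :=
    fun i j => decide_eq_true_iff
  have e0 : !(A 0 2 && A 1 3) := by
    rw [Bool.not_eq_true', Bool.and_eq_false_iff, ← Bool.not_eq_true, ← Bool.not_eq_true, hA, hA,
      ← not_and_or]
    rintro ⟨q1 | q1, q2 | q2⟩
    · exact kill h hk hk' (hg.comp (by decide : Function.Injective (![0, 2, 1, 3, 4, 5] : C → C))) q1 q2 h45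
    · exact kill h hk hk' (hg.comp (by decide : Function.Injective (![0, 2, 3, 1, 4, 5] : C → C))) q1 q2 h45
    · exact kill h hk hk' (hg.comp (by decide : Function.Injective (![2, 0, 1, 3, 4, 5] : C → C))) q1 q2 h45
    · exact kill h hk hk' (hg.comp (by decide : Function.Injective (![2, 0, 3, 1, 4, 5] : C → C))) q1 q2 h45
  have e1 : !(A 0 3 && A 1 2) := by
    rw [Bool.not_eq_true', Bool.and_eq_false_iff, ← Bool.not_eq_true, ← Bool.not_eq_true, hA, hA,
      ← not_and_or]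
    rintro ⟨q1 | q1, q2 | q2⟩
    · exact kill h hk hk' (hg.comp (by decide : Function.Injective (![0, 3, 1, 2, 4, 5] : C → C))) q1 q2 h45
    · exact kill h hk hk' (hg.comp (by decide : Function.Injective (![0, 3, 2, 1, 4, 5] : C → C))) q1 q2 h45
    · exact kill h hk hk' (hg.comp (by decide : Function.Injective (![3, 0, 1, 2, 4, 5] : C → C))) q1 q2 h45
    · exact kill h hk hk' (hg.comp (by decide : Function.Injective (![3, 0, 2, 1, 4, 5] : C → C))) q1 q2 h45
  have e2 : !(A 0 4 && A 1 5) := by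
    rw [Bool.not_eq_true', Bool.and_eq_false_iff, ← Bool.not_eq_true, ← Bool.not_eq_true, hA, hA,
      ← not_and_or]
    rintro ⟨q1 | q1, q2 | q2⟩
    · exact kill h hk hk' (hg.comp (by decide : Function.Injective (![0, 4, 1, 5, 2, 3] : C → C))) q1 q2 h23
    · exact kill h hk hk' (hg.comp (by decide : Function.Injective (![0, 4, 5, 1, 2, 3] : C → C))) q1 q2 h23
    · exact kill h hk hk' (hg.comp (by decide : Function.Injective (![4, 0, 1, 5, 2, 3] : C → C))) q1 q2 h23
    · exact kill h hk hk' (hg.comp (by decide : Function.Injective (![4, 0, 5, 1, 2, 3] : C → C))) q1 q2 h23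
  have e3 : !(A 0 5 && A 1 4) := by
    rw [Bool.not_eq_true', Bool.and_eq_false_iff, ← Bool.not_eq_true, ← Bool.not_eq_true, hA, hA,
      ← not_and_or]
    rintro ⟨q1 | q1, q2 | q2⟩
    · exact kill h hk hk' (hg.comp (by decide : Function.Injective (![0, 5, 1, 4, 2, 3] : C → C))) q1 q2 h23
    · exact kill h hk hk' (hg.comp (by decide : Function.Injective (![0, 5, 4, 1, 2, 3] : C → C))) q1 q2 h23
    · exact kill h hk hk' (hg.comp (by decide : Function.Injective (![5, 0, 1, 4, 2, 3] : C → C))) q1 q2 h23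
    · exact kill h hk hk' (hg.comp (by decide : Function.Injective (![5, 0, 4, 1, 2, 3] : C → C))) q1 q2 h23
  have e4 : !(A 2 4 && A 3 5) := by
    rw [Bool.not_eq_true', Bool.and_eq_false_iff, ← Bool.not_eq_true, ← Bool.not_eq_true, hA, hA,
      ← not_and_or]
    rintro ⟨q1 | q1, q2 | q2⟩
    · exact kill h hk hk' (hg.comp (by decide : Function.Injective (![2, 4, 3, 5, 0, 1] : C → C))) q1 q2 h01
    · exact kill h hk hk' (hg.comp (by decide : Function.Injective (![2, 4, 5, 3, 0, 1] : C → C))) q1 q2 h01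
    · exact kill h hk hk' (hg.comp (by decide : Function.Injective (![4, 2, 3, 5, 0, 1] : C → C))) q1 q2 h01
    · exact kill h hk hk' (hg.comp (by decide : Function.Injective (![4, 2, 5, 3, 0, 1] : C → C))) q1 q2 h01
  have e5 : !(A 2 5 && A 3 4) := by
    rw [Bool.not_eq_true', Bool.and_eq_false_iff, ← Bool.not_eq_true, ← Bool.not_eq_true, hA, hA,
      ← not_and_or]
    rintro ⟨q1 | q1, q2 | q2⟩
    · exact kill h hk hk' (hg.comp (by decide : Function.Injective (![2, 5, 3, 4, 0, 1] : C → C))) q1 q2 h01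
    · exact kill h hk hk' (hg.comp (by decide : Function.Injective (![2, 5, 4, 3, 0, 1] : C → C))) q1 q2 h01
    · exact kill h hk hk' (hg.comp (by decide : Function.Injective (![5, 2, 3, 4, 0, 1] : C → C))) q1 q2 h01
    · exact kill h hk hk' (hg.comp (by decide : Function.Injective (![5, 2, 4, 3, 0, 1] : C → C))) q1 q2 h01
  have c0 : (A 0 3 || A 0 4 || A 0 5) := by
    have q := into h hk hk' (hg.comp (by decide : Function.Injective (![2, 3, 4, 5, 1, 0] : C → C))) h23 h45
    simp only [Bool.or_eq_true, hA]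
    rcases q with q | q | q
    · exact Or.inl (Or.inl (Or.inr q))
    · exact Or.inl (Or.inr (Or.inr q))
    · exact Or.inr (Or.inr q)
  have c1 : (A 0 2 || A 0 4 || A 0 5) := by
    have q := into h hk hk' (hg.comp (by decide : Function.Injective (![3, 2, 4, 5, 1, 0] : C → C))) h32 h45
    simp only [Bool.or_eq_true, hA]
    rcases q with q | q | q
    · exact Or.inl (Or.inl (Or.inr q))
    · exact Or.inl (Or.inr (Or.inr q))
    · exact Or.inr (Or.inr q)
  have c2 : (A 0 5 || A 0 2 || A 0 3) := by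
    have q := into h hk hk' (hg.comp (by decide : Function.Injective (![4, 5, 2, 3, 1, 0] : C → C))) h45 h23
    simp only [Bool.or_eq_true, hA]
    rcases q with q | q | q
    · exact Or.inl (Or.inl (Or.inr q))
    · exact Or.inl (Or.inr (Or.inr q))
    · exact Or.inr (Or.inr q)
  have c3 : (A 0 4 || A 0 2 || A 0 3) := by
    have q := into h hk hk' (hg.comp (by decide : Function.Injective (![5, 4, 2, 3, 1, 0] : C → C))) h54 h23
    simp only [Bool.or_eq_true, hA]
    rcases q with q | q | q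
    · exact Or.inl (Or.inl (Or.inr q))
    · exact Or.inl (Or.inr (Or.inr q))
    · exact Or.inr (Or.inr q)
  have c4 : (A 1 3 || A 1 4 || A 1 5) := by
    have q := into h hk hk' (hg.comp (by decide : Function.Injective (![2, 3, 4, 5, 0, 1] : C → C))) h23 h45
    simp only [Bool.or_eq_true, hA]
    rcases q with q | q | q
    · exact Or.inl (Or.inl (Or.inr q))
    · exact Or.inl (Or.inr (Or.inr q))
    · exact Or.inr (Or.inr q)
  have c5 : (A 1 2 || A 1 4 || A 1 5) := by
    have q := into h hk hk' (hg.comp (by decide : Function.Injective (![3, 2, 4, 5, 0, 1] : C → C))) h32 h45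
    simp only [Bool.or_eq_true, hA]
    rcases q with q | q | q
    · exact Or.inl (Or.inl (Or.inr q))
    · exact Or.inl (Or.inr (Or.inr q))
    · exact Or.inr (Or.inr q)
  have c6 : (A 1 5 || A 1 2 || A 1 3) := by
    have q := into h hk hk' (hg.comp (by decide : Function.Injective (![4, 5, 2, 3, 0, 1] : C → C))) h45 h23
    simp only [Bool.or_eq_true, hA]
    rcases q with q | q | q
    · exact Or.inl (Or.inl (Or.inr q))
    · exact Or.inl (Or.inr (Or.inr q))
    · exact Or.inr (Or.inr q)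
  have c7 : (A 1 4 || A 1 2 || A 1 3) := by
    have q := into h hk hk' (hg.comp (by decide : Function.Injective (![5, 4, 2, 3, 0, 1] : C → C))) h54 h23
    simp only [Bool.or_eq_true, hA]
    rcases q with q | q | q
    · exact Or.inl (Or.inl (Or.inr q))
    · exact Or.inl (Or.inr (Or.inr q))
    · exact Or.inr (Or.inr q)
  have c8 : (A 1 2 || A 2 4 || A 2 5) := by
    have q := into h hk hk' (hg.comp (by decide : Function.Injective (![0, 1, 4, 5, 3, 2] : C → C))) h01 h45
    simp only [Bool.or_eq_true, hA]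
    rcases q with q | q | q
    · exact Or.inl (Or.inl (Or.inl q))
    · exact Or.inl (Or.inr (Or.inr q))
    · exact Or.inr (Or.inr q)
  have c9 : (A 0 2 || A 2 4 || A 2 5) := by
    have q := into h hk hk' (hg.comp (by decide : Function.Injective (![1, 0, 4, 5, 3, 2] : C → C))) h10 h45
    simp only [Bool.or_eq_true, hA]
    rcases q with q | q | q
    · exact Or.inl (Or.inl (Or.inl q))
    · exact Or.inl (Or.inr (Or.inr q))
    · exact Or.inr (Or.inr q)
  have c10 : (A 2 5 || A 0 2 || A 1 2) := by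
    have q := into h hk hk' (hg.comp (by decide : Function.Injective (![4, 5, 0, 1, 3, 2] : C → C))) h45 h01
    simp only [Bool.or_eq_true, hA]
    rcases q with q | q | q
    · exact Or.inl (Or.inl (Or.inr q))
    · exact Or.inl (Or.inr (Or.inl q))
    · exact Or.inr (Or.inl q)
  have c11 : (A 2 4 || A 0 2 || A 1 2) := by
    have q := into h hk hk' (hg.comp (by decide : Function.Injective (![5, 4, 0, 1, 3, 2] : C → C))) h54 h01
    simp only [Bool.or_eq_true, hA]
    rcases q with q | q | q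
    · exact Or.inl (Or.inl (Or.inr q))
    · exact Or.inl (Or.inr (Or.inl q))
    · exact Or.inr (Or.inl q)
  have c12 : (A 1 3 || A 3 4 || A 3 5) := by
    have q := into h hk hk' (hg.comp (by decide : Function.Injective (![0, 1, 4, 5, 2, 3] : C → C))) h01 h45
    simp only [Bool.or_eq_true, hA]
    rcases q with q | q | q
    · exact Or.inl (Or.inl (Or.inl q))
    · exact Or.inl (Or.inr (Or.inr q))
    · exact Or.inr (Or.inr q)
  have c13 : (A 0 3 || A 3 4 || A 3 5) := by
    have q := into h hk hk' (hg.comp (by decide : Function.Injective (![1, 0, 4, 5, 2, 3] : C → C))) h10 h45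
    simp only [Bool.or_eq_true, hA]
    rcases q with q | q | q
    · exact Or.inl (Or.inl (Or.inl q))
    · exact Or.inl (Or.inr (Or.inr q))
    · exact Or.inr (Or.inr q)
  have c14 : (A 3 5 || A 0 3 || A 1 3) := by
    have q := into h hk hk' (hg.comp (by decide : Function.Injective (![4, 5, 0, 1, 2, 3] : C → C))) h45 h01
    simp only [Bool.or_eq_true, hA]
    rcases q with q | q | q
    · exact Or.inl (Or.inl (Or.inr q))
    · exact Or.inl (Or.inr (Or.inl q))
    · exact Or.inr (Or.inl q)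
  have c15 : (A 3 4 || A 0 3 || A 1 3) := by
    have q := into h hk hk' (hg.comp (by decide : Function.Injective (![5, 4, 0, 1, 2, 3] : C → C))) h54 h01
    simp only [Bool.or_eq_true, hA]
    rcases q with q | q | q
    · exact Or.inl (Or.inl (Or.inr q))
    · exact Or.inl (Or.inr (Or.inl q))
    · exact Or.inr (Or.inl q)
  have c16 : (A 1 4 || A 2 4 || A 3 4) := by
    have q := into h hk hk' (hg.comp (by decide : Function.Injective (![0, 1, 2, 3, 5, 4] : C → C))) h01 h23
    simp only [Bool.or_eq_true, hA]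
    rcases q with q | q | q
    · exact Or.inl (Or.inl (Or.inl q))
    · exact Or.inl (Or.inr (Or.inl q))
    · exact Or.inr (Or.inl q)
  have c17 : (A 0 4 || A 2 4 || A 3 4) := by
    have q := into h hk hk' (hg.comp (by decide : Function.Injective (![1, 0, 2, 3, 5, 4] : C → C))) h10 h23
    simp only [Bool.or_eq_true, hA]
    rcases q with q | q | q
    · exact Or.inl (Or.inl (Or.inl q))
    · exact Or.inl (Or.inr (Or.inl q))
    · exact Or.inr (Or.inl q)
  have c18 : (A 3 4 || A 0 4 || A 1 4) := by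
    have q := into h hk hk' (hg.comp (by decide : Function.Injective (![2, 3, 0, 1, 5, 4] : C → C))) h23 h01
    simp only [Bool.or_eq_true, hA]
    rcases q with q | q | q
    · exact Or.inl (Or.inl (Or.inl q))
    · exact Or.inl (Or.inr (Or.inl q))
    · exact Or.inr (Or.inl q)
  have c19 : (A 2 4 || A 0 4 || A 1 4) := by
    have q := into h hk hk' (hg.comp (by decide : Function.Injective (![3, 2, 0, 1, 5, 4] : C → C))) h32 h01
    simp only [Bool.or_eq_true, hA]
    rcases q with q | q | q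
    · exact Or.inl (Or.inl (Or.inl q))
    · exact Or.inl (Or.inr (Or.inl q))
    · exact Or.inr (Or.inl q)
  have c20 : (A 1 5 || A 2 5 || A 3 5) := by
    have q := into h hk hk' (hg.comp (by decide : Function.Injective (![0, 1, 2, 3, 4, 5] : C → C))) h01 h23
    simp only [Bool.or_eq_true, hA]
    rcases q with q | q | q
    · exact Or.inl (Or.inl (Or.inl q))
    · exact Or.inl (Or.inr (Or.inl q))
    · exact Or.inr (Or.inl q)
  have c21 : (A 0 5 || A 2 5 || A 3 5) := by
    have q := into h hk hk' (hg.comp (by decide : Function.Injective (![1, 0, 2, 3, 4, 5] : C → C))) h10 h23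
    simp only [Bool.or_eq_true, hA]
    rcases q with q | q | q
    · exact Or.inl (Or.inl (Or.inl q))
    · exact Or.inl (Or.inr (Or.inl q))
    · exact Or.inr (Or.inl q)
  have c22 : (A 3 5 || A 0 5 || A 1 5) := by
    have q := into h hk hk' (hg.comp (by decide : Function.Injective (![2, 3, 0, 1, 4, 5] : C → C))) h23 h01
    simp only [Bool.or_eq_true, hA]
    rcases q with q | q | q
    · exact Or.inl (Or.inl (Or.inl q))
    · exact Or.inl (Or.inr (Or.inl q))
    · exact Or.inr (Or.inl q)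
  have c23 : (A 2 5 || A 0 5 || A 1 5) := by
    have q := into h hk hk' (hg.comp (by decide : Function.Injective (![3, 2, 0, 1, 4, 5] : C → C))) h32 h01
    simp only [Bool.or_eq_true, hA]
    rcases q with q | q | q
    · exact Or.inl (Or.inl (Or.inl q))
    · exact Or.inl (Or.inr (Or.inl q))
    · exact Or.inr (Or.inl q)
  exact bool_core (A 0 2) (A 0 3) (A 0 4) (A 0 5) (A 1 2) (A 1 3) (A 1 4) (A 1 5) (A 2 4) (A 2 5) (A 3 4) (A 3 5) e0 e1 e2 e3 e4 e5
    c0 c1 c2 c3 c4 c5 c6 c7 c8 c9 c10 c11 c12 c13 c14 c15 c16 c17 c18 c19 c20 c21 c22 c23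

lemma exists_ext (a b c d : C) (h1 : a ≠ b) (h2 : a ≠ c) (h3 : a ≠ d) (h4 : b ≠ c) (h5 : b ≠ d)
    (h6 : c ≠ d) : ∃ e f : C, a ≠ e ∧ b ≠ e ∧ c ≠ e ∧ d ≠ e ∧ a ≠ f ∧ b ≠ f ∧ c ≠ f ∧ d ≠ f ∧
      e ≠ f := by
  revert a b c d
  decide +kernel

lemma inj_of {a b c d e f : C} (h1 : a ≠ b) (h2 : a ≠ c) (h3 : a ≠ d) (h4 : b ≠ c) (h5 : b ≠ d)
    (h6 : c ≠ d) (h7 : a ≠ e ∧ b ≠ e ∧ c ≠ e ∧ d ≠ e ∧ a ≠ f ∧ b ≠ f ∧ c ≠ f ∧ d ≠ f ∧ e ≠ f) :
    Function.Injective (![a, b, c, d, e, f] : C → C) := by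
  obtain ⟨g1, g2, g3, g4, g5, g6, g7, g8, g9⟩ := h7
  intro i j hij
  fin_cases i <;> fin_cases j <;> first | rfl | (exfalso; simp at hij; simp_all)

/-- any two non-loop pairs at a step intersect -/
lemma no_two {S : Set Sq} (h : Fam S) {t : ℕ} (ht : 3 ≤ t) (ht' : t ≤ 8) {a b c d : C}
    (h1 : a ≠ b) (h2 : a ≠ c) (h3 : a ≠ d) (h4 : b ≠ c) (h5 : b ≠ d) (h6 : c ≠ d)
    (hab : E S t a b) (hcd : E S t c d) : False := by
  obtain ⟨k, rfl⟩ : ∃ k, t = k + 2 := ⟨t - 2, by omega⟩
  obtain ⟨e, f, h7⟩ := exists_ext a b c d h1 h2 h3 h4 h5 h6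
  exact no_two_aux h (by omega : 1 ≤ k) (by omega) (g := ![a, b, c, d, e, f])
    (inj_of h1 h2 h3 h4 h5 h6 h7) hab hcd

/-- the relation with code `m`: bit `6 a + b` of `m` says that `a, b` are related -/
def rel (m : ℕ) (a b : C) : Bool := m.testBit (6 * a.val + b.val)

/-- the codes of the six stars -/
def stars : List ℕ := [1090785406, 2181574466, 4363366660, 8738603528, 17972659216, 33831389216]

/-- the codes of the stars and the triangles -/
def types : List ℕ := [1090785406, 2181574466, 4363366660, 8738603528, 17972659216, 33831389216, 12614, 787018, 50332754, 3221227618, 1347596, 83955732, 5368844324, 155451416, 9672327208, 18807259184, 1614592, 100738304, 6442592512, 172492288, 10746333696, 19897781248, 206667776, 12894502912, 22079012864, 26453475328]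

lemma star_code : ∀ z : C, ∃ m ∈ types, ∀ a b : C, a ≠ b → (a = z ∨ b = z) → rel m a b = true := by
  decide +kernel

lemma tri_code : ∀ x y z : C, x ≠ y → x ≠ z → y ≠ z → ∃ m ∈ types, ∀ a b : C,
    a ≠ b → (a = x ∨ a = y ∨ a = z) → (b = x ∨ b = y ∨ b = z) → rel m a b = true := by
  decide +kernel

lemma meet3 : ∀ a b x p q : C, a ≠ b → a ≠ x → b ≠ x → p ≠ q →
    (a = p ∨ a = q ∨ b = p ∨ b = q) → (b = p ∨ b = q ∨ x = p ∨ x = q) →
    (a = p ∨ a = q ∨ x = p ∨ x = q) → (p = a ∨ p = b ∨ p = x) ∧ (q = a ∨ q = b ∨ q = x) := by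
  decide +kernel

lemma swap4 {p q r s : Prop} (h : p ∨ q ∨ r ∨ s) : r ∨ s ∨ p ∨ q := by
  rcases h with h | h | h | h
  · exact Or.inr (Or.inr (Or.inl h))
  · exact Or.inr (Or.inr (Or.inr h))
  · exact Or.inl h
  · exact Or.inr (Or.inl h)

/-- a family of pairwise intersecting pairs is contained in a star or in a triangle -/
lemma classify (R : C → C → Prop) (hR : ∀ a b c d : C, a ≠ b → a ≠ c → a ≠ d → b ≠ c → b ≠ d →
    c ≠ d → R a b → R c d → False) :
    ∃ m ∈ types, ∀ a b : C, a ≠ b → R a b → rel m a b = true := by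
  classical
  -- meeting
  have meet : ∀ a b c d : C, a ≠ b → c ≠ d → R a b → R c d → a = c ∨ a = d ∨ b = c ∨ b = d := by
    intro a b c d hab hcd h1 h2
    by_contra hcon
    push Not at hcon
    exact hR a b c d hab hcon.1 hcon.2.1 hcon.2.2.1 hcon.2.2.2 hcd h1 h2
  by_cases h0 : ∃ a b, a ≠ b ∧ R a b
  · obtain ⟨a, b, hab, h1⟩ := h0
    by_cases ha : ∀ c d, c ≠ d → R c d → c = a ∨ d = a
    · obtain ⟨m, hm, hm'⟩ := star_code a
      exact ⟨m, hm, fun c d hcd h => hm' c d hcd (ha c d hcd h)⟩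
    · by_cases hb : ∀ c d, c ≠ d → R c d → c = b ∨ d = b
      · obtain ⟨m, hm, hm'⟩ := star_code b
        exact ⟨m, hm, fun c d hcd h => hm' c d hcd (hb c d hcd h)⟩
      · push Not at ha hb
        obtain ⟨c, d, hcd, h2, hca, hda⟩ := ha
        obtain ⟨e, f, hef, h3, heb, hfb⟩ := hb
        -- `{c, d}` avoids `a`, `{e, f}` avoids `b`
        have k1 := meet a b c d hab hcd h1 h2
        have k2 := meet a b e f hab hef h1 h3
        have k3 := meet c d e f hcd hef h2 h3
        -- third vertex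
        obtain ⟨x, hx⟩ : ∃ x, ((c = b ∧ d = x) ∨ (d = b ∧ c = x)) := by
          rcases k1 with k | k | k | k
          · exact absurd k.symm hca
          · exact absurd k.symm hda
          · exact ⟨d, Or.inl ⟨k.symm, rfl⟩⟩
          · exact ⟨c, Or.inr ⟨k.symm, rfl⟩⟩
        have hxa : x ≠ a := by
          rcases hx with ⟨_, rfl⟩ | ⟨_, rfl⟩ <;> assumption
        have hxb : x ≠ b := by
          rcases hx with ⟨rfl, rfl⟩ | ⟨rfl, rfl⟩
          · exact hcd.symm
          · exact hcd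
        have hy : (e = a ∧ f = x) ∨ (f = a ∧ e = x) := by
          rcases hx with ⟨rfl, rfl⟩ | ⟨rfl, rfl⟩
          · rcases k2 with k | k | k | k
            · rcases k3 with k' | k' | k' | k'
              · exact absurd k'.symm heb
              · exact absurd k'.symm hfb
              · exact absurd (k.trans k'.symm).symm hda
              · exact Or.inl ⟨k.symm, k'.symm⟩
            · rcases k3 with k' | k' | k' | k'
              · exact absurd k'.symm heb
              · exact absurd k'.symm hfb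
              · exact Or.inr ⟨k.symm, k'.symm⟩
              · exact absurd (k.trans k'.symm).symm hda
            · exact absurd k.symm heb
            · exact absurd k.symm hfb
          · rcases k2 with k | k | k | k
            · rcases k3 with k' | k' | k' | k'
              · exact absurd (k.trans k'.symm).symm hca
              · exact Or.inl ⟨k.symm, k'.symm⟩
              · exact absurd k'.symm heb
              · exact absurd k'.symm hfb
            · rcases k3 with k' | k' | k' | k'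
              · exact Or.inr ⟨k.symm, k'.symm⟩
              · exact absurd (k.trans k'.symm).symm hca
              · exact absurd k'.symm heb
              · exact absurd k'.symm hfb
            · exact absurd k.symm heb
            · exact absurd k.symm hfb
        obtain ⟨m, hm, hm'⟩ := tri_code a b x hab hxa.symm hxb.symm
        refine ⟨m, hm, fun p q hpq h4 => ?_⟩
        have l1 := meet a b p q hab hpq h1 h4
        have l2 := meet c d p q hcd hpq h2 h4
        have l3 := meet e f p q hef hpq h3 h4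
        have l2' : b = p ∨ b = q ∨ x = p ∨ x = q := by
          rcases hx with ⟨e1, e2⟩ | ⟨e1, e2⟩
          · rw [e1, e2] at l2
            exact l2
          · rw [e1, e2] at l2
            exact swap4 l2
        have l3' : a = p ∨ a = q ∨ x = p ∨ x = q := by
          rcases hy with ⟨e1, e2⟩ | ⟨e1, e2⟩
          · rw [e1, e2] at l3
            exact l3
          · rw [e1, e2] at l3
            exact swap4 l3
        obtain ⟨r1, r2⟩ := meet3 a b x p q hab hxa.symm hxb.symm hpq l1 l2' l3'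
        exact hm' p q hpq r1 r2
  · push Not at h0
    obtain ⟨m, hm, -⟩ := star_code 0
    exact ⟨m, hm, fun a b hab h => absurd h (h0 a b hab)⟩

/-- if a member changes its colour at step `k + 2`, then many colours have non-loop pairs leading to
them at step `k + 1` -/
lemma step_in {S : Set Sq} (h : Fam S) {k : ℕ} (hk : 2 ≤ k) (hk' : k ≤ 6) {v : Sq} (hv : v ∈ S)
    {w q : C} (hne : v (k + 2) ≠ v (k + 3)) (hwq : w ≠ q) (hw1 : w ≠ v (k + 2))
    (hw2 : w ≠ v (k + 3)) (hq1 : q ≠ v (k + 2)) (hq2 : q ≠ v (k + 3)) :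
    ∃ u, u ≠ w ∧ u ≠ q ∧ u ≠ v (k + 2) ∧ E S (k + 1) u w := by
  obtain ⟨r1, r2, h7⟩ := exists_ext (v (k + 2)) (v (k + 3)) w q hne hw1.symm hq1.symm hw2.symm
    hq2.symm hwq
  have hg := inj_of hne hw1.symm hq1.symm hw2.symm hq2.symm hwq h7
  obtain ⟨v1, m1, a1⟩ := surj h (t := k + 1) (by omega) (by omega) w
  obtain ⟨v2, m2, a2⟩ := surj h (t := k + 2) (by omega) (by omega) q
  obtain ⟨v4, m4, a4⟩ := surj h (t := k + 2) (by omega) (by omega) r1
  obtain ⟨v5, m5, a5⟩ := surj h (t := k + 3) (by omega) (by omega) r2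
  obtain ⟨x, hx1, hx2⟩ := h.resp
    (fun i => if i = k then v1 else if i = k + 1 then v2 else if i = k + 2 then v else
      if i = k + 3 then v4 else v5)
    (fun i => by split_ifs <;> assumption)
  have y0 := hx2 k (by omega) (by omega)
  have y1 := hx2 (k + 1) (by omega) (by omega)
  have y2 := hx2 (k + 2) (by omega) (by omega)
  simp [add_assoc] at y0 y1 y2
  rw [a1, a2] at y0
  rw [a2, a4] at y1
  rw [a4, a5] at y2
  have e1 := hx1 (k + 1) (by omega) (by omega)
  have e2 := hx1 (k + 2) (by omega) (by omega)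
  have e1' : E S (k + 1) (x (k + 1)) (x (k + 2)) := e1
  have e2' : E S (k + 2) (x (k + 2)) (x (k + 3)) := e2
  have n1 : x (k + 2) ≠ v (k + 2) := y1.2.2.2.1
  have n2 : x (k + 2) ≠ v (k + 3) := y1.2.2.2.2.1
  have n3 : x (k + 3) ≠ v (k + 2) := y2.1
  have n4 : x (k + 3) ≠ v (k + 3) := y2.2.1
  have heq : x (k + 2) = x (k + 3) := by
    by_contra hcon
    exact no_two h (t := k + 2) (by omega) (by omega) hne n1.symm n3.symm n2.symm n4.symm hcon
      ⟨v, hv, rfl, rfl⟩ e2'
  have hxw : x (k + 2) = w := by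
    have hx : ∀ j, j ≠ (2 : C) →
        x (k + 2) ≠ (![v (k + 2), v (k + 3), w, q, r1, r2] : C → C) j := by
      intro j hj
      fin_cases j
      · exact n1
      · exact n2
      · exact absurd rfl hj
      · exact y1.2.1
      · exact y1.2.2.2.2.2.1
      · rw [heq]
        exact y2.2.2.2.2.2.1
    exact eq_of_ne hg 2 hx
  rw [hxw] at e1'
  exact ⟨x (k + 1), y0.2.1, y0.2.2.2.2.1, y0.2.2.2.2.2.2, e1'⟩

lemma static_core : ∀ m ∈ types, ∀ a b c : C, a ≠ b → c ≠ b →
    (∃ w q : C, w ≠ q ∧ w ≠ a ∧ w ≠ b ∧ q ≠ a ∧ q ≠ b ∧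
      ∀ u : C, u ≠ w → u ≠ q → u ≠ a → rel m u w = false) ∨
    (∃ w q : C, w ≠ q ∧ w ≠ b ∧ w ≠ c ∧ q ≠ b ∧ q ≠ c ∧
      ∀ u : C, u ≠ w → u ≠ q → u ≠ b → rel m u w = false) := by
  decide +kernel

lemma classify_step {S : Set Sq} (h : Fam S) {t : ℕ} (ht : 3 ≤ t) (ht' : t ≤ 8) :
    ∃ m ∈ types, ∀ a b : C, a ≠ b → E S t a b → rel m a b = true :=
  classify (E S t) fun _ _ _ _ h1 h2 h3 h4 h5 h6 h7 h8 => no_two h ht ht' h1 h2 h3 h4 h5 h6 h7 h8

/-- the palette is constant at the steps `4, …, 8` -/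
lemma palette_static {S : Set Sq} (h : Fam S) {p : C → Sq} (hp : ∀ i, p i ∈ S)
    (hinj : ∀ t, 2 ≤ t → t ≤ 9 → Function.Injective fun i => p i t) {k : ℕ} (hk : 2 ≤ k)
    (hk' : k ≤ 6) (i : C) : p i (k + 2) = p i (k + 3) := by
  by_contra hne
  obtain ⟨j, hj⟩ := Finite.injective_iff_surjective.mp (hinj (k + 2) (by omega) (by omega))
    (p i (k + 3))
  have hj' : p j (k + 2) = p i (k + 3) := hj
  have hij : i ≠ j := by
    rintro rfl
    exact hne hj'
  have hc : p j (k + 3) ≠ p i (k + 3) := fun h' => hij (hinj (k + 3) (by omega) (by omega) h').symm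
  obtain ⟨m, hm, hm'⟩ := classify_step h (t := k + 1) (by omega) (by omega)
  rcases static_core m hm (p i (k + 2)) (p i (k + 3)) (p j (k + 3)) hne hc with
    ⟨w, q, h1, h2, h3, h4, h5, h6⟩ | ⟨w, q, h1, h2, h3, h4, h5, h6⟩
  · obtain ⟨u, u1, u2, u3, u4⟩ := step_in h hk hk' (hp i) hne h1 h2 h3 h4 h5
    have := h6 u u1 u2 u3
    rw [hm' u w u1 u4] at this
    exact absurd this (by decide)
  · obtain ⟨u, u1, u2, u3, u4⟩ := step_in h hk hk' (hp j) (by rw [hj']; exact hc.symm) h1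
      (by rw [hj']; exact h2) h3 (by rw [hj']; exact h4) h5
    rw [hj'] at u3
    have := h6 u u1 u2 u3
    rw [hm' u w u1 u4] at this
    exact absurd this (by decide)

/-- every colour has a member that is constant at the times `4, …, 9` -/
lemma const_mem {S : Set Sq} (h : Fam S) (a : C) :
    ∃ v ∈ S, ∀ t, 4 ≤ t → t ≤ 9 → v t = a := by
  obtain ⟨p, hp, hinj⟩ := h.pal
  obtain ⟨i, hi⟩ := Finite.injective_iff_surjective.mp (hinj 4 (by omega) (by omega)) a
  have hi' : p i 4 = a := hi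
  refine ⟨p i, hp i, ?_⟩
  have h5 := palette_static h hp hinj (k := 2) (by omega) (by omega) i
  have h6 := palette_static h hp hinj (k := 3) (by omega) (by omega) i
  have h7 := palette_static h hp hinj (k := 4) (by omega) (by omega) i
  have h8 := palette_static h hp hinj (k := 5) (by omega) (by omega) i
  have h9 := palette_static h hp hinj (k := 6) (by omega) (by omega) i
  norm_num at h5 h6 h7 h8 h9
  intro t h1 h2
  have ht : t = 4 ∨ t = 5 ∨ t = 6 ∨ t = 7 ∨ t = 8 ∨ t = 9 := by omega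
  rcases ht with rfl | rfl | rfl | rfl | rfl | rfl
  · exact hi'
  · rw [← h5, hi']
  · rw [← h6, ← h5, hi']
  · rw [← h7, ← h6, ← h5, hi']
  · rw [← h8, ← h7, ← h6, ← h5, hi']
  · rw [← h9, ← h8, ← h7, ← h6, ← h5, hi']

/-- the answer to constant choices -/
lemma sresp {S : Set Sq} (h : Fam S) (q : ℕ → C) : ∃ x : Sq,
    (∀ t, 4 ≤ t → t ≤ 8 → E S t (x t) (x (t + 1))) ∧
    ∀ u, 3 ≤ u → u ≤ 8 → x (u + 1) ≠ q u ∧ x (u + 1) ≠ q (u + 1) ∧ x (u + 1) ≠ q (u + 2) := by
  choose s hs hs' using fun a : C => const_mem h a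
  obtain ⟨x, hx1, hx2⟩ := h.resp (fun i => s (q i)) (fun i => hs _)
  refine ⟨x, fun t h1 h2 => hx1 t (by omega) h2, fun u h1 h2 => ?_⟩
  have h3 := hx2 u (by omega) h2
  refine ⟨?_, ?_, ?_⟩
  · have := h3.2.1
    rwa [hs' (q u) (u + 1) (by omega) (by omega)] at this
  · have := h3.2.2.2.1
    rwa [hs' (q (u + 1)) (u + 1) (by omega) (by omega)] at this
  · have := h3.2.2.2.2.2.1
    rwa [hs' (q (u + 2)) (u + 1) (by omega) (by omega)] at this

/-- `a, b` are not related by the code `m` -/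
def un (m a b : ℕ) : Bool := !(m.testBit (6 * a + b))

/-- the condition `f` holds for one of the numbers `0, …, 5` -/
def anyB (f : ℕ → Bool) : Bool := f 0 || f 1 || f 2 || f 3 || f 4 || f 5

/-- search for an order `p0, …, p5` of the colours that is not hit by the relations
`m1, m2, m3` -/
def chk (m1 m2 m3 : ℕ) : Bool :=
  anyB fun p5 => anyB fun p0 => !(Nat.beq p0 p5) && un m1 p5 p0 && un m2 p5 p0 && un m3 p5 p0 &&
  anyB fun p4 => !(Nat.beq p4 p5) && !(Nat.beq p4 p0) && un m1 p4 p0 && un m2 p4 p0 &&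
  anyB fun p1 => !(Nat.beq p1 p5) && !(Nat.beq p1 p0) && !(Nat.beq p1 p4) && un m2 p4 p1 &&
    un m2 p5 p1 && un m3 p5 p1 &&
  anyB fun p3 => !(Nat.beq p3 p5) && !(Nat.beq p3 p0) && !(Nat.beq p3 p4) && !(Nat.beq p3 p1) &&
    un m1 p3 p0 && un m3 p5 (15 - p0 - p1 - p3 - p4 - p5)

/-- the complete check -/
def chkAll : Bool := types.all fun m1 => types.all fun m2 => types.all fun m3 =>
  (Nat.beq m1 m3 && stars.any fun m => Nat.beq m1 m) || chk m1 m2 m3

lemma chkAll_true : chkAll = true := by decide +kernel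

lemma anyB_imp {f : ℕ → Bool} (h : anyB f = true) : ∃ a : C, f a.val = true := by
  simp only [anyB, Bool.or_eq_true] at h
  rcases h with ((((h | h) | h) | h) | h) | h
  · exact ⟨0, h⟩
  · exact ⟨1, h⟩
  · exact ⟨2, h⟩
  · exact ⟨3, h⟩
  · exact ⟨4, h⟩
  · exact ⟨5, h⟩

lemma last_color : ∀ p5 p0 p4 p1 p3 : C, p0 ≠ p5 → p4 ≠ p5 → p4 ≠ p0 → p1 ≠ p5 → p1 ≠ p0 →
    p1 ≠ p4 → p3 ≠ p5 → p3 ≠ p0 → p3 ≠ p4 → p3 ≠ p1 →
    ∃ p2 : C, p2.val = 15 - p0.val - p1.val - p3.val - p4.val - p5.val ∧ p2 ≠ p5 ∧ p2 ≠ p0 ∧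
      p2 ≠ p4 ∧ p2 ≠ p1 ∧ p2 ≠ p3 := by
  decide +kernel

lemma window_core {m1 m2 m3 : ℕ} (h1 : m1 ∈ types) (h2 : m2 ∈ types) (h3 : m3 ∈ types) :
    (m1 = m3 ∧ m1 ∈ stars) ∨ ∃ p0 p1 p2 p3 p4 p5 : C,
      (p0 ≠ p5 ∧ p4 ≠ p5 ∧ p4 ≠ p0 ∧ p1 ≠ p5 ∧ p1 ≠ p0 ∧ p1 ≠ p4 ∧ p3 ≠ p5 ∧ p3 ≠ p0 ∧ p3 ≠ p4 ∧
        p3 ≠ p1 ∧ p2 ≠ p5 ∧ p2 ≠ p0 ∧ p2 ≠ p4 ∧ p2 ≠ p1 ∧ p2 ≠ p3) ∧
      (rel m1 p5 p0 = false ∧ rel m1 p4 p0 = false ∧ rel m1 p3 p0 = false) ∧
      (rel m2 p5 p0 = false ∧ rel m2 p4 p0 = false ∧ rel m2 p4 p1 = false ∧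
        rel m2 p5 p1 = false) ∧
      (rel m3 p5 p0 = false ∧ rel m3 p5 p1 = false ∧ rel m3 p5 p2 = false) := by
  have hne : ∀ a b : C, (!(Nat.beq a.val b.val)) = true → a ≠ b := by
    rintro a b h rfl
    simp at h
  have hr : ∀ (m : ℕ) (a b : C), un m a.val b.val = true → rel m a b = false := by
    intro m a b h
    simpa only [un, rel, Bool.not_eq_true'] using h
  have h := chkAll_true
  simp only [chkAll, List.all_eq_true] at h
  have h' := h m1 h1 m2 h2 m3 h3
  rw [Bool.or_eq_true] at h'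
  rcases h' with h' | h'
  · left
    rw [Bool.and_eq_true, List.any_eq_true] at h'
    obtain ⟨g1, m, g2, g3⟩ := h'
    have e1 : m1 = m3 := Nat.eq_of_beq_eq_true g1
    have e2 : m1 = m := Nat.eq_of_beq_eq_true g3
    exact ⟨e1, by rw [e2]; exact g2⟩
  · right
    unfold chk at h'
    obtain ⟨p5, h'⟩ := anyB_imp h'
    obtain ⟨p0, h'⟩ := anyB_imp h'
    simp only [Bool.and_eq_true] at h'
    obtain ⟨⟨⟨⟨a1, a2⟩, a3⟩, a4⟩, h'⟩ := h'
    obtain ⟨p4, h'⟩ := anyB_imp h'
    simp only [Bool.and_eq_true] at h'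
    obtain ⟨⟨⟨⟨b1, b2⟩, b3⟩, b4⟩, h'⟩ := h'
    obtain ⟨p1, h'⟩ := anyB_imp h'
    simp only [Bool.and_eq_true] at h'
    obtain ⟨⟨⟨⟨⟨⟨c1, c2⟩, c3⟩, c4⟩, c5⟩, c6⟩, h'⟩ := h'
    obtain ⟨p3, h'⟩ := anyB_imp h'
    simp only [Bool.and_eq_true] at h'
    obtain ⟨⟨⟨⟨⟨d1, d2⟩, d3⟩, d4⟩, d5⟩, d6⟩ := h'
    obtain ⟨p2, e0, e1, e2, e3, e4, e5⟩ := last_color p5 p0 p4 p1 p3 (hne _ _ a1) (hne _ _ b1)
      (hne _ _ b2) (hne _ _ c1) (hne _ _ c2) (hne _ _ c3) (hne _ _ d1) (hne _ _ d2) (hne _ _ d3)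
      (hne _ _ d4)
    rw [← e0] at d6
    exact ⟨p0, p1, p2, p3, p4, p5,
      ⟨hne _ _ a1, hne _ _ b1, hne _ _ b2, hne _ _ c1, hne _ _ c2, hne _ _ c3, hne _ _ d1,
        hne _ _ d2, hne _ _ d3, hne _ _ d4, e1, e2, e3, e4, e5⟩,
      ⟨hr _ _ _ a2, hr _ _ _ b3, hr _ _ _ d5⟩,
      ⟨hr _ _ _ a3, hr _ _ _ b4, hr _ _ _ c4, hr _ _ _ c5⟩,
      ⟨hr _ _ _ a4, hr _ _ _ c6, hr _ _ _ d6⟩⟩

/-- three consecutive steps: the first and the third relation are the same star -/
lemma window {S : Set Sq} (h : Fam S) {t m1 m2 m3 : ℕ} (ht : 4 ≤ t) (ht' : t ≤ 6)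
    (h1 : m1 ∈ types) (h2 : m2 ∈ types) (h3 : m3 ∈ types)
    (r1 : ∀ a b : C, a ≠ b → E S t a b → rel m1 a b = true)
    (r2 : ∀ a b : C, a ≠ b → E S (t + 1) a b → rel m2 a b = true)
    (r3 : ∀ a b : C, a ≠ b → E S (t + 2) a b → rel m3 a b = true) : m1 = m3 ∧ m1 ∈ stars := by
  rcases window_core h1 h2 h3 with h' | h'
  · exact h'
  · exfalso
    obtain ⟨p0, p1, p2, p3, p4, p5, ⟨d1, d2, d3, d4, d5, d6, d7, d8, d9, d10, d11, d12, d13, d14,
      d15⟩, ⟨a1, a2, a3⟩, ⟨b1, b2, b3, b4⟩, ⟨c1, c2, c3⟩⟩ := h'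
    have hg : Function.Injective (![p0, p1, p2, p3, p4, p5] : C → C) :=
      inj_of d5.symm d12.symm d8.symm d14.symm d10.symm d15 ⟨d3.symm, d6, d13, d9, d1, d4, d11,
        d7, d2⟩
    obtain ⟨x, hx1, hx2⟩ := sresp h (fun i => if i + 1 = t then p0 else if i = t then p1 else
      if i = t + 1 then p2 else if i = t + 2 then p3 else if i = t + 3 then p4 else p5)
    obtain ⟨k, rfl⟩ : ∃ k, t = k + 1 := ⟨t - 1, by omega⟩
    have y0 := hx2 k (by omega) (by omega)
    have y1 := hx2 (k + 1) (by omega) (by omega)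
    have y2 := hx2 (k + 2) (by omega) (by omega)
    have y3 := hx2 (k + 3) (by omega) (by omega)
    simp [add_assoc] at y0 y1 y2 y3
    have e1 : E S (k + 1) (x (k + 1)) (x (k + 2)) := hx1 (k + 1) (by omega) (by omega)
    have e2 : E S (k + 2) (x (k + 2)) (x (k + 3)) := hx1 (k + 2) (by omega) (by omega)
    have e3 : E S (k + 3) (x (k + 3)) (x (k + 4)) := hx1 (k + 3) (by omega) (by omega)
    have all6 : ∀ y : C, y = p0 ∨ y = p1 ∨ y = p2 ∨ y = p3 ∨ y = p4 ∨ y = p5 := by
      intro y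
      obtain ⟨j, rfl⟩ := Finite.injective_iff_surjective.mp hg y
      fin_cases j <;> simp
    have q1 : x (k + 1) = p3 ∨ x (k + 1) = p4 ∨ x (k + 1) = p5 := by
      rcases all6 (x (k + 1)) with q | q | q | q | q | q
      · exact absurd q y0.1
      · exact absurd q y0.2.1
      · exact absurd q y0.2.2
      · exact Or.inl q
      · exact Or.inr (Or.inl q)
      · exact Or.inr (Or.inr q)
    have q2 : x (k + 2) = p0 ∨ x (k + 2) = p4 ∨ x (k + 2) = p5 := by
      rcases all6 (x (k + 2)) with q | q | q | q | q | q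
      · exact Or.inl q
      · exact absurd q y1.1
      · exact absurd q y1.2.1
      · exact absurd q y1.2.2
      · exact Or.inr (Or.inl q)
      · exact Or.inr (Or.inr q)
    have q3 : x (k + 3) = p0 ∨ x (k + 3) = p1 ∨ x (k + 3) = p5 := by
      rcases all6 (x (k + 3)) with q | q | q | q | q | q
      · exact Or.inl q
      · exact Or.inr (Or.inl q)
      · exact absurd q y2.1
      · exact absurd q y2.2.1
      · exact absurd q y2.2.2
      · exact Or.inr (Or.inr q)
    have q4 : x (k + 4) = p0 ∨ x (k + 4) = p1 ∨ x (k + 4) = p2 := by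
      rcases all6 (x (k + 4)) with q | q | q | q | q | q
      · exact Or.inl q
      · exact Or.inr (Or.inl q)
      · exact Or.inr (Or.inr q)
      · exact absurd q y3.1
      · exact absurd q y3.2.1
      · exact absurd q y3.2.2
    have t1 : ∀ {a b : C}, x (k + 1) = a → x (k + 2) = b → a ≠ b → rel m1 a b = false → False := by
      rintro a b rfl rfl hab hf
      rw [r1 _ _ hab e1] at hf
      exact absurd hf (by decide)
    have t2 : ∀ {a b : C}, x (k + 2) = a → x (k + 3) = b → a ≠ b → rel m2 a b = false → False := by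
      rintro a b rfl rfl hab hf
      rw [r2 _ _ hab e2] at hf
      exact absurd hf (by decide)
    have t3 : ∀ {a b : C}, x (k + 3) = a → x (k + 4) = b → a ≠ b → rel m3 a b = false → False := by
      rintro a b rfl rfl hab hf
      rw [r3 _ _ hab e3] at hf
      exact absurd hf (by decide)
    rcases q2 with q2 | q2 | q2
    · rcases q1 with q1 | q1 | q1
      · exact t1 q1 q2 d8 a3
      · exact t1 q1 q2 d3 a2
      · exact t1 q1 q2 d1.symm a1
    · rcases q3 with q3 | q3 | q3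
      · exact t2 q2 q3 d3 b2
      · exact t2 q2 q3 d6.symm b3
      · rcases q4 with q4 | q4 | q4
        · exact t3 q3 q4 d1.symm c1
        · exact t3 q3 q4 d4.symm c2
        · exact t3 q3 q4 d11.symm c3
    · rcases q3 with q3 | q3 | q3
      · exact t2 q2 q3 d1.symm b1
      · exact t2 q2 q3 d4.symm b4
      · rcases q4 with q4 | q4 | q4
        · exact t3 q3 q4 d1.symm c1
        · exact t3 q3 q4 d4.symm c2
        · exact t3 q3 q4 d11.symm c3

lemma star_spec : ∀ m ∈ stars, ∃ z : C, ∀ a b : C, rel m a b = true → a = z ∨ b = z := by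
  decide +kernel

lemma final_colors : ∀ z w : C, ∃ w' c1 c2 c3 c4 : C, (w = z ∨ w = w') ∧ z ≠ w' ∧ z ≠ c1 ∧
    z ≠ c2 ∧ z ≠ c3 ∧ z ≠ c4 ∧ w' ≠ c1 ∧ w' ≠ c2 ∧ w' ≠ c3 ∧ w' ≠ c4 ∧ c1 ≠ c2 ∧ c1 ≠ c3 ∧
    c1 ≠ c4 ∧ c2 ≠ c3 ∧ c2 ≠ c4 ∧ c3 ≠ c4 := by
  decide +kernel

/-- **There is no such family.** -/
theorem no_fam {S : Set Sq} (h : Fam S) : False := by
  obtain ⟨m4, t4, r4⟩ := classify_step h (t := 4) (by omega) (by omega)
  obtain ⟨m5, t5, r5⟩ := classify_step h (t := 5) (by omega) (by omega)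
  obtain ⟨m6, t6, r6⟩ := classify_step h (t := 6) (by omega) (by omega)
  obtain ⟨m7, t7, r7⟩ := classify_step h (t := 7) (by omega) (by omega)
  obtain ⟨m8, t8, r8⟩ := classify_step h (t := 8) (by omega) (by omega)
  obtain ⟨e46, s4⟩ := window h (t := 4) (by omega) (by omega) t4 t5 t6 r4 r5 r6
  obtain ⟨e57, s5⟩ := window h (t := 5) (by omega) (by omega) t5 t6 t7 r5 r6 r7
  obtain ⟨e68, s6⟩ := window h (t := 6) (by omega) (by omega) t6 t7 t8 r6 r7 r8
  rw [← e68, ← e46] at r8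
  rw [← e46] at r6
  rw [← e57] at r7
  obtain ⟨z, hz⟩ := star_spec m4 s4
  obtain ⟨w, hw⟩ := star_spec m5 s5
  obtain ⟨w', c1, c2, c3, c4, hww, d1, d2, d3, d4, d5, d6, d7, d8, d9, d10, d11, d12, d13, d14,
    d15⟩ := final_colors z w
  obtain ⟨x, hx1, hx2⟩ := sresp h (fun i => if i = 3 then c1 else if i = 4 then c2 else
    if i = 5 then z else if i = 6 then w' else if i = 7 then c3 else if i = 8 then z else
    if i = 9 then w' else c4)
  have y4 := hx2 3 (by omega) (by omega)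
  have y5 := hx2 4 (by omega) (by omega)
  have y6 := hx2 5 (by omega) (by omega)
  have y7 := hx2 6 (by omega) (by omega)
  have y8 := hx2 7 (by omega) (by omega)
  have y9 := hx2 8 (by omega) (by omega)
  norm_num at y4 y5 y6 y7 y8 y9
  have f4 : x 4 = x 5 := by
    by_contra hcon
    rcases hz _ _ (r4 _ _ hcon (hx1 4 (by omega) (by omega))) with q | q
    · exact y4.2.2 q
    · exact y5.2.1 q
  have f5 : x 5 = x 6 := by
    by_contra hcon
    rcases hw _ _ (r5 _ _ hcon (hx1 5 (by omega) (by omega))) with q | q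
    · rcases hww with rfl | rfl
      · exact y5.2.1 q
      · exact y5.2.2 q
    · rcases hww with rfl | rfl
      · exact y6.1 q
      · exact y6.2.1 q
  have f6 : x 6 = x 7 := by
    by_contra hcon
    rcases hz _ _ (r6 _ _ hcon (hx1 6 (by omega) (by omega))) with q | q
    · exact y6.1 q
    · exact y7.2.2 q
  have f7 : x 7 = x 8 := by
    by_contra hcon
    rcases hw _ _ (r7 _ _ hcon (hx1 7 (by omega) (by omega))) with q | q
    · rcases hww with rfl | rfl
      · exact y7.2.2 q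
      · exact y7.1 q
    · rcases hww with rfl | rfl
      · exact y8.2.1 q
      · exact y8.2.2 q
  have f8 : x 8 = x 9 := by
    by_contra hcon
    rcases hz _ _ (r8 _ _ hcon (hx1 8 (by omega) (by omega))) with q | q
    · exact y8.2.1 q
    · exact y9.1 q
  have hg : Function.Injective (![z, w', c1, c2, c3, c4] : C → C) :=
    inj_of d1 d2 d3 d6 d7 d10 ⟨d4, d8, d11, d13, d5, d9, d12, d14, d15⟩
  obtain ⟨j, hj⟩ := Finite.injective_iff_surjective.mp hg (x 4)
  fin_cases j
  · exact y4.2.2 hj.symm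
  · exact y5.2.2 (f4 ▸ hj.symm)
  · exact y4.1 hj.symm
  · exact y4.2.1 hj.symm
  · refine y6.2.2 ?_
    rw [← f5, ← f4]
    exact hj.symm
  · refine y9.2.2 ?_
    rw [← f8, ← f7, ← f6, ← f5, ← f4]
    exact hj.symm

end Pool.Agent.R504.TempFam
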