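import Mathlib

set_option autoImplicit false

/-!
# Trees given by a parent function
-/

namespace Pool.Agent.R504.TempTree

/-- the graph in which every vertex other than `r` is joined to its parent -/
def pg {V : Type} (r : V) (par : V → V) : SimpleGraph V where
  Adj u v := u ≠ v ∧ ((u ≠ r ∧ par u = v) ∨ (v ≠ r ∧ par v = u))
  symm := ⟨fun _ _ h => ⟨h.1.symm, h.2.symm⟩⟩
  loopless := ⟨fun _ h => h.1 rfl⟩

lemma reach_root {V : Type} {r : V} {par : V → V} {rk : V → ℕ}
    (h : ∀ v, v ≠ r → rk v = rk (par v) + 1) (n : ℕ) :
    ∀ v, rk v = n → (pg r par).Reachable v r := by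
  induction n using Nat.strong_induction_on with
  | _ n ih =>
    intro v hv
    by_cases hr : v = r
    · rw [hr]
    · have h1 := h v hr
      have h2 : (pg r par).Adj v (par v) := by
        refine ⟨?_, Or.inl ⟨hr, rfl⟩⟩
        intro h'
        rw [← h'] at h1
        omega
      exact h2.reachable.trans (ih (rk (par v)) (by omega) (par v) rfl)

lemma closed_walk {V : Type} {G : SimpleGraph V} {D : Set V}
    (hstep : ∀ u w, G.Adj u w → u ∈ D → w ∈ D) {a b : V} (p : G.Walk a b) (ha : a ∈ D) :
    b ∈ D := by
  induction p with
  | nil => exact ha
  | cons hadj q ih => exact ih (hstep _ _ hadj ha)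

theorem pg_isTree {V : Type} {r : V} {par : V → V} {rk : V → ℕ}
    (h : ∀ v, v ≠ r → rk v = rk (par v) + 1) : (pg r par).IsTree := by
  have hconn : (pg r par).Connected := by
    have : Nonempty V := ⟨r⟩
    refine ⟨fun u v => ?_⟩
    exact (reach_root h _ u rfl).trans (reach_root h _ v rfl).symm
  have hac : (pg r par).IsAcyclic := by
    rw [SimpleGraph.isAcyclic_iff_forall_adj_isBridge]
    -- the edge from `v` to its parent is a bridge
    have key : ∀ v, v ≠ r → ¬ ((pg r par).deleteEdges {s(v, par v)}).Reachable v (par v) := by
      intro v hv hreach
      -- descendants of `v`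
      let D : Set V := {u | ∃ n, par^[n] u = v ∧ ∀ m < n, par^[m] u ≠ r}
      have hstep : ∀ u w, ((pg r par).deleteEdges {s(v, par v)}).Adj u w → u ∈ D → w ∈ D := by
        intro u w huw hu
        rw [SimpleGraph.deleteEdges_adj] at huw
        obtain ⟨⟨hne, hadj⟩, hedge⟩ := huw
        obtain ⟨n, hn, hn'⟩ := hu
        rcases hadj with ⟨hur, hpar⟩ | ⟨hwr, hpar⟩
        · cases n with
          | zero =>
            exfalso
            apply hedge
            have : u = v := hn
            subst this
            rw [← hpar]
            exact Set.mem_singleton _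
          | succ n =>
            refine ⟨n, ?_, ?_⟩
            · rw [← hpar]
              exact hn
            · intro m hm
              have := hn' (m + 1) (by omega)
              rw [← hpar]
              exact this
        · refine ⟨n + 1, ?_, ?_⟩
          · rw [Function.iterate_succ_apply, hpar]
            exact hn
          · intro m hm
            cases m with
            | zero => exact hwr
            | succ m =>
              rw [Function.iterate_succ_apply, hpar]
              exact hn' m (by omega)
      have hD : ∀ w, ((pg r par).deleteEdges {s(v, par v)}).Reachable v w → w ∈ D := by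
        rintro w ⟨p⟩
        exact closed_walk hstep p ⟨0, rfl, by intro m hm; omega⟩
      obtain ⟨n, hn, hn'⟩ := hD _ hreach
      have hrk : ∀ n u, (∀ m < n, par^[m] u ≠ r) → rk (par^[n] u) ≤ rk u := by
        intro n
        induction n with
        | zero => intro u _; exact le_refl _
        | succ n ih =>
          intro u hu
          rw [Function.iterate_succ_apply]
          have h1 := ih (par u) (fun m hm => by
            have := hu (m + 1) (by omega)
            exact this)
          have h2 := h u (hu 0 (by omega))
          omega
      have h3 := hrk n (par v) hn'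
      rw [hn] at h3
      have h4 := h v hv
      omega
    intro u w huw
    rcases huw.2 with ⟨hur, hpar⟩ | ⟨hwr, hpar⟩
    · rw [SimpleGraph.isBridge_iff, ← hpar]
      exact key u hur
    · rw [Sym2.eq_swap, SimpleGraph.isBridge_iff, ← hpar]
      exact key w hwr
  exact ⟨hconn, hac⟩

end Pool.Agent.R504.TempTree
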